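import Pool.Graph.R_seed8.TH369.MU.RS

/-! # The rank one family on the resolvent side -/

set_option autoImplicit false

open MeasureTheory Filter Topology
open scoped ENNReal NNReal ComplexConjugate InnerProductSpace

namespace Pool.Agent.Helper26.Rg

open Pool.Agent.TH369.AN Pool.Agent.TH369.MU

variable {X : Type} [NormedAddCommGroup X] [InnerProductSpace ℂ X] [CompleteSpace X]

/-- `-1 / ⟨e, (T - z)⁻¹ e⟩` -/
noncomputable def wf (T : X →L[ℂ] X) (e : X) (z : ℂ) : ℂ := -(⟪e, Rz T z e⟫_ℂ)⁻¹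

/-- the normalised vector -/
noncomputable def uf (T : X →L[ℂ] X) (e : X) (z : ℂ) : X := wf T e z • Rz T z e

variable {T : X →L[ℂ] X} {e : X}

lemma F_im (hT : IsSelfAdjoint T) {z : ℂ} (hz : z.im ≠ 0) :
    (⟪e, Rz T z e⟫_ℂ).im = z.im * ‖Rz T z e‖ ^ 2 := Pool.Agent.H12R2.And.im_inner hT hz e

lemma Rz_ne (hT : IsSelfAdjoint T) (he : e ≠ 0) {z : ℂ} (hz : z.im ≠ 0) : Rz T z e ≠ 0 := by
  intro h
  have h2 := rz_eq T hT z hz e
  rw [h, map_zero, smul_zero, sub_zero] at h2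
  exact he h2.symm

lemma F_ne (hT : IsSelfAdjoint T) (he : e ≠ 0) {z : ℂ} (hz : z.im ≠ 0) :
    ⟪e, Rz T z e⟫_ℂ ≠ 0 := by
  intro h
  have h1 := F_im (e := e) hT hz
  rw [h, Complex.zero_im] at h1
  have h2 : 0 < ‖Rz T z e‖ := norm_pos_iff.2 (Rz_ne hT he hz)
  have h3 : z.im * ‖Rz T z e‖ ^ 2 ≠ 0 := mul_ne_zero hz (by positivity)
  exact h3 h1.symm

lemma wf_im (hT : IsSelfAdjoint T) (he : e ≠ 0) {z : ℂ} (hz : z.im ≠ 0) :
    (wf T e z).im = z.im * ‖uf T e z‖ ^ 2 := by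
  have hF := F_ne hT he hz
  have h1 := F_im (e := e) hT hz
  unfold uf
  rw [norm_smul]
  unfold wf
  rw [Complex.neg_im, Complex.inv_im, norm_neg, norm_inv, h1, mul_pow, inv_pow,
    ← Complex.normSq_eq_norm_sq]
  have : Complex.normSq ⟪e, Rz T z e⟫_ℂ ≠ 0 := by
    rw [ne_eq, Complex.normSq_eq_zero]
    exact hF
  field_simp

lemma wf_ne (hT : IsSelfAdjoint T) (he : e ≠ 0) {z : ℂ} (hz : z.im ≠ 0) :
    (wf T e z).im ≠ 0 := by
  rw [wf_im hT he hz]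
  refine mul_ne_zero hz ?_
  have h1 : uf T e z ≠ 0 := by
    unfold uf
    refine smul_ne_zero ?_ (Rz_ne hT he hz)
    unfold wf
    exact neg_ne_zero.2 (inv_ne_zero (F_ne hT he hz))
  have := norm_pos_iff.2 h1
  positivity

lemma rz_pt (hT : IsSelfAdjoint T) (he : e ≠ 0) {z : ℂ} (hz : z.im ≠ 0) (κ : ℝ) :
    Rz (pt T e κ) z e = (wf T e z - κ)⁻¹ • uf T e z := by
  have hF := F_ne hT he hz
  have h1 := rank_one T hT e e 0 κ z hz
  rw [RS.pt_zero, sub_zero] at h1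
  have hw : wf T e z - κ ≠ 0 := by
    intro h
    have := congrArg Complex.im h
    rw [Complex.sub_im, Complex.ofReal_im, sub_zero, Complex.zero_im] at this
    exact wf_ne hT he hz this
  have h2 : (1 + κ * ⟪e, Rz T z e⟫_ℂ) • Rz (pt T e κ) z e = Rz T z e := by
    rw [add_smul, one_smul]
    nth_rewrite 1 [h1]
    abel
  have h3 : (1 + κ * ⟪e, Rz T z e⟫_ℂ) = -(⟪e, Rz T z e⟫_ℂ * (wf T e z - κ)) := by
    unfold wf
    field_simp
    ring
  have h4 : (1 + κ * ⟪e, Rz T z e⟫_ℂ) ≠ 0 := by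
    rw [h3]
    exact neg_ne_zero.2 (mul_ne_zero hF hw)
  have h5 : Rz (pt T e κ) z e = (1 + κ * ⟪e, Rz T z e⟫_ℂ)⁻¹ • Rz T z e :=
    (eq_inv_smul_iff₀ h4).2 h2
  rw [h5]
  unfold uf
  rw [smul_smul]
  congr 1
  rw [h3]
  unfold wf
  rw [neg_inv, ← mul_inv]
  congr 1
  ring

/-- symmetry of the resolvents -/
lemma rz_adj (hT : IsSelfAdjoint T) {z : ℂ} (hz : z.im ≠ 0) (x y : X) :
    ⟪x, Rz T (conj z) y⟫_ℂ = ⟪Rz T z x, y⟫_ℂ := by
  have hz' : (conj z).im ≠ 0 := by rw [Complex.conj_im]; exact neg_ne_zero.2 hz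
  have h1 := rz_eq T hT z hz x
  have h2 := rz_eq T hT (conj z) hz' y
  have hs := hT
  rw [ContinuousLinearMap.isSelfAdjoint_iff_isSymmetric] at hs
  have h3 : ⟪T (Rz T z x), Rz T (conj z) y⟫_ℂ = ⟪Rz T z x, T (Rz T (conj z) y)⟫_ℂ :=
    hs _ _
  calc ⟪x, Rz T (conj z) y⟫_ℂ = ⟪T (Rz T z x) - z • Rz T z x, Rz T (conj z) y⟫_ℂ := by rw [h1]
    _ = ⟪Rz T z x, T (Rz T (conj z) y) - conj z • Rz T (conj z) y⟫_ℂ := by
        rw [inner_sub_left, inner_sub_right, h3, inner_smul_left, inner_smul_right]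
    _ = _ := by rw [h2]

lemma wf_conj (hT : IsSelfAdjoint T) {z : ℂ} (hz : z.im ≠ 0) :
    wf T e (conj z) = conj (wf T e z) := by
  unfold wf
  rw [rz_adj hT hz, map_neg, map_inv₀, inner_conj_symm]

/-- the Schur complement -/
lemma schur (hT : IsSelfAdjoint T) (he : ‖e‖ = 1) {z : ℂ} (hz : z.im ≠ 0) :
    wf T e z = z - ⟪e, T e⟫_ℂ + ⟪(1 - ro e : X →L[ℂ] X) (T e),
      Rz (cp T e) z ((1 - ro e : X →L[ℂ] X) (T e))⟫_ℂ := by
  have he0 : e ≠ 0 := by
    intro h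
    rw [h, norm_zero] at he
    exact zero_ne_one he
  have hee : ⟪e, e⟫_ℂ = 1 := by
    rw [inner_self_eq_norm_sq_to_K, he]
    simp
  have hF := F_ne hT he0 hz
  have hs := hT
  rw [ContinuousLinearMap.isSelfAdjoint_iff_isSymmetric] at hs
  have hsm : ∀ a b : X, ⟪T a, b⟫_ℂ = ⟪a, T b⟫_ℂ := fun a b => hs a b
  set q : X := (1 - ro e : X →L[ℂ] X) (T e) with hq
  set F : ℂ := ⟪e, Rz T z e⟫_ℂ with hFd
  have hqe : q = T e - ⟪e, T e⟫_ℂ • e := rfl
  obtain ⟨y, hy⟩ : ∃ y : X, y = Rz T z e - F • e := ⟨_, rfl⟩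
  have hey : ⟪e, y⟫_ℂ = 0 := by
    rw [hy, inner_sub_right, inner_smul_right, hee, mul_one, hFd, sub_self]
  have hR : Rz T z e = F • e + y := by rw [hy]; abel
  have h1 := rz_eq T hT z hz e
  rw [hR, map_add, map_smul] at h1
  -- component along `e`
  have hqy : ⟪e, T y⟫_ℂ = ⟪q, y⟫_ℂ := by
    rw [hqe, inner_sub_left, inner_smul_left, hey, mul_zero, sub_zero, hsm]
  have h2 : F * (⟪e, T e⟫_ℂ - z) + ⟪q, y⟫_ℂ = 1 := by
    have h3 := congrArg (fun v => ⟪e, v⟫_ℂ) h1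
    simp only [inner_sub_right, inner_add_right, inner_smul_right, hee, hey, hqy] at h3
    linear_combination h3
  -- orthogonal component
  have hcy : cp T e y - z • y = -(F • q) := by
    have hPy : (1 - ro e : X →L[ℂ] X) y = y := by
      show y - ⟪e, y⟫_ℂ • e = y
      rw [hey, zero_smul, sub_zero]
    have e1 : cp T e y = T y - ⟪e, T y⟫_ℂ • e := by
      show (1 - ro e : X →L[ℂ] X) (T ((1 - ro e : X →L[ℂ] X) y)) = _
      rw [hPy]
      rfl
    have h3 : T y = e - F • T e + z • (F • e + y) := by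
      calc T y = (F • T e + T y - z • (F • e + y)) - F • T e + z • (F • e + y) := by abel
        _ = _ := by rw [h1]
    have h4 : ⟪e, T y⟫_ℂ = 1 - F * ⟪e, T e⟫_ℂ + z * F := by
      rw [hqy]
      linear_combination h2
    rw [e1, h4, h3, hqe]
    module
  have hcp := cp_sa T hT e
  have h5 : -(F • q) = -F • q := by rw [neg_smul]
  have h6 : y = Rz (cp T e) z (-F • q) := rz_uniq (cp T e) hcp z hz y _ (by rw [hcy, h5])
  rw [map_smul] at h6
  rw [h6, inner_smul_right] at h2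
  unfold wf
  rw [← hFd]
  have h7 : F * (⟪e, T e⟫_ℂ - z - ⟪q, Rz (cp T e) z q⟫_ℂ) = 1 := by linear_combination h2
  have h8 : F⁻¹ = ⟪e, T e⟫_ℂ - z - ⟪q, Rz (cp T e) z q⟫_ℂ := inv_eq_of_mul_eq_one_right h7
  rw [h8]
  ring

lemma eTe_im (hT : IsSelfAdjoint T) : (⟪e, T e⟫_ℂ).im = 0 := by
  have hs := hT
  rw [ContinuousLinearMap.isSelfAdjoint_iff_isSymmetric] at hs
  have h1 : ⟪T e, e⟫_ℂ = ⟪e, T e⟫_ℂ := hs e e
  rw [← inner_conj_symm] at h1
  exact Complex.conj_eq_iff_im.1 h1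

lemma zk_lim (E : ℝ) : Tendsto (fun k => zk E k) atTop (𝓝 (E : ℂ)) := by
  have h1 : Tendsto (fun k : ℕ => ((ep k : ℝ) : ℂ)) atTop (𝓝 ((0 : ℝ) : ℂ)) :=
    (Complex.continuous_ofReal.tendsto _).comp (by
      unfold ep
      exact tendsto_one_div_add_atTop_nhds_zero_nat (𝕜 := ℝ))
  have h2 := (h1.mul_const Complex.I).const_add (E : ℂ)
  rw [Complex.ofReal_zero, zero_mul, add_zero] at h2
  exact h2

/-- boundary values of `w` -/
theorem wf_lim (hT : IsSelfAdjoint T) (he : ‖e‖ = 1) :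
    ∀ᵐ E : ℝ, ∃ l : ℝ, Tendsto (fun k => (wf T e (zk E k)).im) atTop (𝓝 l) ∧
      (l ≠ 0 → ∃ W : ℂ, Tendsto (fun k => wf T e (zk E k)) atTop (𝓝 W)) := by
  set q : X := (1 - ro e : X →L[ℂ] X) (T e) with hq
  have hcp := cp_sa T hT e
  obtain ⟨m, hm, -⟩ := spm_exists (cp T e) hcp q
  have hS : ∀ E k, wf T e (zk E k) = zk E k - ⟪e, T e⟫_ℂ + Fk (cp T e) E k q := fun E k =>
    schur hT he (RS.zk_im_ne E k)
  filter_upwards [qk_ae (cp T e) hcp q m hm, fk_conv (cp T e) hcp q] with E h1 h2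
  set l : ℝ := Real.pi * (m.rnDeriv volume E).toReal with hl
  have h3 : Tendsto (fun k => (Fk (cp T e) E k q).im) atTop (𝓝 l) :=
    h1.congr fun k => qk_sq (cp T e) hcp E k q
  have h4 := zk_lim E
  refine ⟨l, ?_, fun hl0 => ?_⟩
  · have h5 : Tendsto (fun k => (zk E k).im) atTop (𝓝 0) := by
      have := (Complex.continuous_im.tendsto _).comp h4
      rwa [Complex.ofReal_im] at this
    have h6 := h5.add h3
    rw [zero_add] at h6
    refine h6.congr fun k => ?_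
    rw [hS, Complex.add_im, Complex.sub_im, eTe_im hT, sub_zero]
  · have hl1 : 0 ≤ l := by rw [hl]; positivity
    obtain ⟨L, hL⟩ := h2 l (lt_of_le_of_ne hl1 (Ne.symm hl0)) h3
    refine ⟨(E : ℂ) - ⟪e, T e⟫_ℂ + L, ?_⟩
    have h5 := (h4.sub_const ⟪e, T e⟫_ℂ).add hL
    exact h5.congr fun k => (hS E k).symm

lemma diff_wf (hT : IsSelfAdjoint T) (he : e ≠ 0) {z : ℂ} (hz : z.im ≠ 0) :
    DifferentiableAt ℂ (wf T e) z :=
  ((rz_diff T hT e e z hz).inv (F_ne hT he hz)).neg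

lemma cont_rz (hT : IsSelfAdjoint T) {Y : Type} [TopologicalSpace Y] {g : Y → ℂ}
    (hg : Continuous g) (hz : ∀ y, (g y).im ≠ 0) (x : X) : Continuous fun y => Rz T (g y) x := by
  rw [continuous_iff_continuousAt]
  intro y
  have h1 : DifferentiableAt ℂ (Rz T) (g y) := Pool.Agent.H12R2.And.diff_Rz hT (hz y)
  have h2 : ContinuousAt (fun y => Rz T (g y)) y :=
    ContinuousAt.comp (f := g) (g := Rz T) h1.continuousAt hg.continuousAt
  exact h2.clm_apply continuousAt_const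

lemma cont_wf (hT : IsSelfAdjoint T) (he : e ≠ 0) {Y : Type} [TopologicalSpace Y] {g : Y → ℂ}
    (hg : Continuous g) (hz : ∀ y, (g y).im ≠ 0) : Continuous fun y => wf T e (g y) := by
  unfold wf
  refine Continuous.neg (Continuous.inv₀ ?_ fun y => F_ne hT he (hz y))
  exact continuous_const.inner (cont_rz hT hg hz e)

lemma cont_uf (hT : IsSelfAdjoint T) (he : e ≠ 0) {Y : Type} [TopologicalSpace Y] {g : Y → ℂ}
    (hg : Continuous g) (hz : ∀ y, (g y).im ≠ 0) : Continuous fun y => uf T e (g y) :=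
  (cont_wf hT he hg hz).smul (cont_rz hT hg hz e)

end Pool.Agent.Helper26.Rg
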