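import Pool.Agent.Helper26.Rg.Abm
import Pool.Agent.Helper26.Rg.Res

/-! # The resolvent is the Laplace transform of the group -/

set_option autoImplicit false

open MeasureTheory Filter Topology
open scoped ENNReal NNReal ComplexConjugate InnerProductSpace

namespace Pool.Agent.Helper26.Rg

open Pool.Agent.H5R2.NB Pool.Agent.Helper26.Cm Pool.Agent.Helper26.Dj
open Pool.Agent.TH369.AN (Rz rz_uniq pt pt_sa)
open Pool.Agent.TH369.MU (zk ep)

variable {ι : Type}

/-- `W` is the group with the bounded generator `T` (coordinate by coordinate) -/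
def Gen (W : UG (L2 ι)) (T : L2 ι →L[ℂ] L2 ι) : Prop :=
  ∀ (x : L2 ι) (t : ℝ) (j : ι),
    HasDerivAt (fun s => (W.U s x) j) (-Complex.I * (T (W.U t x)) j) t

lemma Gen.rev {W : UG (L2 ι)} {T : L2 ι →L[ℂ] L2 ι} (h : Gen W T) : Gen (rev W) (-T) := by
  intro x t j
  have h1 := (h x (-t) j).scomp t (hasDerivAt_neg t)
  show HasDerivAt (fun s => (W.U (-s) x) j) (-Complex.I * ((-T) (W.U (-t) x)) j) t
  have e1 : -Complex.I * ((-T) (W.U (-t) x)) j = (-1 : ℝ) • (-Complex.I * (T (W.U (-t) x)) j) := by
    have e2 : ((-T) (W.U (-t) x)) j = -((T (W.U (-t) x)) j) := by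
      rw [_root_.neg_apply, lp.coeFn_neg, Pi.neg_apply]
    rw [e2, neg_one_smul]
    ring
  rw [e1]
  exact h1

theorem rz_La {W : UG (L2 ι)} {T : L2 ι →L[ℂ] L2 ι} (hT : IsSelfAdjoint T) (h : Gen W T)
    {ε : ℝ} (hε : 0 < ε) (E : ℝ) (x : L2 ι) :
    Rz T ((E : ℂ) + (ε : ℂ) * Complex.I) x = Complex.I • La W x E ε := by
  set z : ℂ := (E : ℂ) + (ε : ℂ) * Complex.I with hz
  have hzim : z.im = ε := by rw [hz]; simp
  symm
  refine rz_uniq T hT z (by rw [hzim]; exact hε.ne') _ _ ?_
  -- the coordinates
  have key : ∀ j : ι, (T (La W x E ε)) j - z * (La W x E ε) j = -Complex.I * x j := by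
    intro j
    let L : L2 ι →L[ℂ] ℂ := lp.evalCLM ℂ (fun _ : ι => ℂ) 2 j
    have hL : ∀ y : L2 ι, L y = y j := fun y => rfl
    have e1 : (La W x E ε) j = ∫ s in Set.Ioi (0 : ℝ),
        Complex.exp (Complex.I * z * s) * (W.U s x) j := by
      rw [← hL, fun_La L W x E hε, ← integral_indicator measurableSet_Ioi]
      refine integral_congr_ae (Eventually.of_forall fun s => ?_)
      simp only
      rw [hL]
      by_cases hs : s ∈ Set.Ioi (0 : ℝ)
      · rw [Set.indicator_of_mem hs]
        unfold eR
        rw [Set.indicator_of_mem hs]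
        congr 1
        rw [Complex.ofReal_exp, ← Complex.exp_add, hz]
        congr 1
        push_cast
        linear_combination (-(ε : ℂ)) * s * Complex.I_sq
      · rw [Set.indicator_of_notMem hs]
        unfold eR
        rw [Set.indicator_of_notMem hs]
        simp
    have e2 : (T (La W x E ε)) j = ∫ s in Set.Ioi (0 : ℝ),
        Complex.exp (Complex.I * z * s) * (T (W.U s x)) j := by
      rw [← hL, show L (T (La W x E ε)) = (L.comp T) (La W x E ε) from rfl,
        fun_La (L.comp T) W x E hε, ← integral_indicator measurableSet_Ioi]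
      refine integral_congr_ae (Eventually.of_forall fun s => ?_)
      simp only
      rw [show (L.comp T) (W.U s x) = (T (W.U s x)) j from rfl]
      by_cases hs : s ∈ Set.Ioi (0 : ℝ)
      · rw [Set.indicator_of_mem hs]
        unfold eR
        rw [Set.indicator_of_mem hs]
        congr 1
        rw [Complex.ofReal_exp, ← Complex.exp_add, hz]
        congr 1
        push_cast
        linear_combination (-(ε : ℂ)) * s * Complex.I_sq
      · rw [Set.indicator_of_notMem hs]
        unfold eR
        rw [Set.indicator_of_notMem hs]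
        simp
    have hexp : ∀ s : ℝ, ‖Complex.exp (Complex.I * z * s)‖ = Real.exp (-ε * s) := by
      intro s
      rw [Complex.norm_exp]
      congr 1
      rw [hz]
      simp
    have hco : ∀ y : L2 ι, ‖y j‖ ≤ ‖y‖ := fun y => lp.norm_apply_le_norm (by norm_num) y j
    have hexpI : IntegrableOn (fun s : ℝ => Real.exp (-ε * s)) (Set.Ioi 0) :=
      integrableOn_exp_mul_Ioi (by linarith) 0
    have j1 : IntegrableOn (fun s : ℝ => Complex.exp (Complex.I * z * s) * (W.U s x) j)
        (Set.Ioi 0) := by
      refine (hexpI.mul_const ‖x‖).mono' ?_ (Eventually.of_forall fun s => ?_)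
      · have : Continuous fun s : ℝ => Complex.exp (Complex.I * z * s) * (W.U s x) j := by
          have := L.continuous.comp (W.cont' x)
          exact (by fun_prop : Continuous fun s : ℝ => Complex.exp (Complex.I * z * s)).mul this
        exact this.aestronglyMeasurable
      · rw [norm_mul, hexp]
        refine mul_le_mul_of_nonneg_left ?_ (Real.exp_pos _).le
        refine (hco _).trans ?_
        rw [W.norm']
    have j2 : IntegrableOn (fun s : ℝ => Complex.exp (Complex.I * z * s) * (T (W.U s x)) j)
        (Set.Ioi 0) := by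
      refine (hexpI.mul_const (‖T‖ * ‖x‖)).mono' ?_ (Eventually.of_forall fun s => ?_)
      · have : Continuous fun s : ℝ => Complex.exp (Complex.I * z * s) * (T (W.U s x)) j := by
          have := (L.comp T).continuous.comp (W.cont' x)
          exact (by fun_prop : Continuous fun s : ℝ => Complex.exp (Complex.I * z * s)).mul this
        exact this.aestronglyMeasurable
      · rw [norm_mul, hexp]
        refine mul_le_mul_of_nonneg_left ?_ (Real.exp_pos _).le
        refine (hco _).trans ((T.le_opNorm _).trans ?_)
        rw [W.norm']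
    have hd : ∀ s ∈ Set.Ici (0 : ℝ), HasDerivAt
        (fun s : ℝ => Complex.exp (Complex.I * z * s) * (W.U s x) j)
        (Complex.I * z * (Complex.exp (Complex.I * z * s) * (W.U s x) j) -
          Complex.I * (Complex.exp (Complex.I * z * s) * (T (W.U s x)) j)) s := by
      intro s _
      have d1 : HasDerivAt (fun s : ℝ => Complex.exp (Complex.I * z * s))
          (Complex.exp (Complex.I * z * s) * (Complex.I * z)) s := by
        have := ((hasDerivAt_id s).ofReal_comp).const_mul (Complex.I * z)
        simp only [id, Complex.ofReal_one, mul_one] at this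
        exact this.cexp
      have d2 := d1.mul (h x s j)
      refine d2.congr_deriv ?_
      ring
    have hlim : Tendsto (fun s : ℝ => Complex.exp (Complex.I * z * s) * (W.U s x) j) atTop
        (𝓝 0) := by
      rw [tendsto_zero_iff_norm_tendsto_zero]
      have h1 : Tendsto (fun s : ℝ => Real.exp (-ε * s) * ‖x‖) atTop (𝓝 0) := by
        have h2 : Tendsto (fun s : ℝ => -ε * s) atTop atBot :=
          tendsto_id.const_mul_atTop_of_neg (by linarith)
        have := (Real.tendsto_exp_atBot.comp h2).mul_const ‖x‖
        rwa [zero_mul] at this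
      refine squeeze_zero (fun _ => norm_nonneg _) (fun s => ?_) h1
      rw [norm_mul, hexp]
      refine mul_le_mul_of_nonneg_left ?_ (Real.exp_pos _).le
      refine (hco _).trans ?_
      rw [W.norm']
    have hfin := integral_Ioi_of_hasDerivAt_of_tendsto' hd
      ((j1.const_mul _).sub (j2.const_mul _)) hlim
    rw [integral_sub (j1.const_mul _) (j2.const_mul _), integral_const_mul, integral_const_mul,
      ← e1, ← e2] at hfin
    rw [W.zero'] at hfin
    simp only [Complex.ofReal_zero, mul_zero, Complex.exp_zero, one_mul, zero_sub] at hfin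
    have h3 : Complex.I * (Complex.I * z * (La W x E ε) j - Complex.I * (T (La W x E ε)) j) =
        Complex.I * (-x j) := by rw [hfin]
    linear_combination h3 + ((T (La W x E ε)) j - z * (La W x E ε) j) * Complex.I_sq
  ext j
  rw [lp.coeFn_sub, Pi.sub_apply, map_smul, lp.coeFn_smul, Pi.smul_apply, lp.coeFn_smul,
    Pi.smul_apply, lp.coeFn_smul, Pi.smul_apply, smul_eq_mul, smul_eq_mul, smul_eq_mul]
  have h4 := key j
  linear_combination Complex.I * h4 - x j * Complex.I_sq

end Pool.Agent.Helper26.Rg
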