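import Pool.Graph.R_seed8.TH369.MU.W3

/-! # A logarithmic integral bound on horizontal lines (Jensen's inequality) -/

set_option autoImplicit false

open MeasureTheory Filter Topology Metric

namespace Pool.Agent.Helper26.Rg

open Pool.Agent.TH369.MU Pool.Agent.TH369.MU.W1 Pool.Agent.TH369.MU.W3

/-- `-log` cut off at `δ` and at `1` -/
noncomputable def nu (δ x : ℝ) : ℝ := max 0 (-Real.log (max x δ))

lemma nu_nonneg (δ x : ℝ) : 0 ≤ nu δ x := le_max_left _ _

lemma nu_cont {δ : ℝ} (hδ : 0 < δ) : Continuous (nu δ) := by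
  unfold nu
  have h1 : Continuous fun x : ℝ => Real.log (max x δ) := by
    refine Continuous.log (by fun_prop) fun x => ?_
    exact (lt_of_lt_of_le hδ (le_max_right _ _)).ne'
  fun_prop

lemma nu_le {δ : ℝ} (hδ : 0 < δ) (hδ1 : δ < 1) (x : ℝ) : nu δ x ≤ -Real.log δ := by
  unfold nu
  refine max_le ?_ ?_
  · have := Real.log_nonpos hδ.le hδ1.le
    linarith
  · exact neg_le_neg (Real.log_le_log hδ (le_max_right _ _))

lemma nu_eq {δ x : ℝ} (hδ : 0 < δ) (hδ1 : δ < 1) (hx : x ≤ δ) : nu δ x = -Real.log δ := by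
  unfold nu
  rw [max_eq_right hx]
  refine max_eq_right ?_
  have := Real.log_nonpos hδ.le hδ1.le
  linarith

lemma log_le_sub {δ x : ℝ} (hx : 0 < x) :
    Real.log x ≤ 2 * Real.sqrt x - nu δ x := by
  have hs : 0 ≤ Real.sqrt x := Real.sqrt_nonneg x
  rcases le_or_gt 1 x with h1 | h1
  · have e : nu δ x = 0 := by
      unfold nu
      refine max_eq_left ?_
      have : 0 ≤ Real.log (max x δ) := Real.log_nonneg (h1.trans (le_max_left _ _))
      linarith
    rw [e, sub_zero]
    have h2 : Real.log x = 2 * Real.log (Real.sqrt x) := by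
      rw [Real.log_sqrt hx.le]
      ring
    rw [h2]
    have h3 := Real.log_le_sub_one_of_pos (Real.sqrt_pos.2 hx)
    linarith
  · have h2 : nu δ x ≤ -Real.log x := by
      unfold nu
      refine max_le ?_ ?_
      · have := Real.log_nonpos hx.le h1.le
        linarith
      · exact neg_le_neg (Real.log_le_log hx (le_max_left _ _))
    linarith

/-- Jensen's inequality -/
theorem jensen_le {u : ℂ → ℂ} {R : ℝ} (hR : 0 < R) (hu : AnalyticOnNhd ℂ u (closedBall 0 R))
    (h0 : u 0 ≠ 0) : Real.log ‖u 0‖ ≤ Real.circleAverage (Real.log ‖u ·‖) 0 R := by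
  have hR' : |R| = R := abs_of_pos hR
  have h1 := AnalyticOnNhd.circleAverage_log_norm (c := 0) (R := R) (f := u) hR.ne'
    (by rw [hR']; exact hu) h0
  rw [h1]
  have h2 : 0 ≤ ∑ᶠ x, (MeromorphicOn.divisor u (closedBall 0 |R|) x : ℝ) *
      Real.log (R * ‖(0 : ℂ) - x‖⁻¹) := by
    refine finsum_nonneg fun x => ?_
    by_cases hx : x ∈ closedBall (0 : ℂ) |R|
    · refine mul_nonneg ?_ ?_
      · have h3 : 0 ≤ MeromorphicOn.divisor u (closedBall 0 |R|) := by
          apply MeromorphicOn.AnalyticOnNhd.divisor_nonneg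
          rw [hR']
          exact hu
        exact_mod_cast h3 x
      · rw [zero_sub, norm_neg]
        rw [mem_closedBall, dist_zero_right, hR'] at hx
        rcases eq_or_lt_of_le (norm_nonneg x) with h0 | h0
        · rw [← h0]
          simp
        · apply Real.log_nonneg
          rw [← div_eq_mul_inv, one_le_div h0]
          exact hx
    · rw [Function.locallyFinsuppWithin.apply_eq_zero_of_notMem _ hx]
      simp
  linarith

theorem circ_nu {u G : ℂ → ℂ} {R δ : ℝ} (hR : 0 < R) (hδ : 0 < δ) (hδ1 : δ < 1)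
    (hu : AnalyticOnNhd ℂ u (closedBall 0 R)) (h0 : u 0 ≠ 0)
    (hG : ∀ x ∈ closedBall (0 : ℂ) R, DifferentiableAt ℂ G x)
    (hle : ∀ x ∈ closedBall (0 : ℂ) R, Real.sqrt ‖u x‖ ≤ (G x).re) :
    Real.circleAverage (fun x => nu δ ‖u x‖) 0 R ≤ 2 * (G 0).re - Real.log ‖u 0‖ := by
  have hR' : |R| = R := abs_of_pos hR
  have hsub : sphere (0 : ℂ) |R| ⊆ closedBall 0 R := by
    rw [hR']
    exact sphere_subset_closedBall
  set f₂ : ℂ → ℝ := fun x => if u x = 0 then Real.log δ else Real.log ‖u x‖ with hf₂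
  have hcod : (Real.log ‖u ·‖) =ᶠ[codiscreteWithin (sphere (0 : ℂ) |R|)] f₂ := by
    have h1 := hu.preimage_zero_mem_codiscreteWithin h0 (mem_closedBall_self hR.le)
      ⟨⟨0, mem_closedBall_self hR.le⟩, (convex_closedBall (0 : ℂ) R).isPreconnected⟩
    have h2 := Filter.codiscreteWithin_mono hsub h1
    filter_upwards [h2] with x hx
    have hx' : u x ≠ 0 := hx
    simp only [hf₂]
    rw [if_neg hx']
  have hi1 : CircleIntegrable (Real.log ‖u ·‖) 0 R :=
    (hu.mono hsub).meromorphicOn.circleIntegrable_log_norm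
  have hi2 : CircleIntegrable f₂ 0 R := hi1.congr_codiscreteWithin hcod
  have hcu : ContinuousOn u (closedBall 0 R) := hu.continuousOn
  have hcG : ContinuousOn G (closedBall 0 R) := fun x hx =>
    (hG x hx).continuousAt.continuousWithinAt
  have hsub' : sphere (0 : ℂ) R ⊆ closedBall 0 R := sphere_subset_closedBall
  have hi3 : CircleIntegrable (fun x => nu δ ‖u x‖) 0 R := by
    apply ContinuousOn.circleIntegrable hR.le
    exact (nu_cont hδ).comp_continuousOn (hcu.mono hsub').norm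
  have hi4 : CircleIntegrable (fun x => 2 * (G x).re) 0 R := by
    apply ContinuousOn.circleIntegrable hR.le
    exact continuousOn_const.mul (Complex.continuous_re.comp_continuousOn (hcG.mono hsub'))
  have hmono : Real.circleAverage f₂ 0 R ≤
      Real.circleAverage (fun x => 2 * (G x).re - nu δ ‖u x‖) 0 R := by
    refine Real.circleAverage_mono hi2 (hi4.sub hi3) fun x hx => ?_
    simp only [hf₂]
    have hxb := hsub hx
    by_cases h : u x = 0
    · rw [if_pos h, h, norm_zero, nu_eq hδ hδ1 hδ.le]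
      have := (Real.sqrt_nonneg _).trans (hle x hxb)
      linarith
    · rw [if_neg h]
      have h1 := log_le_sub (δ := δ) (norm_pos_iff.2 h)
      have h2 := hle x hxb
      linarith
  have hmean : Real.circleAverage (fun x => 2 * (G x).re) 0 R = 2 * (G 0).re := by
    have hd : DiffContOnCl ℂ G (ball 0 |R|) := by
      rw [hR']
      apply DifferentiableOn.diffContOnCl
      rw [closure_ball _ hR.ne']
      exact fun x hx => (hG x hx).differentiableWithinAt
    have h1 := hd.circleAverage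
    rw [Real.circleAverage_def] at h1 ⊢
    have hcc : Continuous fun θ : ℝ => G (circleMap 0 R θ) := by
      have h2 : ContinuousOn G (sphere 0 R) := hcG.mono hsub'
      exact h2.comp_continuous (continuous_circleMap 0 R) fun θ =>
        circleMap_mem_sphere 0 hR.le θ
    have h3 := Complex.reCLM.intervalIntegral_comp_comm
      (hcc.intervalIntegrable (μ := volume) 0 (2 * Real.pi))
    simp only [Complex.reCLM_apply] at h3
    have h4 := congrArg Complex.re h1
    rw [Complex.smul_re] at h4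
    rw [intervalIntegral.integral_const_mul, h3, ← h4, smul_eq_mul, smul_eq_mul]
    ring
  have hsplit : Real.circleAverage (fun x => 2 * (G x).re - nu δ ‖u x‖) 0 R =
      2 * (G 0).re - Real.circleAverage (fun x => nu δ ‖u x‖) 0 R := by
    rw [← hmean]
    exact Real.circleAverage_sub hi4 hi3
  have h5 := jensen_le hR hu h0
  rw [Real.circleAverage_congr_codiscreteWithin hcod hR.ne'] at h5
  linarith

/-- radii tending to `1` -/
noncomputable def rn (n : ℕ) : ℝ := 1 - 1 / ((n : ℝ) + 2)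

lemma rn_pos (n : ℕ) : 0 < rn n := by
  unfold rn
  have h1 : (0 : ℝ) < (n : ℝ) + 2 := by positivity
  rw [sub_pos, div_lt_one h1]
  have : (0 : ℝ) ≤ n := Nat.cast_nonneg n
  linarith

lemma rn_lt (n : ℕ) : rn n < 1 := by
  unfold rn
  have : (0 : ℝ) < 1 / ((n : ℝ) + 2) := by positivity
  linarith

lemma rn_tendsto : Tendsto rn atTop (𝓝 1) := by
  have h1 : Tendsto (fun n : ℕ => 1 / ((n : ℝ) + 2)) atTop (𝓝 0) := by
    have h2 : Tendsto (fun n : ℕ => (n : ℝ) + 2) atTop atTop :=
      tendsto_atTop_add_const_right _ _ tendsto_natCast_atTop_atTop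
    have h3 := h2.inv_tendsto_atTop
    refine h3.congr fun n => ?_
    rw [Pi.inv_apply, one_div]
  have h4 := h1.const_sub 1
  rw [sub_zero] at h4
  exact h4

theorem circle_nu {h g : ℂ → ℂ} (hd : ∀ z : ℂ, 0 < z.im → DifferentiableAt ℂ h z)
    (gd : ∀ z : ℂ, 0 < z.im → DifferentiableAt ℂ g z)
    (hle : ∀ z : ℂ, 0 < z.im → Real.sqrt ‖h z‖ ≤ (g z).re) {ε δ : ℝ} (hε : 0 < ε) (hδ : 0 < δ)
    (hδ1 : δ < 1) (h0 : h (((1 + ε : ℝ) : ℂ) * Complex.I) ≠ 0) :
    ∫ θ in Set.Ioo (0 : ℝ) (2 * Real.pi), nu δ ‖h ((par θ : ℝ) + (ε : ℂ) * Complex.I)‖ ≤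
      2 * Real.pi * (2 * (g (((1 + ε : ℝ) : ℂ) * Complex.I)).re -
        Real.log ‖h (((1 + ε : ℝ) : ℂ) * Complex.I)‖) := by
  have hpi : 0 < 2 * Real.pi := by positivity
  set u : ℂ → ℂ := fun w => h (phi ε w) with hu
  set G : ℂ → ℂ := fun w => g (phi ε w) with hGd
  have hud : ∀ w : ℂ, ‖w‖ ≤ 1 → w ≠ 1 → DifferentiableAt ℂ u w := fun w hw hw1 =>
    (hd _ (phi_im_pos hε hw)).comp w (phi_diff ε hw1)
  have hGdd : ∀ w : ℂ, ‖w‖ ≤ 1 → w ≠ 1 → DifferentiableAt ℂ G w := fun w hw hw1 =>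
    (gd _ (phi_im_pos hε hw)).comp w (phi_diff ε hw1)
  have hphi0 : phi ε 0 = ((1 + ε : ℝ) : ℂ) * Complex.I := by
    unfold phi
    push_cast
    ring
  have ne1 : ∀ (r : ℝ) (w : ℂ), r < 1 → ‖w‖ ≤ r → w ≠ 1 := by
    rintro r w hr hw rfl
    rw [norm_one] at hw
    linarith
  have hb : ∀ n, Real.circleAverage (fun x => nu δ ‖u x‖) 0 (rn n) ≤
      2 * (G 0).re - Real.log ‖u 0‖ := by
    intro n
    refine circ_nu (rn_pos n) hδ hδ1 ?_ ?_ ?_ ?_
    · -- analytic on a neighbourhood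
      have hopen : IsOpen (ball (0 : ℂ) 1) := isOpen_ball
      have hdo : DifferentiableOn ℂ u (ball (0 : ℂ) 1) := by
        intro w hw
        rw [mem_ball, dist_zero_right] at hw
        exact (hud w hw.le (by rintro rfl; rw [norm_one] at hw; linarith)).differentiableWithinAt
      have := hdo.analyticOnNhd hopen
      refine this.mono fun w hw => ?_
      rw [mem_closedBall, dist_zero_right] at hw
      rw [mem_ball, dist_zero_right]
      exact lt_of_le_of_lt hw (rn_lt n)
    · show h (phi ε 0) ≠ 0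
      rw [hphi0]
      exact h0
    · intro w hw
      rw [mem_closedBall, dist_zero_right] at hw
      exact hGdd w (hw.trans (rn_lt n).le) (ne1 _ _ (rn_lt n) hw)
    · intro w hw
      rw [mem_closedBall, dist_zero_right] at hw
      exact hle _ (phi_im_pos hε (hw.trans (rn_lt n).le))
  have hlim : Tendsto (fun n => ∫ θ in Set.Ioo (0 : ℝ) (2 * Real.pi),
      nu δ ‖u (circleMap 0 (rn n) θ)‖) atTop (𝓝 (∫ θ in Set.Ioo (0 : ℝ) (2 * Real.pi),
        nu δ ‖h ((par θ : ℝ) + (ε : ℂ) * Complex.I)‖)) := by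
    refine tendsto_integral_of_dominated_convergence (fun _ => -Real.log δ) ?_ ?_ ?_ ?_
    · intro n
      apply Continuous.aestronglyMeasurable
      refine (nu_cont hδ).comp (Continuous.norm ?_)
      rw [continuous_iff_continuousAt]
      intro θ
      have h4 : ‖circleMap 0 (rn n) θ‖ = rn n := by
        rw [norm_circleMap_zero, abs_of_pos (rn_pos n)]
      exact ((hud _ (by rw [h4]; exact (rn_lt n).le)
        (ne1 _ _ (rn_lt n) h4.le)).continuousAt).comp (continuous_circleMap 0 (rn n)).continuousAt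
    · exact integrable_const _
    · intro n
      refine Eventually.of_forall fun θ => ?_
      rw [Real.norm_of_nonneg (nu_nonneg _ _)]
      exact nu_le hδ hδ1 _
    · rw [ae_restrict_iff' measurableSet_Ioo]
      refine Eventually.of_forall fun θ hθ => ?_
      obtain ⟨h1, h2⟩ := phi_circle ε θ hθ.1 hθ.2
      have h3 : ContinuousAt u (circleMap 0 1 θ) :=
        (hud _ (by rw [norm_circleMap_zero, abs_one]) h1).continuousAt
      have h4 : Tendsto (fun n => circleMap 0 (rn n) θ) atTop (𝓝 (circleMap 0 1 θ)) := by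
        have h5 : Continuous fun s : ℝ => circleMap 0 s θ := by
          unfold circleMap
          fun_prop
        exact (h5.tendsto 1).comp rn_tendsto
      have h6 := h3.tendsto.comp h4
      have h7 : u (circleMap 0 1 θ) = h ((par θ : ℝ) + (ε : ℂ) * Complex.I) := by
        show h (phi ε (circleMap 0 1 θ)) = _
        rw [h2]
        rfl
      rw [h7] at h6
      exact (((nu_cont hδ).tendsto _).comp h6.norm)
  have hav : ∀ n, ∫ θ in Set.Ioo (0 : ℝ) (2 * Real.pi), nu δ ‖u (circleMap 0 (rn n) θ)‖ ≤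
      2 * Real.pi * (2 * (G 0).re - Real.log ‖u 0‖) := by
    intro n
    have h1 := hb n
    rw [Real.circleAverage_def, intervalIntegral.integral_of_le hpi.le,
      integral_Ioc_eq_integral_Ioo, smul_eq_mul] at h1
    have h2 := mul_le_mul_of_nonneg_left h1 hpi.le
    rwa [← mul_assoc, mul_inv_cancel₀ hpi.ne', one_mul] at h2
  have h1 := le_of_tendsto' hlim hav
  have h2 : G 0 = g (((1 + ε : ℝ) : ℂ) * Complex.I) := by
    show g (phi ε 0) = _
    rw [hphi0]
  have h3 : u 0 = h (((1 + ε : ℝ) : ℂ) * Complex.I) := by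
    show h (phi ε 0) = _
    rw [hphi0]
  rw [h2, h3] at h1
  exact h1

lemma par_arctan (E : ℝ) : par (2 * Real.arctan E + Real.pi) = E := by
  unfold par
  have e : (2 * Real.arctan E + Real.pi) / 2 = Real.arctan E + Real.pi / 2 := by ring
  rw [e, Real.cot_eq_cos_div_sin, Real.cos_add_pi_div_two, Real.sin_add_pi_div_two, neg_div,
    neg_neg, ← Real.tan_eq_sin_div_cos, Real.tan_arctan]

/-- change of variables -/
theorem cov_par (F : ℝ → ℝ) : ∫ θ in Set.Ioo (0 : ℝ) (2 * Real.pi), F (par θ) =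
    ∫ E : ℝ, (2 / (1 + E ^ 2)) * F E := by
  have himg : (fun E : ℝ => 2 * Real.arctan E + Real.pi) '' Set.univ =
      Set.Ioo (0 : ℝ) (2 * Real.pi) := by
    ext θ
    simp only [Set.image_univ, Set.mem_range, Set.mem_Ioo]
    constructor
    · rintro ⟨E, rfl⟩
      constructor
      · linarith [Real.neg_pi_div_two_lt_arctan E]
      · linarith [Real.arctan_lt_pi_div_two E]
    · rintro ⟨h1, h2⟩
      refine ⟨Real.tan ((θ - Real.pi) / 2), ?_⟩
      rw [Real.arctan_tan (by linarith) (by linarith)]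
      ring
  have hder : ∀ E ∈ (Set.univ : Set ℝ), HasDerivWithinAt
      (fun E : ℝ => 2 * Real.arctan E + Real.pi) (2 / (1 + E ^ 2)) Set.univ E := by
    intro E _
    have h1 := ((Real.hasDerivAt_arctan E).const_mul 2).add_const Real.pi
    have h2 : 2 * (1 / (1 + E ^ 2)) = 2 / (1 + E ^ 2) := by ring
    rw [h2] at h1
    exact h1.hasDerivWithinAt
  have hinj : Set.InjOn (fun E : ℝ => 2 * Real.arctan E + Real.pi) Set.univ := by
    intro a _ b _ hab
    simp only at hab
    exact Real.arctan_injective (by linarith)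
  have h1 := integral_image_eq_integral_abs_deriv_smul MeasurableSet.univ hder hinj
    (fun θ => F (par θ))
  rw [himg] at h1
  rw [h1, setIntegral_univ]
  refine integral_congr_ae (Eventually.of_forall fun E => ?_)
  simp only
  rw [par_arctan, smul_eq_mul, abs_of_nonneg (by positivity)]

theorem line_nu {h g : ℂ → ℂ} (hd : ∀ z : ℂ, 0 < z.im → DifferentiableAt ℂ h z)
    (gd : ∀ z : ℂ, 0 < z.im → DifferentiableAt ℂ g z)
    (hle : ∀ z : ℂ, 0 < z.im → Real.sqrt ‖h z‖ ≤ (g z).re) {ε δ : ℝ} (hε : 0 < ε) (hδ : 0 < δ)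
    (hδ1 : δ < 1) (h0 : h (((1 + ε : ℝ) : ℂ) * Complex.I) ≠ 0) :
    ∫ E : ℝ, (2 / (1 + E ^ 2)) * nu δ ‖h ((E : ℂ) + (ε : ℂ) * Complex.I)‖ ≤
      2 * Real.pi * (2 * (g (((1 + ε : ℝ) : ℂ) * Complex.I)).re -
        Real.log ‖h (((1 + ε : ℝ) : ℂ) * Complex.I)‖) := by
  have h1 := circle_nu hd gd hle hε hδ hδ1 h0
  rwa [cov_par (fun E => nu δ ‖h ((E : ℂ) + (ε : ℂ) * Complex.I)‖)] at h1

lemma cont_line {h : ℂ → ℂ} (hd : ∀ z : ℂ, 0 < z.im → DifferentiableAt ℂ h z) {ε : ℝ}
    (hε : 0 < ε) : Continuous fun E : ℝ => h ((E : ℂ) + (ε : ℂ) * Complex.I) := by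
  rw [continuous_iff_continuousAt]
  intro E
  have h1 : 0 < ((E : ℂ) + (ε : ℂ) * Complex.I).im := by simpa using hε
  have h2 : Continuous fun E : ℝ => ((E : ℂ) + (ε : ℂ) * Complex.I) := by fun_prop
  exact ContinuousAt.comp (f := fun E : ℝ => ((E : ℂ) + (ε : ℂ) * Complex.I)) (g := h)
    (hd _ h1).continuousAt h2.continuousAt

theorem sep {h g : ℂ → ℂ} (hd : ∀ z : ℂ, 0 < z.im → DifferentiableAt ℂ h z)
    (gd : ∀ z : ℂ, 0 < z.im → DifferentiableAt ℂ g z)
    (hle : ∀ z : ℂ, 0 < z.im → Real.sqrt ‖h z‖ ≤ (g z).re) {y₀ : ℝ} (hy : 0 < y₀)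
    (h0 : h ((y₀ : ℂ) * Complex.I) ≠ 0) {eps : ℕ → ℝ} (heps : ∀ k, 0 < eps k)
    (hlim : Tendsto eps atTop (𝓝 0)) {L η : ℝ} (hη : 0 < η) :
    ∃ δ : ℝ, 0 < δ ∧ ∀ᶠ k in atTop,
      volume {E : ℝ | E ∈ Set.Icc (-L) L ∧ ‖h ((E : ℂ) + (eps k : ℂ) * Complex.I)‖ < δ} ≤
        ENNReal.ofReal η := by
  -- the right hand sides are bounded
  set z : ℕ → ℂ := fun k => ((y₀ + eps k : ℝ) : ℂ) * Complex.I with hz
  have hzl : Tendsto z atTop (𝓝 ((y₀ : ℂ) * Complex.I)) := by
    have h1 : Tendsto (fun k => y₀ + eps k) atTop (𝓝 y₀) := by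
      simpa using hlim.const_add y₀
    exact ((Complex.continuous_ofReal.tendsto _).comp h1).mul_const _
  have him : 0 < ((y₀ : ℂ) * Complex.I).im := by simpa using hy
  have hhl := ((hd _ him).continuousAt.tendsto).comp hzl
  have hgl := ((gd _ him).continuousAt.tendsto).comp hzl
  have hC : Tendsto (fun k => 2 * Real.pi * (2 * (g (z k)).re - Real.log ‖h (z k)‖)) atTop
      (𝓝 (2 * Real.pi * (2 * (g ((y₀ : ℂ) * Complex.I)).re -
        Real.log ‖h ((y₀ : ℂ) * Complex.I)‖))) := by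
    refine Tendsto.const_mul _ (Tendsto.sub (Tendsto.const_mul _ ?_) ?_)
    · exact (Complex.continuous_re.tendsto _).comp hgl
    · exact (Real.continuousAt_log (norm_ne_zero_iff.2 h0)).tendsto.comp hhl.norm
  obtain ⟨C, hCpos, hCe⟩ : ∃ C : ℝ, 0 < C ∧ ∀ᶠ k in atTop,
      2 * Real.pi * (2 * (g (z k)).re - Real.log ‖h (z k)‖) ≤ C := by
    refine ⟨|2 * Real.pi * (2 * (g ((y₀ : ℂ) * Complex.I)).re -
        Real.log ‖h ((y₀ : ℂ) * Complex.I)‖)| + 1, by positivity, ?_⟩
    have h1 := hC.eventually_le_const (u := |2 * Real.pi * (2 * (g ((y₀ : ℂ) * Complex.I)).re -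
        Real.log ‖h ((y₀ : ℂ) * Complex.I)‖)| + 1) (by
          have := le_abs_self (2 * Real.pi * (2 * (g ((y₀ : ℂ) * Complex.I)).re -
            Real.log ‖h ((y₀ : ℂ) * Complex.I)‖))
          linarith)
    exact h1
  have hne : ∀ᶠ k in atTop, h (z k) ≠ 0 := hhl.eventually_ne h0
  set c : ℝ := 2 / (1 + (L / y₀) ^ 2) with hc
  have hcpos : 0 < c := by positivity
  set lam : ℝ := y₀ * C / (c * η) + 1 with hlam
  have hlam1 : 0 < lam := by positivity
  set δ : ℝ := Real.exp (-lam) with hδd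
  have hδ : 0 < δ := Real.exp_pos _
  have hδ1 : δ < 1 := by
    rw [hδd, Real.exp_lt_one_iff]
    linarith
  have hlogδ : -Real.log δ = lam := by
    rw [hδd, Real.log_exp, neg_neg]
  refine ⟨δ, hδ, ?_⟩
  filter_upwards [hCe, hne] with k hk1 hk2
  -- scaling
  have hy0 : (y₀ : ℂ) ≠ 0 := by exact_mod_cast hy.ne'
  have hzk : z k = (y₀ : ℂ) * ((((1 + eps k / y₀ : ℝ) : ℂ)) * Complex.I) := by
    simp only [hz]
    rw [← mul_assoc, ← Complex.ofReal_mul]
    congr 2
    field_simp
  have hk2' : h ((y₀ : ℂ) * ((((1 + eps k / y₀ : ℝ) : ℂ)) * Complex.I)) ≠ 0 := by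
    rw [← hzk]
    exact hk2
  have hd' : ∀ w : ℂ, 0 < w.im → DifferentiableAt ℂ (fun w => h ((y₀ : ℂ) * w)) w := by
    intro w hw
    have h1 : 0 < ((y₀ : ℂ) * w).im := by
      rw [Complex.im_ofReal_mul]; positivity
    exact (hd _ h1).comp w ((differentiableAt_id).const_mul _)
  have gd' : ∀ w : ℂ, 0 < w.im → DifferentiableAt ℂ (fun w => g ((y₀ : ℂ) * w)) w := by
    intro w hw
    have h1 : 0 < ((y₀ : ℂ) * w).im := by
      rw [Complex.im_ofReal_mul]; positivity
    exact (gd _ h1).comp w ((differentiableAt_id).const_mul _)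
  have hl := line_nu (h := fun w => h ((y₀ : ℂ) * w)) (g := fun w => g ((y₀ : ℂ) * w)) hd' gd'
    (fun w hw => hle _ (by rw [Complex.im_ofReal_mul]; positivity))
    (ε := eps k / y₀) (div_pos (heps k) hy) hδ hδ1 hk2'
  simp only [← hzk] at hl
  have hl2 := hl.trans hk1
  set f : ℝ → ℝ := fun E => (2 / (1 + (E / y₀) ^ 2)) *
    nu δ ‖h ((E : ℂ) + (eps k : ℂ) * Complex.I)‖ with hf
  have e1 : ∀ E : ℝ, (2 / (1 + E ^ 2)) *
      nu δ ‖h ((y₀ : ℂ) * ((E : ℂ) + ((eps k / y₀ : ℝ) : ℂ) * Complex.I))‖ = f (y₀ * E) := by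
    intro E
    simp only [hf]
    rw [mul_div_cancel_left₀ E hy.ne']
    congr 4
    push_cast
    field_simp
  simp only [e1] at hl2
  rw [Measure.integral_comp_mul_left f y₀, smul_eq_mul, abs_of_pos (inv_pos.2 hy)] at hl2
  have hl3 : ∫ E, f E ≤ y₀ * C := by
    have := mul_le_mul_of_nonneg_left hl2 hy.le
    rwa [← mul_assoc, mul_inv_cancel₀ hy.ne', one_mul] at this
  have hhc : Continuous fun E : ℝ => h ((E : ℂ) + (eps k : ℂ) * Complex.I) :=
    cont_line hd (heps k)
  have hfc : Continuous f := by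
    have h1 : Continuous fun E : ℝ => nu δ ‖h ((E : ℂ) + (eps k : ℂ) * Complex.I)‖ :=
      (nu_cont hδ).comp hhc.norm
    have h2 : Continuous fun E : ℝ => 2 / (1 + (E / y₀) ^ 2) := by
      refine Continuous.div (by fun_prop) (by fun_prop) fun E => ?_
      positivity
    exact h2.mul h1
  have hf0 : ∀ E, 0 ≤ f E := fun E => mul_nonneg (by positivity) (nu_nonneg _ _)
  have hfi : Integrable f := by
    have h1 : Integrable (fun E : ℝ => (1 + (E / y₀) ^ 2)⁻¹) := by
      have h2 := (integrable_inv_one_add_sq).comp_div hy.ne'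
      exact h2
    refine Integrable.mono' (h1.const_mul (2 * lam)) hfc.aestronglyMeasurable
      (Eventually.of_forall fun E => ?_)
    rw [Real.norm_of_nonneg (hf0 E)]
    simp only [hf]
    have h3 := nu_le hδ hδ1 ‖h ((E : ℂ) + (eps k : ℂ) * Complex.I)‖
    rw [hlogδ] at h3
    have h4 : (0 : ℝ) ≤ 2 / (1 + (E / y₀) ^ 2) := by positivity
    calc _ ≤ 2 / (1 + (E / y₀) ^ 2) * lam := mul_le_mul_of_nonneg_left h3 h4
      _ = _ := by ring
  set A : Set ℝ := {E : ℝ | E ∈ Set.Icc (-L) L ∧ ‖h ((E : ℂ) + (eps k : ℂ) * Complex.I)‖ < δ}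
    with hA
  have hAm : MeasurableSet A :=
    measurableSet_Icc.inter (isOpen_lt hhc.norm continuous_const).measurableSet
  have hAfin : volume A ≠ ⊤ := by
    refine ne_top_of_le_ne_top ?_ (measure_mono (fun E hE => hE.1 : A ⊆ Set.Icc (-L) L))
    rw [Real.volume_Icc]
    exact ENNReal.ofReal_ne_top
  have hAf : c * lam * volume.real A ≤ ∫ E in A, f E := by
    have h1 : ∫ E in A, c * lam ≤ ∫ E in A, f E := by
      refine setIntegral_mono_on (integrableOn_const hAfin) hfi.integrableOn hAm fun E hE => ?_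
      simp only [hf]
      rw [nu_eq hδ hδ1 hE.2.le, hlogδ]
      refine mul_le_mul_of_nonneg_right ?_ hlam1.le
      rw [hc]
      refine div_le_div_of_nonneg_left (by norm_num) (by positivity) ?_
      have h5 : (E / y₀) ^ 2 ≤ (L / y₀) ^ 2 := by
        rw [div_pow, div_pow]
        refine div_le_div_of_nonneg_right ?_ (by positivity)
        have h6 : |E| ≤ L := abs_le.2 hE.1
        calc E ^ 2 = |E| ^ 2 := (sq_abs E).symm
          _ ≤ L ^ 2 := pow_le_pow_left₀ (abs_nonneg _) h6 2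
      linarith
    rw [setIntegral_const, smul_eq_mul] at h1
    linarith [h1]
  have hAf2 : ∫ E in A, f E ≤ ∫ E, f E :=
    setIntegral_le_integral hfi (Eventually.of_forall hf0)
  have hfin : volume.real A ≤ η := by
    have h1 : c * lam * volume.real A ≤ y₀ * C := hAf.trans (hAf2.trans hl3)
    have h2 : y₀ * C ≤ c * lam * η := by
      rw [hlam]
      have h3 : c * (y₀ * C / (c * η) + 1) * η = y₀ * C + c * η := by
        field_simp
      rw [h3]
      have : 0 < c * η := by positivity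
      linarith
    have h3 : 0 < c * lam := by positivity
    exact le_of_mul_le_mul_left (h1.trans h2) h3
  rw [← ENNReal.ofReal_toReal hAfin]
  exact ENNReal.ofReal_le_ofReal hfin

end Pool.Agent.Helper26.Rg
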