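import Pool.Agent.Helper26.Rg.Res
import Pool.Agent.Helper26.Rg.Jen
import Pool.Graph.R_seed8.TH369.MU.W2

/-! # Separation of the two Weyl functions -/

set_option autoImplicit false

open MeasureTheory Filter Topology
open scoped ENNReal NNReal ComplexConjugate InnerProductSpace

namespace Pool.Agent.Helper26.Rg

open Pool.Agent.TH369.AN Pool.Agent.TH369.MU

variable {X : Type} [NormedAddCommGroup X] [InnerProductSpace ℂ X] [CompleteSpace X]

/-- `i (n + 1)` -/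
noncomputable def zn (n : ℕ) : ℂ := (((n : ℝ) + 1 : ℝ) : ℂ) * Complex.I

lemma zn_im (n : ℕ) : (zn n).im = (n : ℝ) + 1 := by
  unfold zn
  rw [Complex.mul_im]
  simp

lemma zn_im_ne (n : ℕ) : (zn n).im ≠ 0 := by
  rw [zn_im]
  positivity

lemma zn_ne (n : ℕ) : zn n ≠ 0 := by
  intro h
  apply zn_im_ne n
  rw [h, Complex.zero_im]

lemma zn_norm (n : ℕ) : ‖zn n‖ = (n : ℝ) + 1 := by
  unfold zn
  rw [norm_mul, Complex.norm_I, mul_one, Complex.norm_real, Real.norm_of_nonneg (by positivity)]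

lemma zn_inv : Tendsto (fun n : ℕ => (zn n)⁻¹) atTop (𝓝 0) := by
  rw [tendsto_zero_iff_norm_tendsto_zero]
  refine (tendsto_one_div_add_atTop_nhds_zero_nat (𝕜 := ℝ)).congr fun n => ?_
  rw [norm_inv, zn_norm, one_div]

lemma rz_lim0 {S : X →L[ℂ] X} (hS : IsSelfAdjoint S) (q : X) :
    Tendsto (fun n : ℕ => Rz S (zn n) q) atTop (𝓝 0) := by
  rw [tendsto_zero_iff_norm_tendsto_zero]
  have h1 : Tendsto (fun n : ℕ => ‖q‖ * (1 / ((n : ℝ) + 1))) atTop (𝓝 0) := by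
    have := (tendsto_one_div_add_atTop_nhds_zero_nat (𝕜 := ℝ)).const_mul ‖q‖
    rwa [mul_zero] at this
  refine squeeze_zero (fun _ => norm_nonneg _) (fun n => ?_) h1
  have h2 := rz_norm S hS (zn n) (zn_im_ne n) q
  rw [zn_im, abs_of_pos (by positivity)] at h2
  rw [mul_one_div]
  exact h2

lemma asym0 {S : X →L[ℂ] X} (hS : IsSelfAdjoint S) (q : X) :
    Tendsto (fun n : ℕ => ⟪q, Rz S (zn n) q⟫_ℂ) atTop (𝓝 0) := by
  have h := ((innerSL ℂ q).continuous.tendsto 0).comp (rz_lim0 hS q)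
  rw [map_zero] at h
  exact h

lemma asym1 {S : X →L[ℂ] X} (hS : IsSelfAdjoint S) (q : X) :
    Tendsto (fun n : ℕ => zn n * ⟪q, Rz S (zn n) q⟫_ℂ) atTop (𝓝 (-(((‖q‖ ^ 2 : ℝ)) : ℂ))) := by
  have h := (((innerSL ℂ q).comp S).continuous.tendsto 0).comp (rz_lim0 hS q)
  rw [map_zero] at h
  have h2 := h.sub_const ⟪q, q⟫_ℂ
  rw [zero_sub, inner_self_eq_norm_sq_to_K] at h2
  have e1 : (-(((‖q‖ ^ 2 : ℝ)) : ℂ)) = -((‖q‖ : ℝ) : ℂ) ^ 2 := by push_cast; rfl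
  rw [e1]
  refine h2.congr fun n => ?_
  have h3 := rz_eq S hS (zn n) (zn_im_ne n) q
  have h4 : zn n • Rz S (zn n) q = S (Rz S (zn n) q) - q := by
    nth_rewrite 3 [← h3]
    abel
  rw [← inner_smul_right, h4, inner_sub_right, inner_self_eq_norm_sq_to_K]
  rfl

variable {T T' : X →L[ℂ] X} {e : X}

theorem nondeg (hT : IsSelfAdjoint T) (hT' : IsSelfAdjoint T') (he : ‖e‖ = 1) (a : ℝ)
    (h : a ≠ 1 ∨ ⟪e, T' e⟫_ℂ ≠ ⟪e, T e⟫_ℂ ∨
      ‖(1 - ro e : X →L[ℂ] X) (T' e)‖ ≠ ‖(1 - ro e : X →L[ℂ] X) (T e)‖) :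
    ∃ y₀ : ℝ, 0 < y₀ ∧ wf T' e ((y₀ : ℂ) * Complex.I) ≠ a * wf T e ((y₀ : ℂ) * Complex.I) := by
  by_contra hcon
  push Not at hcon
  have key : ∀ n : ℕ, wf T' e (zn n) = a * wf T e (zn n) := fun n =>
    hcon ((n : ℝ) + 1) (by positivity)
  set q : X := (1 - ro e : X →L[ℂ] X) (T e) with hq
  set q' : X := (1 - ro e : X →L[ℂ] X) (T' e) with hq'
  have hc := cp_sa T hT e
  have hc' := cp_sa T' hT' e
  have s1 : ∀ n, wf T e (zn n) = zn n - ⟪e, T e⟫_ℂ + ⟪q, Rz (cp T e) (zn n) q⟫_ℂ := fun n =>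
    schur hT he (zn_im_ne n)
  have s2 : ∀ n, wf T' e (zn n) = zn n - ⟪e, T' e⟫_ℂ + ⟪q', Rz (cp T' e) (zn n) q'⟫_ℂ := fun n =>
    schur hT' he (zn_im_ne n)
  have a1 := asym0 hc q
  have a2 := asym0 hc' q'
  -- `a = 1`
  have ha : a = 1 := by
    have b1 : Tendsto (fun n => (zn n)⁻¹ * (zn n - ⟪e, T e⟫_ℂ + ⟪q, Rz (cp T e) (zn n) q⟫_ℂ))
        atTop (𝓝 1) := by
      have h1 := ((zn_inv.mul_const ⟪e, T e⟫_ℂ).const_sub 1).add (zn_inv.mul a1)
      rw [zero_mul, zero_mul, sub_zero, add_zero] at h1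
      refine h1.congr fun n => ?_
      have := zn_ne n
      field_simp
    have b2 : Tendsto (fun n => (zn n)⁻¹ * (zn n - ⟪e, T' e⟫_ℂ +
        ⟪q', Rz (cp T' e) (zn n) q'⟫_ℂ)) atTop (𝓝 1) := by
      have h1 := ((zn_inv.mul_const ⟪e, T' e⟫_ℂ).const_sub 1).add (zn_inv.mul a2)
      rw [zero_mul, zero_mul, sub_zero, add_zero] at h1
      refine h1.congr fun n => ?_
      have := zn_ne n
      field_simp
    have b3 := b1.const_mul (a : ℂ)
    have b4 : (1 : ℂ) = (a : ℂ) * 1 := by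
      refine tendsto_nhds_unique b2 (b3.congr fun n => ?_)
      rw [← s1, ← s2, key]
      ring
    rw [mul_one] at b4
    exact_mod_cast b4.symm
  have key2 : ∀ n, -⟪e, T' e⟫_ℂ + ⟪q', Rz (cp T' e) (zn n) q'⟫_ℂ =
      -⟪e, T e⟫_ℂ + ⟪q, Rz (cp T e) (zn n) q⟫_ℂ := by
    intro n
    have := key n
    rw [s1, s2, ha, Complex.ofReal_one, one_mul] at this
    linear_combination this
  have hcc : ⟪e, T' e⟫_ℂ = ⟪e, T e⟫_ℂ := by
    have b1 := a1.const_add (-⟪e, T e⟫_ℂ)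
    have b2 := a2.const_add (-⟪e, T' e⟫_ℂ)
    rw [add_zero] at b1 b2
    have := tendsto_nhds_unique b2 (b1.congr fun n => (key2 n).symm)
    exact neg_injective this
  have hnn : ‖q'‖ = ‖q‖ := by
    have b1 := asym1 hc q
    have b2 := asym1 hc' q'
    have b3 := tendsto_nhds_unique b2 (b1.congr fun n => by
      have := key2 n
      rw [hcc] at this
      rw [add_left_cancel this])
    have b4 : ‖q'‖ ^ 2 = ‖q‖ ^ 2 := by
      have := neg_injective b3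
      exact_mod_cast this
    exact (pow_left_inj₀ (norm_nonneg _) (norm_nonneg _) (by norm_num)).1 b4
  rcases h with h | h | h
  · exact h ha
  · exact h hcc
  · exact h hnn

theorem wf_sep (hT : IsSelfAdjoint T) (hT' : IsSelfAdjoint T') (he : e ≠ 0) {a : ℝ} (ha : a ≠ 0)
    (h : ∃ y₀ : ℝ, 0 < y₀ ∧ wf T' e ((y₀ : ℂ) * Complex.I) ≠ a * wf T e ((y₀ : ℂ) * Complex.I))
    (L : ℝ) {η : ℝ} (hη : 0 < η) :
    ∃ δ : ℝ, 0 < δ ∧ ∀ᶠ k in atTop,
      volume {E : ℝ | E ∈ Set.Icc (-L) L ∧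
        ‖wf T' e (zk E k) / a - wf T e (zk E k)‖ < δ} ≤ ENNReal.ofReal η := by
  obtain ⟨y₀, hy, hne⟩ := h
  have hpos : ∀ (S : X →L[ℂ] X), IsSelfAdjoint S → ∀ z : ℂ, 0 < z.im → 0 < (wf S e z).im := by
    intro S hS z hz
    have h1 := wf_im hS he hz.ne'
    have h2 := wf_ne hS he hz.ne'
    refine lt_of_le_of_ne ?_ (Ne.symm h2)
    rw [h1]
    positivity
  obtain ⟨g1, hg1, hg1'⟩ := root (wf T' e) (fun z hz => diff_wf hT' he hz.ne') (hpos T' hT')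
  obtain ⟨g2, hg2, hg2'⟩ := root (wf T e) (fun z hz => diff_wf hT he hz.ne') (hpos T hT)
  have hac : (a : ℂ) ≠ 0 := by exact_mod_cast ha
  have ha0 : 0 < Real.sqrt |a| := Real.sqrt_pos.2 (abs_pos.2 ha)
  refine sep (h := fun z => wf T' e z / a - wf T e z)
    (g := fun z => ((2 / Real.sqrt |a| : ℝ) : ℂ) * g1 z + 2 * g2 z)
    (fun z hz => ((diff_wf hT' he hz.ne').div_const _).sub (diff_wf hT he hz.ne'))
    (fun z hz => ((hg1 z hz).const_mul _).add ((hg2 z hz).const_mul _)) ?_ hy ?_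
    (eps := ep) (fun k => by unfold ep; positivity)
    (by unfold ep; exact tendsto_one_div_add_atTop_nhds_zero_nat (𝕜 := ℝ)) hη
  · intro z hz
    have h1 := (hg1' z hz).1
    have h2 := (hg2' z hz).1
    have e1 : (((2 / Real.sqrt |a| : ℝ) : ℂ) * g1 z + 2 * g2 z).re =
        2 / Real.sqrt |a| * (g1 z).re + 2 * (g2 z).re := by
      rw [Complex.add_re, Complex.re_ofReal_mul]
      simp
    rw [e1]
    have h3 : Real.sqrt ‖wf T' e z / a - wf T e z‖ ≤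
        Real.sqrt (‖wf T' e z‖ / |a|) + Real.sqrt ‖wf T e z‖ := by
      have h4 : ‖wf T' e z / a - wf T e z‖ ≤ ‖wf T' e z‖ / |a| + ‖wf T e z‖ := by
        refine (norm_sub_le _ _).trans (le_of_eq ?_)
        rw [norm_div, Complex.norm_real, Real.norm_eq_abs]
      refine (Real.sqrt_le_sqrt h4).trans ?_
      rw [Real.sqrt_le_left (by positivity)]
      have p1 : 0 ≤ ‖wf T' e z‖ / |a| := by positivity
      have p2 : 0 ≤ ‖wf T e z‖ := norm_nonneg _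
      have q1 := Real.sq_sqrt p1
      have q2 := Real.sq_sqrt p2
      nlinarith [Real.sqrt_nonneg (‖wf T' e z‖ / |a|), Real.sqrt_nonneg ‖wf T e z‖]
    refine h3.trans ?_
    rw [Real.sqrt_div (norm_nonneg _)]
    refine add_le_add ?_ h2
    rw [div_mul_eq_mul_div]
    gcongr
  · intro h0
    apply hne
    have h1 := sub_eq_zero.1 h0
    rw [div_eq_iff hac] at h1
    rw [h1, mul_comm]

end Pool.Agent.Helper26.Rg
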