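import Pool.Agent.Helper26.Rg.Zee

/-! # Vanishing of the limits: the theorem -/

set_option autoImplicit false

open MeasureTheory Filter Topology
open scoped ENNReal NNReal ComplexConjugate

namespace Pool.Agent.Helper26.Rg

/-- truncated monomials -/
noncomputable def aj (R : ℝ) (j : ℕ) (κ : ℝ) : ℂ := if |κ| ≤ R then (κ : ℂ) ^ j else 0

lemma aj_meas (R : ℝ) (j : ℕ) : Measurable (aj R j) := by
  unfold aj
  refine Measurable.ite ?_ (Complex.measurable_ofReal.pow_const j) measurable_const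
  exact measurableSet_le measurable_norm measurable_const

lemma aj_le (R : ℝ) (j : ℕ) (κ : ℝ) : ‖aj R j κ‖ ≤ |R| ^ j := by
  unfold aj
  split_ifs with h
  · rw [norm_pow, Complex.norm_real, Real.norm_eq_abs]
    exact pow_le_pow_left₀ (abs_nonneg _) (h.trans (le_abs_self _)) j
  · rw [norm_zero]; positivity

section

variable {ρ : Measure ℝ} [IsFiniteMeasure ρ] {C : ℝ≥0} {R M : ℝ} {w w2 n m : ℕ → ℝ → ℂ}
  {b : ℝ → ℂ} {B : ℝ}

omit [IsFiniteMeasure ρ] in
lemma quad0 (hρ : ρ ≤ C • (volume : Measure ℝ)) (h0 : ρ ≠ 0) {c0 c1 c2 : ℂ}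
    (h : ∀ᵐ κ : ℝ ∂ρ, c0 + c1 * κ + c2 * (κ : ℂ) ^ 2 = 0) : c0 = 0 ∧ c1 = 0 ∧ c2 = 0 := by
  set P : Polynomial ℂ := Polynomial.C c0 + Polynomial.C c1 * Polynomial.X +
    Polynomial.C c2 * Polynomial.X ^ 2 with hP
  have hev : ∀ κ : ℝ, P.eval (κ : ℂ) = c0 + c1 * κ + c2 * (κ : ℂ) ^ 2 := by
    intro κ
    rw [hP]
    simp
  have hP0 : P = 0 := by
    by_contra hne
    have hfin : {κ : ℝ | P.eval (κ : ℂ) = 0}.Finite := by
      have h1 : {z : ℂ | P.IsRoot z}.Finite := Polynomial.finite_setOfPred_isRoot hne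
      exact h1.preimage (f := fun κ : ℝ => (κ : ℂ)) (Complex.ofReal_injective.injOn)
    have h2 : volume {κ : ℝ | P.eval (κ : ℂ) = 0} = 0 := hfin.measure_zero _
    have h3 : ρ {κ : ℝ | P.eval (κ : ℂ) = 0} = 0 := by
      have := hρ {κ : ℝ | P.eval (κ : ℂ) = 0}
      rw [Measure.smul_apply, h2, smul_zero] at this
      exact le_antisymm this bot_le
    have h4 : ρ {κ : ℝ | P.eval (κ : ℂ) = 0}ᶜ = 0 := by
      refine measure_mono_null ?_ (ae_iff.1 h)
      intro κ hκ hq
      apply hκ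
      show P.eval (κ : ℂ) = 0
      rw [hev, hq]
    apply h0
    rw [← Measure.measure_univ_eq_zero, ← Set.union_compl_self {κ : ℝ | P.eval (κ : ℂ) = 0}]
    exact measure_union_null h3 h4
  have e0 : P.coeff 0 = c0 := by rw [hP]; simp
  have e1 : P.coeff 1 = c1 := by
    rw [hP]
    simp [Polynomial.coeff_X_pow, Polynomial.coeff_C]
  have e2 : P.coeff 2 = c2 := by
    rw [hP]
    simp
  rw [hP0, Polynomial.coeff_zero] at e0 e1 e2
  exact ⟨e0.symm, e1.symm, e2.symm⟩

lemma alg (hρ : ρ ≤ C • (volume : Measure ℝ)) (hR : ∀ᵐ κ ∂ρ, |κ| ≤ R) (h0 : ρ ≠ 0)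
    {W W2 p m : ℂ} (h1 : W.im ≠ 0) (h2 : W2.im ≠ 0) (hne : W ≠ W2)
    (hj : ∀ j : ℕ, j ≤ 2 → p * Kf ρ (aj R j) W2 (conj W) = m * Kf ρ (aj R j) (conj W2) W) :
    p = 0 := by
  have h1' : (conj W).im ≠ 0 := by rw [Complex.conj_im]; exact neg_ne_zero.2 h1
  have h2' : (conj W2).im ≠ 0 := by rw [Complex.conj_im]; exact neg_ne_zero.2 h2
  obtain ⟨c0, hc0⟩ : ∃ c0 : ℂ, c0 = p * (conj W2 * W) - m * (W2 * conj W) := ⟨_, rfl⟩
  obtain ⟨c1, hc1⟩ : ∃ c1 : ℂ, c1 = -(p * (conj W2 + W)) + m * (W2 + conj W) := ⟨_, rfl⟩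
  obtain ⟨c2, hc2⟩ : ∃ c2 : ℂ, c2 = p - m := ⟨_, rfl⟩
  have hq : ∀ κ : ℝ, c0 + c1 * κ + c2 * (κ : ℂ) ^ 2 =
      p * ((conj W2 - κ) * (W - κ)) - m * ((W2 - κ) * (conj W - κ)) := by
    intro κ
    rw [hc0, hc1, hc2]; ring
  set r : ℝ → ℝ := fun κ => ‖c0 + c1 * κ + c2 * (κ : ℂ) ^ 2‖ ^ 2 /
    (‖W - κ‖ ^ 2 * ‖W2 - κ‖ ^ 2) with hr
  -- the pointwise identity
  have hpt : ∀ᵐ κ : ℝ ∂ρ, (conj c0 * (p * (aj R 0 κ * ((W2 - κ) * (conj W - κ))⁻¹) -
      m * (aj R 0 κ * ((conj W2 - κ) * (W - κ))⁻¹)) +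
      conj c1 * (p * (aj R 1 κ * ((W2 - κ) * (conj W - κ))⁻¹) -
      m * (aj R 1 κ * ((conj W2 - κ) * (W - κ))⁻¹))) +
      conj c2 * (p * (aj R 2 κ * ((W2 - κ) * (conj W - κ))⁻¹) -
      m * (aj R 2 κ * ((conj W2 - κ) * (W - κ))⁻¹)) = (r κ : ℂ) := by
    filter_upwards [hR] with κ hκ
    have a1 : W - (κ : ℂ) ≠ 0 := norm_pos_iff.1 (norm_pos' h1 κ)
    have a2 : W2 - (κ : ℂ) ≠ 0 := norm_pos_iff.1 (norm_pos' h2 κ)
    have a3 : conj W - (κ : ℂ) ≠ 0 := norm_pos_iff.1 (norm_pos' h1' κ)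
    have a4 : conj W2 - (κ : ℂ) ≠ 0 := norm_pos_iff.1 (norm_pos' h2' κ)
    have n1 : ((‖W - κ‖ ^ 2 : ℝ) : ℂ) = (W - κ) * (conj W - κ) := by
      rw [Complex.ofReal_pow, ← Complex.mul_conj', map_sub, Complex.conj_ofReal]
    have n2 : ((‖W2 - κ‖ ^ 2 : ℝ) : ℂ) = (W2 - κ) * (conj W2 - κ) := by
      rw [Complex.ofReal_pow, ← Complex.mul_conj', map_sub, Complex.conj_ofReal]
    have n3 : ((‖c0 + c1 * κ + c2 * (κ : ℂ) ^ 2‖ ^ 2 : ℝ) : ℂ) =
        (c0 + c1 * κ + c2 * (κ : ℂ) ^ 2) * (conj c0 + conj c1 * κ + conj c2 * (κ : ℂ) ^ 2) := by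
      rw [Complex.ofReal_pow, ← Complex.mul_conj']
      simp only [map_add, map_mul, map_pow, Complex.conj_ofReal]
    have j0 : aj R 0 κ = 1 := by simp [aj, hκ]
    have j1 : aj R 1 κ = κ := by simp [aj, hκ]
    have j2 : aj R 2 κ = (κ : ℂ) ^ 2 := by simp [aj, hκ]
    rw [hr]
    simp only
    rw [Complex.ofReal_div, Complex.ofReal_mul, n1, n2, n3, j0, j1, j2, hq]
    field_simp
  have ii : ∀ j : ℕ, Integrable (fun κ : ℝ => p * (aj R j κ * ((W2 - κ) * (conj W - κ))⁻¹) -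
      m * (aj R j κ * ((conj W2 - κ) * (W - κ))⁻¹)) ρ := fun j =>
    ((ker_int (aj_meas R j) (aj_le R j) h2 h1').const_mul p).sub
      ((ker_int (aj_meas R j) (aj_le R j) h2' h1).const_mul m)
  have iz : ∀ j : ℕ, j ≤ 2 → ∫ κ : ℝ, (p * (aj R j κ * ((W2 - κ) * (conj W - κ))⁻¹) -
      m * (aj R j κ * ((conj W2 - κ) * (W - κ))⁻¹)) ∂ρ = 0 := fun j hj2 => by
    rw [integral_sub ((ker_int (aj_meas R j) (aj_le R j) h2 h1').const_mul p)
      ((ker_int (aj_meas R j) (aj_le R j) h2' h1).const_mul m), integral_const_mul,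
      integral_const_mul]
    exact sub_eq_zero.2 (hj j hj2)
  have hri : Integrable (fun κ => (r κ : ℂ)) ρ :=
    ((((ii 0).const_mul _).add ((ii 1).const_mul _)).add ((ii 2).const_mul _)).congr hpt
  have hrz : ∫ κ, (r κ : ℂ) ∂ρ = 0 := by
    rw [← integral_congr_ae hpt]
    have e1 := integral_add (((ii 0).const_mul (conj c0)).add ((ii 1).const_mul (conj c1)))
      ((ii 2).const_mul (conj c2))
    have e2 := integral_add ((ii 0).const_mul (conj c0)) ((ii 1).const_mul (conj c1))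
    simp only [Pi.add_apply] at e1
    rw [e1, e2, integral_const_mul, integral_const_mul, integral_const_mul, iz 0 (by norm_num),
      iz 1 (by norm_num), iz 2 (by norm_num)]
    ring
  have hrr : ∫ κ, r κ ∂ρ = 0 := by
    rw [integral_complex_ofReal] at hrz
    exact_mod_cast hrz
  have hr0 : 0 ≤ᵐ[ρ] r := Eventually.of_forall fun κ => by rw [hr]; simp only; positivity
  have hri' : Integrable r ρ := by simpa using hri.re
  have hae := (integral_eq_zero_iff_of_nonneg_ae hr0 hri').1 hrr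
  have hq0 : ∀ᵐ κ : ℝ ∂ρ, c0 + c1 * κ + c2 * (κ : ℂ) ^ 2 = 0 := by
    filter_upwards [hae] with κ hκ
    have a1 := norm_pos' h1 κ
    have a2 := norm_pos' h2 κ
    rw [hr] at hκ
    simp only [Pi.zero_apply] at hκ
    rw [div_eq_zero_iff] at hκ
    rcases hκ with h | h
    · simpa using h
    · have : 0 < ‖W - (κ : ℂ)‖ ^ 2 * ‖W2 - (κ : ℂ)‖ ^ 2 := by positivity
      exact absurd h this.ne'
  obtain ⟨z0, z1, z2⟩ := quad0 hρ h0 hq0
  by_contra hp
  rw [hc2, sub_eq_zero] at z2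
  rw [← z2] at hc0 hc1
  rw [z0] at hc0
  rw [z1] at hc1
  have y1 : conj W2 * W = W2 * conj W := by
    have : p * (conj W2 * W - W2 * conj W) = 0 := by rw [mul_sub]; exact hc0.symm
    exact sub_eq_zero.1 ((mul_eq_zero.1 this).resolve_left hp)
  have y2 : conj W2 + W = W2 + conj W := by
    have : p * (W2 + conj W - (conj W2 + W)) = 0 := by rw [hc1]; ring
    exact (sub_eq_zero.1 ((mul_eq_zero.1 this).resolve_left hp)).symm
  have u1 := congrArg Complex.im y1
  have u2 := congrArg Complex.im y2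
  simp only [Complex.mul_im, Complex.add_im, Complex.conj_im, Complex.conj_re] at u1 u2
  have u3 : W.im = W2.im := by linarith
  apply hne
  apply Complex.ext _ u3
  have u4 : W.im * (W.re - W2.re) = 0 := by rw [← u3] at u1; linarith
  exact sub_eq_zero.1 ((mul_eq_zero.1 u4).resolve_left h1)

/-- bounded measurable sequences -/
def BM (X : ℕ → ℝ → ℂ) : Prop := (∀ k, Measurable (X k)) ∧ ∃ K : ℝ, ∀ k E, ‖X k E‖ ≤ K

/-- the integrals tend to zero -/
def Zt (g : ℝ → ℂ) (X : ℕ → ℝ → ℂ) : Prop :=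
  Tendsto (fun k => ∫ E, g E * X k E) atTop (𝓝 0)

lemma BM.int {g : ℝ → ℂ} {X : ℕ → ℝ → ℂ} (hX : BM X) (hg : Integrable g) (k : ℕ) :
    Integrable fun E => g E * X k E := by
  obtain ⟨h1, K, hK⟩ := hX
  exact hg.mul_bdd (c := K) (h1 k).aestronglyMeasurable (Eventually.of_forall (hK k))

lemma Zadd {g g' h : ℝ → ℂ} {X X' Y : ℕ → ℝ → ℂ} (hg : Integrable g) (hg' : Integrable g')
    (hX : BM X) (hX' : BM X') (h1 : Zt g X) (h2 : Zt g' X')
    (e : ∀ k E, h E * Y k E = g E * X k E + g' E * X' k E) : Zt h Y := by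
  have h3 := h1.add h2
  rw [add_zero] at h3
  refine h3.congr fun k => ?_
  rw [← integral_add (hX.int hg k) (hX'.int hg' k)]
  exact integral_congr_ae (Eventually.of_forall fun E => (e k E).symm)

lemma Zsub {g g' h : ℝ → ℂ} {X X' Y : ℕ → ℝ → ℂ} (hg : Integrable g) (hg' : Integrable g')
    (hX : BM X) (hX' : BM X') (h1 : Zt g X) (h2 : Zt g' X')
    (e : ∀ k E, h E * Y k E = g E * X k E - g' E * X' k E) : Zt h Y := by
  have h3 := h1.sub h2
  rw [sub_zero] at h3
  refine h3.congr fun k => ?_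
  rw [← integral_sub (hX.int hg k) (hX'.int hg' k)]
  exact integral_congr_ae (Eventually.of_forall fun E => (e k E).symm)

lemma BM.sub {X Y : ℕ → ℝ → ℂ} (hX : BM X) (hY : BM Y) : BM fun k E => X k E - Y k E := by
  obtain ⟨h1, K, hK⟩ := hX
  obtain ⟨h2, L, hL⟩ := hY
  refine ⟨fun k => (h1 k).sub (h2 k), K + L, fun k E => ?_⟩
  exact (norm_sub_le _ _).trans (add_le_add (hK k E) (hL k E))

lemma BM.add {X Y : ℕ → ℝ → ℂ} (hX : BM X) (hY : BM Y) : BM fun k E => X k E + Y k E := by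
  obtain ⟨h1, K, hK⟩ := hX
  obtain ⟨h2, L, hL⟩ := hY
  refine ⟨fun k => (h1 k).add (h2 k), K + L, fun k E => ?_⟩
  exact (norm_add_le _ _).trans (add_le_add (hK k E) (hL k E))

lemma BM.mul {X Y : ℕ → ℝ → ℂ} (hX : BM X) (hY : BM Y) : BM fun k E => X k E * Y k E := by
  obtain ⟨h1, K, hK⟩ := hX
  obtain ⟨h2, L, hL⟩ := hY
  refine ⟨fun k => (h1 k).mul (h2 k), K * L, fun k E => ?_⟩
  rw [norm_mul]
  exact mul_le_mul (hK k E) (hL k E) (norm_nonneg _) ((norm_nonneg _).trans (hK k E))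

lemma BM.conj {u : ℝ → ℂ} (hX : BM fun _ => u) : BM fun _ E => conj (u E) := by
  obtain ⟨h1, K, hK⟩ := hX
  refine ⟨fun k => Complex.continuous_conj.measurable.comp (h1 k), K, fun k E => ?_⟩
  rw [RCLike.norm_conj]
  exact hK k E

lemma BM.intg {g : ℝ → ℂ} {u : ℝ → ℂ} (hg : Integrable g) (hu : BM fun _ => u) :
    Integrable fun E => g E * u E := hu.int hg 0

namespace Dat

/-- Step B: where both limits exist. -/
theorem stepB (D : Dat ρ C R M w w2 n m) (hM : 0 ≤ M) (hb : Measurable b)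
    (hB : ∀ κ, ‖b κ‖ ≤ B) {f : ℝ → ℂ} (hf : Integrable f) {S : Set ℝ} (hS : MeasurableSet S)
    {W W2 : ℝ → ℂ} (hWm : Measurable W) (hW2m : Measurable W2)
    (hWi : ∀ E ∈ S, (W E).im ≠ 0) (hW2i : ∀ E ∈ S, (W2 E).im ≠ 0)
    (h1 : ∀ᵐ E : ℝ, E ∈ S → Tendsto (fun k => w k E) atTop (𝓝 (W E)))
    (h2 : ∀ᵐ E : ℝ, E ∈ S → Tendsto (fun k => w2 k E) atTop (𝓝 (W2 E)))
    (hfS : ∀ E, E ∉ S → f E = 0) :
    Tendsto (fun k => ∫ E, f E * (n k E * Kf ρ b (conj (w2 k E)) (w k E))) atTop (𝓝 0) := by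
  by_cases hρ0 : ρ = 0
  · have e1 : ∀ k E, Kf ρ b (conj (w2 k E)) (w k E) = 0 := by
      intro k E
      unfold Kf
      rw [hρ0, integral_zero_measure]
    simp only [e1, mul_zero, integral_zero]
    exact tendsto_const_nhds
  have hne := D.lim_ne h1 h2
  -- the limits of the kernels
  set PP : (ℝ → ℂ) → ℝ → ℂ := fun a E => Kf ρ a (conj (W2 E)) (W E) with hPP
  set PM : (ℝ → ℂ) → ℝ → ℂ := fun a E => Kf ρ a (W2 E) (conj (W E)) with hPM
  have hcW : Measurable fun E => conj (W E) := Complex.continuous_conj.measurable.comp hWm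
  have hcW2 : Measurable fun E => conj (W2 E) := Complex.continuous_conj.measurable.comp hW2m
  have hPPm : ∀ a, Measurable a → Measurable (PP a) := fun a ha => Kf_meas ha hcW2 hWm
  have hPMm : ∀ a, Measurable a → Measurable (PM a) := fun a ha => Kf_meas ha hW2m hcW
  set Dj : ℕ → ℝ → ℂ := fun j E => PM (aj R j) E * PP b E - PM b E * PP (aj R j) E with hDj
  have hDm : ∀ j, Measurable (Dj j) := fun j =>
    ((hPMm _ (aj_meas R j)).mul (hPPm _ hb)).sub ((hPMm _ hb).mul (hPPm _ (aj_meas R j)))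
  set F : ℝ → ℝ := fun E => ‖Dj 0 E‖ ^ 2 + ‖Dj 1 E‖ ^ 2 + ‖Dj 2 E‖ ^ 2 with hF
  have hFm : Measurable F := (((hDm 0).norm.pow_const 2).add ((hDm 1).norm.pow_const 2)).add
    ((hDm 2).norm.pow_const 2)
  have hF0 : ∀ E, 0 ≤ F E := fun E => by rw [hF]; simp only; positivity
  set A : ℕ → Set ℝ := fun i => {E | E ∈ S ∧
    ((((i : ℝ) + 1)⁻¹ ≤ |(W E).im| ∧ |(W E).im| ≤ i) ∧
    (((i : ℝ) + 1)⁻¹ ≤ |(W2 E).im| ∧ |(W2 E).im| ≤ i)) ∧
    (PP b E = 0 ∨ ((i : ℝ) + 1)⁻¹ ≤ F E)} with hA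
  have hIW : Measurable fun E => |(W E).im| := (Complex.measurable_im.comp hWm).norm
  have hIW2 : Measurable fun E => |(W2 E).im| := (Complex.measurable_im.comp hW2m).norm
  have hAm : ∀ i, MeasurableSet (A i) := fun i => by
    refine MeasurableSet.inter hS (MeasurableSet.inter (MeasurableSet.inter
      (MeasurableSet.inter ?_ ?_) (MeasurableSet.inter ?_ ?_)) (MeasurableSet.union ?_ ?_))
    · exact measurableSet_le measurable_const hIW
    · exact measurableSet_le hIW measurable_const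
    · exact measurableSet_le measurable_const hIW2
    · exact measurableSet_le hIW2 measurable_const
    · exact measurableSet_eq_fun (hPPm _ hb) measurable_const
    · exact measurableSet_le measurable_const hFm
  have hlim1 : Tendsto (fun i : ℕ => ((i : ℝ) + 1)⁻¹) atTop (𝓝 0) := by
    simpa using tendsto_one_div_add_atTop_nhds_zero_nat (𝕜 := ℝ)
  refine exh (M := M * (B * (C * Real.pi))) (D.Hm hb) (D.H_le' hM hB) hf A hAm ?_ fun i => ?_
  · filter_upwards [hne] with E hE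
    by_cases hES : E ∈ S
    · right
      have hPF : PP b E = 0 ∨ 0 < F E := by
        by_contra hcon
        rw [not_or] at hcon
        obtain ⟨c1, c2⟩ := hcon
        apply c1
        have hF00 : F E = 0 := le_antisymm (not_lt.1 c2) (hF0 E)
        have d0 : 0 ≤ ‖Dj 0 E‖ ^ 2 := by positivity
        have d1 : 0 ≤ ‖Dj 1 E‖ ^ 2 := by positivity
        have d2 : 0 ≤ ‖Dj 2 E‖ ^ 2 := by positivity
        have hsum : ‖Dj 0 E‖ ^ 2 + ‖Dj 1 E‖ ^ 2 + ‖Dj 2 E‖ ^ 2 = 0 := hF00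
        have z0 : Dj 0 E = 0 := by
          have : ‖Dj 0 E‖ ^ 2 = 0 := by linarith
          simpa using this
        have z1 : Dj 1 E = 0 := by
          have : ‖Dj 1 E‖ ^ 2 = 0 := by linarith
          simpa using this
        have z2 : Dj 2 E = 0 := by
          have : ‖Dj 2 E‖ ^ 2 = 0 := by linarith
          simpa using this
        refine alg D.hρ D.hR hρ0 (hWi E hES) (hW2i E hES) (hE hES) (m := PM b E) ?_
        have zj : ∀ j : ℕ, j ≤ 2 → Dj j E = 0 := by
          intro j hj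
          interval_cases j
          · exact z0
          · exact z1
          · exact z2
        intro j hj
        have := zj j hj
        rw [hDj] at this
        simp only at this
        have h5 := sub_eq_zero.1 this
        rw [mul_comm (PM (aj R j) E)] at h5
        exact h5
      have e1 : ∀ᶠ i : ℕ in atTop, ((i : ℝ) + 1)⁻¹ ≤ |(W E).im| := by
        filter_upwards [hlim1.eventually_lt_const (abs_pos.2 (hWi E hES))] with i hi
        exact hi.le
      have e2 : ∀ᶠ i : ℕ in atTop, ((i : ℝ) + 1)⁻¹ ≤ |(W2 E).im| := by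
        filter_upwards [hlim1.eventually_lt_const (abs_pos.2 (hW2i E hES))] with i hi
        exact hi.le
      have e3 : ∀ᶠ i : ℕ in atTop, |(W E).im| ≤ (i : ℝ) := by
        obtain ⟨N, hN⟩ := exists_nat_ge |(W E).im|
        filter_upwards [eventually_ge_atTop N] with i hi
        exact hN.trans (by exact_mod_cast hi)
      have e4 : ∀ᶠ i : ℕ in atTop, |(W2 E).im| ≤ (i : ℝ) := by
        obtain ⟨N, hN⟩ := exists_nat_ge |(W2 E).im|
        filter_upwards [eventually_ge_atTop N] with i hi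
        exact hN.trans (by exact_mod_cast hi)
      rcases hPF with h | h
      · filter_upwards [e1, e2, e3, e4] with i i1 i2 i3 i4
        exact ⟨hES, ⟨⟨i1, i3⟩, i2, i4⟩, Or.inl h⟩
      · filter_upwards [e1, e2, e3, e4, hlim1.eventually_lt_const h] with i i1 i2 i3 i4 i5
        exact ⟨hES, ⟨⟨i1, i3⟩, i2, i4⟩, Or.inr i5.le⟩
    · left
      exact hfS E hES
  -- truncations
  set T : ℝ := M * ((i : ℝ) + 1) with hT
  have hT0 : 0 ≤ T := by rw [hT]; positivity
  set n' : ℕ → ℝ → ℂ := fun k E => if ‖n k E‖ ≤ T then n k E else 0 with hn'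
  set m' : ℕ → ℝ → ℂ := fun k E => if ‖m k E‖ ≤ T then m k E else 0 with hm'
  have bn : BM n' := by
    refine ⟨fun k => Measurable.ite (measurableSet_le (D.nm k).norm measurable_const) (D.nm k)
      measurable_const, T, fun k E => ?_⟩
    rw [hn']
    simp only
    split_ifs with h
    · exact h
    · rw [norm_zero]; exact hT0
  have bm : BM m' := by
    refine ⟨fun k => Measurable.ite (measurableSet_le (D.mm k).norm measurable_const) (D.mm k)
      measurable_const, T, fun k E => ?_⟩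
    rw [hm']
    simp only
    split_ifs with h
    · exact h
    · rw [norm_zero]; exact hT0
  set PP' : (ℝ → ℂ) → ℝ → ℂ := fun a => (A i).indicator (PP a) with hPP'
  set PM' : (ℝ → ℂ) → ℝ → ℂ := fun a => (A i).indicator (PM a) with hPM'
  have hinv : ∀ x : ℝ, ((i : ℝ) + 1)⁻¹ ≤ |x| → |x|⁻¹ ≤ (i : ℝ) + 1 := by
    intro x hx
    rw [inv_le_comm₀ (lt_of_lt_of_le (by positivity) hx) (by positivity)]
    exact hx
  have bPP : ∀ (a : ℝ → ℂ) (Ba : ℝ), Measurable a → (∀ κ, ‖a κ‖ ≤ Ba) → BM fun _ => PP' a := by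
    intro a Ba ha hBa
    have hBa0 : 0 ≤ Ba := (norm_nonneg _).trans (hBa 0)
    refine ⟨fun _ => (hPPm a ha).indicator (hAm i), Ba * (((i : ℝ) + 1) * ((i : ℝ) + 1)) *
      ρ.real Set.univ, fun _ E => ?_⟩
    rw [hPP']
    simp only
    by_cases hE : E ∈ A i
    · rw [Set.indicator_of_mem hE]
      obtain ⟨hES, ⟨⟨i1, i3⟩, i2, i4⟩, _⟩ := hE
      refine (Kf_norm hBa (by rw [Complex.conj_im]; exact neg_ne_zero.2 (hW2i E hES))
        (hWi E hES)).trans ?_
      rw [Complex.conj_im, abs_neg]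
      have h5 := hinv _ i1
      have h6 := hinv _ i2
      gcongr
    · rw [Set.indicator_of_notMem hE, norm_zero]
      positivity
  have bPM : ∀ (a : ℝ → ℂ) (Ba : ℝ), Measurable a → (∀ κ, ‖a κ‖ ≤ Ba) → BM fun _ => PM' a := by
    intro a Ba ha hBa
    have hBa0 : 0 ≤ Ba := (norm_nonneg _).trans (hBa 0)
    refine ⟨fun _ => (hPMm a ha).indicator (hAm i), Ba * (((i : ℝ) + 1) * ((i : ℝ) + 1)) *
      ρ.real Set.univ, fun _ E => ?_⟩
    rw [hPM']
    simp only
    by_cases hE : E ∈ A i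
    · rw [Set.indicator_of_mem hE]
      obtain ⟨hES, ⟨⟨i1, i3⟩, i2, i4⟩, _⟩ := hE
      refine (Kf_norm hBa (hW2i E hES)
        (by rw [Complex.conj_im]; exact neg_ne_zero.2 (hWi E hES))).trans ?_
      rw [Complex.conj_im, abs_neg]
      have h5 := hinv _ i1
      have h6 := hinv _ i2
      gcongr
    · rw [Set.indicator_of_notMem hE, norm_zero]
      positivity
  -- eventually no truncation
  have hroot : ∀ {x y : ℝ}, |x| ≤ (i : ℝ) + 1 → |y| ≤ (i : ℝ) + 1 →
      M * (Real.sqrt |x| * Real.sqrt |y|) ≤ T := by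
    intro x y hx hy
    rw [hT]
    refine mul_le_mul_of_nonneg_left ?_ hM
    calc Real.sqrt |x| * Real.sqrt |y| ≤ Real.sqrt ((i : ℝ) + 1) * Real.sqrt ((i : ℝ) + 1) :=
          mul_le_mul (Real.sqrt_le_sqrt hx) (Real.sqrt_le_sqrt hy) (by positivity) (by positivity)
      _ = (i : ℝ) + 1 := Real.mul_self_sqrt (by positivity)
  have hevn : ∀ᵐ E : ℝ, E ∈ A i → Tendsto (fun k => w k E) atTop (𝓝 (W E)) ∧
      Tendsto (fun k => w2 k E) atTop (𝓝 (W2 E)) ∧ ∀ᶠ k in atTop, n' k E = n k E ∧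
        m' k E = m k E := by
    filter_upwards [h1, h2] with E a1 a2 hE
    obtain ⟨hES, ⟨⟨i1, i3⟩, i2, i4⟩, _⟩ := hE
    have a3 := a1 hES
    have a4 := a2 hES
    refine ⟨a3, a4, ?_⟩
    have a5 : ∀ᶠ k in atTop, |(w k E).im| < (i : ℝ) + 1 :=
      (((Complex.continuous_im.tendsto _).comp a3).abs).eventually_lt_const (by linarith)
    have a6 : ∀ᶠ k in atTop, |(w2 k E).im| < (i : ℝ) + 1 :=
      (((Complex.continuous_im.tendsto _).comp a4).abs).eventually_lt_const (by linarith)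
    filter_upwards [a5, a6] with k k1 k2
    have k3 := (D.hn k E).trans (hroot k1.le k2.le)
    have k4 := (D.hm k E).trans (hroot k1.le k2.le)
    rw [hn', hm']
    simp only
    rw [if_pos k3, if_pos k4]
    exact ⟨rfl, rfl⟩
  have hnT : ∀ k E, ‖n' k E‖ ≤ T := by
    intro k E
    rw [hn']
    simp only
    split_ifs with h
    · exact h
    · rw [norm_zero]; exact hT0
  have hmT : ∀ k E, ‖m' k E‖ ≤ T := by
    intro k E
    rw [hm']
    simp only
    split_ifs with h
    · exact h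
    · rw [norm_zero]; exact hT0
  set X : (ℝ → ℂ) → ℕ → ℝ → ℂ := fun a k E => n k E * Kf ρ a (conj (w2 k E)) (w k E) with hX
  set Y : (ℝ → ℂ) → ℕ → ℝ → ℂ := fun a k E => m k E * Kf ρ a (w2 k E) (conj (w k E)) with hY
  have bX : ∀ (a : ℝ → ℂ) (Ba : ℝ), Measurable a → (∀ κ, ‖a κ‖ ≤ Ba) → BM (X a) :=
    fun a Ba ha hBa => ⟨D.Hm ha, _, D.H_le' hM hBa⟩
  have bY : ∀ (a : ℝ → ℂ) (Ba : ℝ), Measurable a → (∀ κ, ‖a κ‖ ≤ Ba) → BM (Y a) :=
    fun a Ba ha hBa => ⟨D.Hm' ha, _, D.H_bd' hM hBa⟩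
  have rX : ∀ (a : ℝ → ℂ) (Ba : ℝ), Measurable a → (∀ κ, ‖a κ‖ ≤ Ba) → ∀ g : ℝ → ℂ,
      Integrable g → (∀ E, E ∉ A i → g E = 0) →
      Zt g (fun k E => X a k E - n' k E * PP' a E) := by
    intro a Ba ha hBa g hg hgA
    obtain ⟨b1, K, b2⟩ := (bX a Ba ha hBa).sub (bn.mul (bPP a Ba ha hBa))
    refine dct0 b1 b2 hg ?_
    filter_upwards [hevn] with E hE
    by_cases hEA : E ∈ A i
    · right
      obtain ⟨a3, a4, a5⟩ := hE hEA
      have hES : E ∈ S := hEA.1
      have hK : Tendsto (fun k => Kf ρ a (conj (w2 k E)) (w k E)) atTop (𝓝 (PP a E)) :=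
        Kf_cont ha hBa (by rw [Complex.conj_im]; exact neg_ne_zero.2 (hW2i E hES)) (hWi E hES)
          ((Complex.continuous_conj.tendsto _).comp a4) a3
      have hPPE : PP' a E = PP a E := Set.indicator_of_mem hEA _
      have hz : Tendsto (fun k => T * ‖Kf ρ a (conj (w2 k E)) (w k E) - PP a E‖) atTop (𝓝 0) := by
        have := ((hK.sub_const (PP a E)).norm).const_mul T
        rwa [sub_self, norm_zero, mul_zero] at this
      refine squeeze_zero_norm' ?_ hz
      filter_upwards [a5] with k hk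
      have e1 : X a k E - n' k E * PP' a E =
          n' k E * (Kf ρ a (conj (w2 k E)) (w k E) - PP a E) := by
        rw [hPPE, hX, mul_sub, hk.1]
      rw [e1, norm_mul]
      exact mul_le_mul_of_nonneg_right (hnT k E) (norm_nonneg _)
    · left
      exact hgA E hEA
  have rY : ∀ (a : ℝ → ℂ) (Ba : ℝ), Measurable a → (∀ κ, ‖a κ‖ ≤ Ba) → ∀ g : ℝ → ℂ,
      Integrable g → (∀ E, E ∉ A i → g E = 0) →
      Zt g (fun k E => Y a k E - m' k E * PM' a E) := by
    intro a Ba ha hBa g hg hgA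
    obtain ⟨b1, K, b2⟩ := (bY a Ba ha hBa).sub (bm.mul (bPM a Ba ha hBa))
    refine dct0 b1 b2 hg ?_
    filter_upwards [hevn] with E hE
    by_cases hEA : E ∈ A i
    · right
      obtain ⟨a3, a4, a5⟩ := hE hEA
      have hES : E ∈ S := hEA.1
      have hK : Tendsto (fun k => Kf ρ a (w2 k E) (conj (w k E))) atTop (𝓝 (PM a E)) :=
        Kf_cont ha hBa (hW2i E hES) (by rw [Complex.conj_im]; exact neg_ne_zero.2 (hWi E hES))
          a4 ((Complex.continuous_conj.tendsto _).comp a3)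
      have hPPE : PM' a E = PM a E := Set.indicator_of_mem hEA _
      have hz : Tendsto (fun k => T * ‖Kf ρ a (w2 k E) (conj (w k E)) - PM a E‖) atTop (𝓝 0) := by
        have := ((hK.sub_const (PM a E)).norm).const_mul T
        rwa [sub_self, norm_zero, mul_zero] at this
      refine squeeze_zero_norm' ?_ hz
      filter_upwards [a5] with k hk
      have e1 : Y a k E - m' k E * PM' a E =
          m' k E * (Kf ρ a (w2 k E) (conj (w k E)) - PM a E) := by
        rw [hPPE, hY, mul_sub, hk.2]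
      rw [e1, norm_mul]
      exact mul_le_mul_of_nonneg_right (hmT k E) (norm_nonneg _)
    · left
      exact hgA E hEA
  have star : ∀ (a : ℝ → ℂ) (Ba : ℝ), Measurable a → (∀ κ, ‖a κ‖ ≤ Ba) → ∀ g : ℝ → ℂ,
      Integrable g → (∀ E, E ∉ A i → g E = 0) →
      Zt g (fun k E => n' k E * PP' a E - m' k E * PM' a E) := by
    intro a Ba ha hBa g hg hgA
    have z1 : Zt g (fun k E => X a k E - Y a k E) := D.A3 g hg a Ba ha hBa
    have cX := bX a Ba ha hBa
    have cY := bY a Ba ha hBa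
    have cP := bn.mul (bPP a Ba ha hBa)
    have cM := bm.mul (bPM a Ba ha hBa)
    have z2 : Zt g (fun k E => n' k E * PP' a E - Y a k E) :=
      Zsub hg hg (cX.sub cY) (cX.sub cP) z1 (rX a Ba ha hBa g hg hgA) fun k E => by ring
    exact Zadd hg hg (cP.sub cY) (cY.sub cM) z2 (rY a Ba ha hBa g hg hgA) fun k E => by ring
  set D' : ℕ → ℝ → ℂ := fun j E => PM' (aj R j) E * PP' b E - PM' b E * PP' (aj R j) E with hD'
  have cPb := bPP b B hb hB
  have cMb := bPM b B hb hB
  have cPj : ∀ j, BM fun _ => PP' (aj R j) := fun j => bPP _ _ (aj_meas R j) (aj_le R j)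
  have cMj : ∀ j, BM fun _ => PM' (aj R j) := fun j => bPM _ _ (aj_meas R j) (aj_le R j)
  have cD : ∀ j, BM fun _ => D' j := fun j => ((cMj j).mul cPb).sub (cMb.mul (cPj j))
  have zD : ∀ j, ∀ g : ℝ → ℂ, Integrable g → (∀ E, E ∉ A i → g E = 0) →
      Zt g (fun k E => n' k E * D' j E) := by
    intro j g hg hgA
    have i1 := (cMj j).intg hg
    have i2 := cMb.intg hg
    have z1 := star b B hb hB _ i1 fun E hE => by rw [hgA E hE, zero_mul]
    have z2 := star _ _ (aj_meas R j) (aj_le R j) _ i2 fun E hE => by rw [hgA E hE, zero_mul]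
    refine Zsub i1 i2 ((bn.mul cPb).sub (bm.mul cMb)) ((bn.mul (cPj j)).sub (bm.mul (cMj j)))
      z1 z2 fun k E => ?_
    rw [hD']
    ring
  set v : ℝ → ℂ := (A i).indicator fun E => if PP b E = 0 then 0 else (((F E)⁻¹ : ℝ) : ℂ) with hv
  have cv : BM fun _ => v := by
    refine ⟨fun _ => (Measurable.ite (measurableSet_eq_fun (hPPm _ hb) measurable_const)
      measurable_const (Complex.measurable_ofReal.comp hFm.inv)).indicator (hAm i),
      (i : ℝ) + 1, fun _ E => ?_⟩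
    rw [hv]
    beta_reduce
    by_cases hE : E ∈ A i
    · rw [Set.indicator_of_mem hE]
      split_ifs with h
      · rw [norm_zero]; positivity
      · have h5 : ((i : ℝ) + 1)⁻¹ ≤ F E := hE.2.2.resolve_left h
        rw [Complex.norm_real, Real.norm_of_nonneg (inv_nonneg.2 (hF0 E))]
        rw [inv_le_comm₀ (lt_of_lt_of_le (by positivity) h5) (by positivity)]
        exact h5
    · rw [Set.indicator_of_notMem hE, norm_zero]
      positivity
  set u : ℕ → ℝ → ℂ := fun j E => PP' b E * conj (D' j E) * v E with hu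
  have cu : ∀ j, BM fun _ => u j := fun j => (cPb.mul (cD j).conj).mul cv
  have hsum : ∀ E, PP' b E = u 0 E * D' 0 E + u 1 E * D' 1 E + u 2 E * D' 2 E := by
    intro E
    by_cases hE : E ∈ A i
    · have hDE : ∀ j, D' j E = Dj j E := by
        intro j
        rw [hD', hDj, hPP', hPM']
        simp only
        rw [Set.indicator_of_mem hE, Set.indicator_of_mem hE, Set.indicator_of_mem hE,
          Set.indicator_of_mem hE]
      have hPE : PP' b E = PP b E := Set.indicator_of_mem hE _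
      have hvE : v E = if PP b E = 0 then 0 else (((F E)⁻¹ : ℝ) : ℂ) := Set.indicator_of_mem hE _
      rw [hu]
      simp only
      rw [hDE, hDE, hDE, hPE, hvE]
      split_ifs with h
      · rw [h]; ring
      · have h5 : ((i : ℝ) + 1)⁻¹ ≤ F E := hE.2.2.resolve_left h
        have h6 : (0 : ℝ) < F E := lt_of_lt_of_le (by positivity) h5
        have h7 : (F E : ℂ) = Dj 0 E * conj (Dj 0 E) + Dj 1 E * conj (Dj 1 E) +
            Dj 2 E * conj (Dj 2 E) := by
          rw [Complex.mul_conj', Complex.mul_conj', Complex.mul_conj', hF]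
          push_cast
          ring
        have h8 : (F E : ℂ) ≠ 0 := by exact_mod_cast h6.ne'
        have h9 : (((F E)⁻¹ : ℝ) : ℂ) * (F E : ℂ) = 1 := by
          rw [Complex.ofReal_inv]
          exact inv_mul_cancel₀ h8
        calc PP b E = PP b E * ((((F E)⁻¹ : ℝ) : ℂ) * (F E : ℂ)) := by rw [h9, mul_one]
          _ = _ := by rw [h7]; ring
    · have hPE : PP' b E = 0 := Set.indicator_of_notMem hE _
      rw [hu]
      simp only
      rw [hPE]
      ring
  set g : ℝ → ℂ := (A i).indicator f with hg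
  have hgi : Integrable g := hf.indicator (hAm i)
  have hgA : ∀ E, E ∉ A i → g E = 0 := fun E hE => Set.indicator_of_notMem hE _
  have zz : ∀ j, Zt (fun E => g E * u j E) (fun k E => n' k E * D' j E) := fun j =>
    zD j _ ((cu j).intg hgi) fun E hE => by rw [hgA E hE, zero_mul]
  have z01 : Zt g (fun k E => n' k E * (u 0 E * D' 0 E + u 1 E * D' 1 E)) :=
    Zadd ((cu 0).intg hgi) ((cu 1).intg hgi) (bn.mul (cD 0)) (bn.mul (cD 1)) (zz 0) (zz 1)
      fun k E => by ring
  have c01 : BM (fun k E => n' k E * (u 0 E * D' 0 E + u 1 E * D' 1 E)) :=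
    bn.mul (((cu 0).mul (cD 0)).add ((cu 1).mul (cD 1)))
  have z2 : Zt g (fun k E => n' k E * PP' b E) :=
    Zadd hgi ((cu 2).intg hgi) c01 (bn.mul (cD 2)) z01 (zz 2) fun k E => by
      rw [hsum E]; ring
  exact Zadd hgi hgi (bn.mul cPb) ((bX b B hb hB).sub (bn.mul cPb)) z2
    (rX b B hb hB g hgi hgA) fun k E => by ring

/-- The abstract theorem on the energy side. -/
theorem thmZ (D : Dat ρ C R M w w2 n m) (hM : 0 ≤ M) (hb : Measurable b)
    (hB : ∀ κ, ‖b κ‖ ≤ B) {f : ℝ → ℂ} (hf : Integrable f) :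
    Tendsto (fun k => ∫ E, f E * (n k E * Kf ρ b (conj (w2 k E)) (w k E))) atTop (𝓝 0) := by
  obtain ⟨l, hlm, hl⟩ := measurable_limit_of_tendsto_metrizable_ae (L := atTop)
    (μ := (volume : Measure ℝ)) (f := fun k E => (w k E).im)
    (fun k => (Complex.measurable_im.comp (D.wm k)).aemeasurable)
    (by filter_upwards [D.lw] with E hE; exact ⟨hE.choose, hE.choose_spec.1⟩)
  obtain ⟨l2, hl2m, hl2⟩ := measurable_limit_of_tendsto_metrizable_ae (L := atTop)
    (μ := (volume : Measure ℝ)) (f := fun k E => (w2 k E).im)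
    (fun k => (Complex.measurable_im.comp (D.w2m k)).aemeasurable)
    (by filter_upwards [D.lw2] with E hE; exact ⟨hE.choose, hE.choose_spec.1⟩)
  set S0 : Set ℝ := {E | l E ≠ 0 ∧ l2 E ≠ 0} with hS0
  have hS0m : MeasurableSet S0 := (measurableSet_eq_fun hlm measurable_const).compl.inter
    (measurableSet_eq_fun hl2m measurable_const).compl
  obtain ⟨W, hWm, hW⟩ := measurable_limit_of_tendsto_metrizable_ae (L := atTop)
    (μ := (volume : Measure ℝ)) (f := fun k => S0.indicator (w k))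
    (fun k => ((D.wm k).indicator hS0m).aemeasurable) (by
      filter_upwards [D.lw, hl] with E hE h1
      by_cases hES : E ∈ S0
      · obtain ⟨l', h2, h3⟩ := hE
        have h4 : l' = l E := tendsto_nhds_unique h2 h1
        obtain ⟨W, h5⟩ := h3 (by rw [h4]; exact hES.1)
        exact ⟨W, h5.congr fun k => (Set.indicator_of_mem hES _).symm⟩
      · exact ⟨0, tendsto_const_nhds.congr fun k => (Set.indicator_of_notMem hES _).symm⟩)
  obtain ⟨W2, hW2m, hW2⟩ := measurable_limit_of_tendsto_metrizable_ae (L := atTop)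
    (μ := (volume : Measure ℝ)) (f := fun k => S0.indicator (w2 k))
    (fun k => ((D.w2m k).indicator hS0m).aemeasurable) (by
      filter_upwards [D.lw2, hl2] with E hE h1
      by_cases hES : E ∈ S0
      · obtain ⟨l', h2, h3⟩ := hE
        have h4 : l' = l2 E := tendsto_nhds_unique h2 h1
        obtain ⟨W, h5⟩ := h3 (by rw [h4]; exact hES.2)
        exact ⟨W, h5.congr fun k => (Set.indicator_of_mem hES _).symm⟩
      · exact ⟨0, tendsto_const_nhds.congr fun k => (Set.indicator_of_notMem hES _).symm⟩)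
  set S : Set ℝ := {E | E ∈ S0 ∧ (W E).im ≠ 0 ∧ (W2 E).im ≠ 0} with hS
  have hSm : MeasurableSet S := hS0m.inter
    ((measurableSet_eq_fun (Complex.measurable_im.comp hWm) measurable_const).compl.inter
    (measurableSet_eq_fun (Complex.measurable_im.comp hW2m) measurable_const).compl)
  have c1 : ∀ᵐ E : ℝ, E ∈ S0 → Tendsto (fun k => w k E) atTop (𝓝 (W E)) := by
    filter_upwards [hW] with E hE hES
    exact hE.congr fun k => Set.indicator_of_mem hES _
  have c2 : ∀ᵐ E : ℝ, E ∈ S0 → Tendsto (fun k => w2 k E) atTop (𝓝 (W2 E)) := by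
    filter_upwards [hW2] with E hE hES
    exact hE.congr fun k => Set.indicator_of_mem hES _
  have zB := D.stepB hM hb hB (hf.indicator hSm) hSm hWm hW2m (fun E hE => hE.2.1)
    (fun E hE => hE.2.2) (c1.mono fun E h hE => h hE.1) (c2.mono fun E h hE => h hE.1)
    fun E hE => Set.indicator_of_notMem hE _
  have zA := D.stepA hM hb hB (hf.indicator hSm.compl) (by
    filter_upwards [c1, c2, hl, hl2] with E e1 e2 e3 e4
    by_cases hES : E ∈ S
    · left
      exact Set.indicator_of_notMem (Set.notMem_compl_iff.2 hES) _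
    · right
      by_cases h0 : E ∈ S0
      · exfalso
        apply hES
        refine ⟨h0, ?_, ?_⟩
        · have h5 : (W E).im = l E := tendsto_nhds_unique
            ((Complex.continuous_im.tendsto _).comp (e1 h0)) e3
          rw [h5]
          exact h0.1
        · have h5 : (W2 E).im = l2 E := tendsto_nhds_unique
            ((Complex.continuous_im.tendsto _).comp (e2 h0)) e4
          rw [h5]
          exact h0.2
      · rw [hS0, Set.mem_ofPred_eq, not_and_or, not_not, not_not] at h0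
        rcases h0 with h0 | h0
        · left; rwa [h0] at e3
        · right; rwa [h0] at e4)
  have cX : BM fun k E => n k E * Kf ρ b (conj (w2 k E)) (w k E) := ⟨D.Hm hb, _, D.H_le' hM hB⟩
  refine Zadd (hf.indicator hSm) (hf.indicator hSm.compl) cX cX zB zA fun k E => ?_
  rw [← add_mul]
  congr 1
  exact (congrFun (Set.indicator_self_add_compl S f) E).symm

end Dat

end

end Pool.Agent.Helper26.Rg
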