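import Pool.Agent.Helper26.Rg.Nic
import Pool.Agent.Helper26.Rg.Lap
import Pool.Agent.Helper26.Rg.Sep
import Pool.Agent.Helper26.Rg.Zef

/-! # The fibre over one site -/

set_option autoImplicit false

open MeasureTheory Filter Topology
open scoped ENNReal NNReal ComplexConjugate InnerProductSpace

namespace Pool.Agent.Helper26.Rg

open Pool.Agent.H5R2.NB Pool.Agent.Helper26.Cm Pool.Agent.Helper26.Dj
open Pool.Agent.TH369.AN (Rz rz_uniq rz_eq rz_norm pt pt_sa)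
open Pool.Agent.TH369.MU (zk ep)

section gen

variable {ρ : Measure ℝ} [IsFiniteMeasure ρ] {C : ℝ≥0} {b : ℝ → ℂ} {B : ℝ}

lemma nK_le (hρ : ρ ≤ C • (volume : Measure ℝ)) {M : ℝ} (hM : 0 ≤ M) (hB : ∀ κ, ‖b κ‖ ≤ B)
    {n w₁ w₂ : ℂ} (h1 : w₁.im ≠ 0) (h2 : w₂.im ≠ 0)
    (hn : ‖n‖ ≤ M * (Real.sqrt |w₁.im| * Real.sqrt |w₂.im|)) :
    ‖n * Kf ρ b w₁ w₂‖ ≤ M * (B * (C * Real.pi)) := by
  have hB0 : 0 ≤ B := (norm_nonneg _).trans (hB 0)
  have e1 := Kf_le (ρ := ρ) hB h1 h2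
  have e2 := AA_le hρ h1 h2
  rw [norm_mul]
  calc ‖n‖ * ‖Kf ρ b w₁ w₂‖
      ≤ M * (Real.sqrt |w₁.im| * Real.sqrt |w₂.im|) * ‖Kf ρ b w₁ w₂‖ :=
        mul_le_mul_of_nonneg_right hn (norm_nonneg _)
    _ = M * (Real.sqrt |w₁.im| * Real.sqrt |w₂.im| * ‖Kf ρ b w₁ w₂‖) := by ring
    _ ≤ _ := mul_le_mul_of_nonneg_left (e1.trans (mul_le_mul_of_nonneg_left e2 hB0)) hM

/-- from nice functions to all integrable functions -/
lemma Zt_of_nice {X : ℕ → ℝ → ℂ} (hX : BM X) (h : ∀ f, Nice f → Zt f X) {f : ℝ → ℂ}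
    (hf : Integrable f) : Zt f X := by
  obtain ⟨hm, K, hK⟩ := hX
  have hK0 : 0 ≤ K := (norm_nonneg _).trans (hK 0 0)
  unfold Zt
  rw [Metric.tendsto_atTop]
  intro η hη
  obtain ⟨g, hg, hfg⟩ := nice_dense hf (η := η / 2 / (K + 1)) (by positivity)
  obtain ⟨N, hN⟩ := (Metric.tendsto_atTop.1 (h g hg)) (η / 2) (by positivity)
  refine ⟨N, fun k hk => ?_⟩
  have h1 := hN k hk
  rw [dist_zero_right] at h1 ⊢
  have i1 := (show BM X from ⟨hm, K, hK⟩).int hf k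
  have i2 := (show BM X from ⟨hm, K, hK⟩).int hg.i k
  have e1 : ∫ E, f E * X k E = (∫ E, (f E - g E) * X k E) + ∫ E, g E * X k E := by
    have i3 : Integrable fun E => (f E - g E) * X k E :=
      (show BM X from ⟨hm, K, hK⟩).int (hf.sub hg.i) k
    rw [← integral_add i3 i2]
    refine integral_congr_ae (Eventually.of_forall fun E => ?_)
    simp only
    ring
  have e2 : ‖∫ E, (f E - g E) * X k E‖ ≤ (∫ E, ‖f E - g E‖) * K := by
    rw [← integral_mul_const]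
    refine norm_integral_le_of_norm_le ((hf.sub hg.i).norm.mul_const K)
      (Eventually.of_forall fun E => ?_)
    rw [norm_mul]
    exact mul_le_mul_of_nonneg_left (hK k E) (norm_nonneg _)
  have e3 : (∫ E, ‖f E - g E‖) * K ≤ η / 2 := by
    have h0 : 0 ≤ ∫ E, ‖f E - g E‖ := integral_nonneg fun _ => norm_nonneg _
    calc (∫ E, ‖f E - g E‖) * K ≤ (η / 2 / (K + 1)) * (K + 1) := by
          refine mul_le_mul hfg (by linarith) hK0 (by positivity)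
      _ = η / 2 := by field_simp
  rw [e1]
  calc _ ≤ ‖∫ E, (f E - g E) * X k E‖ + ‖∫ E, g E * X k E‖ := norm_add_le _ _
    _ < η := by linarith

lemma fubK {h w₁ w₂ : ℝ → ℂ} (hm : Measurable h) (h1m : Measurable w₁) (h2m : Measurable w₂)
    {c : ℝ} (hc : ∀ E κ : ℝ, ‖h E * ((w₁ E - κ) * (w₂ E - κ))⁻¹‖ ≤ c) {f : ℝ → ℂ}
    (hf : Integrable f) (hb : Measurable b) (hB : ∀ κ, ‖b κ‖ ≤ B) :
    ∫ E, f E * (h E * Kf ρ b (w₁ E) (w₂ E)) =
      ∫ κ : ℝ, b κ * (∫ E : ℝ, f E * (h E * ((w₁ E - κ) * (w₂ E - κ))⁻¹)) ∂ρ := by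
  have hB0 : 0 ≤ B := (norm_nonneg _).trans (hB 0)
  have hc0 : 0 ≤ c := (norm_nonneg _).trans (hc 0 0)
  have e1 : ∀ E, f E * (h E * Kf ρ b (w₁ E) (w₂ E)) =
      ∫ κ : ℝ, (b κ * (h E * ((w₁ E - κ) * (w₂ E - κ))⁻¹)) * f E ∂ρ := by
    intro E
    unfold Kf
    rw [← integral_const_mul, ← integral_const_mul]
    refine integral_congr_ae (Eventually.of_forall fun κ => ?_)
    simp only
    ring
  simp only [e1]
  have mk : Measurable fun p : ℝ × ℝ => h p.1 * ((w₁ p.1 - p.2) * (w₂ p.1 - p.2))⁻¹ := by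
    have m1 := (ker_meas (b := fun _ => (1 : ℂ)) measurable_const h1m h2m).measurable
    simp only [one_mul] at m1
    exact (hm.comp measurable_fst).mul m1
  have hi : Integrable (fun p : ℝ × ℝ => (b p.2 * (h p.1 * ((w₁ p.1 - p.2) * (w₂ p.1 - p.2))⁻¹)) *
      f p.1) (volume.prod ρ) := by
    have h1 : Integrable (fun p : ℝ × ℝ => f p.1 * (1 : ℂ)) (volume.prod ρ) :=
      hf.mul_prod (integrable_const 1)
    simp only [mul_one] at h1
    refine h1.bdd_mul (c := B * c) ((hb.comp measurable_snd).mul mk).aestronglyMeasurable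
      (Eventually.of_forall fun p => ?_)
    rw [norm_mul]
    exact mul_le_mul (hB _) (hc _ _) (norm_nonneg _) hB0
  have hs := integral_integral_swap (f := fun (E κ : ℝ) =>
    (b κ * (h E * ((w₁ E - κ) * (w₂ E - κ))⁻¹)) * f E) hi
  rw [hs]
  refine integral_congr_ae (Eventually.of_forall fun κ => ?_)
  simp only
  rw [← integral_const_mul]
  refine integral_congr_ae (Eventually.of_forall fun E => ?_)
  simp only
  ring

end gen

variable {ι : Type}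

theorem rz_La' {W : UG (L2 ι)} {T : L2 ι →L[ℂ] L2 ι} (hT : IsSelfAdjoint T) (h : Gen W T)
    {ε : ℝ} (hε : 0 < ε) (E : ℝ) (x : L2 ι) :
    Rz T (conj ((E : ℂ) + (ε : ℂ) * Complex.I)) x = -(Complex.I • La (rev W) x (-E) ε) := by
  have h1 := rz_La hT.neg h.rev hε (-E) x
  rw [← h1]
  symm
  set z : ℂ := (E : ℂ) + (ε : ℂ) * Complex.I with hz
  set z' : ℂ := ((-E : ℝ) : ℂ) + (ε : ℂ) * Complex.I with hz'
  have e1 : conj z = -z' := by
    rw [hz, hz']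
    simp only [map_add, map_mul, Complex.conj_ofReal, Complex.conj_I]
    push_cast
    ring
  have hzi : (conj z).im ≠ 0 := by
    rw [hz]
    simp [hε.ne']
  have hzi' : z'.im ≠ 0 := by
    rw [hz']
    simp [hε.ne']
  refine rz_uniq T hT (conj z) hzi _ _ ?_
  have h2 := rz_eq (-T) hT.neg z' hzi' x
  rw [_root_.neg_apply] at h2
  rw [map_neg, smul_neg, e1, neg_smul, neg_neg]
  exact h2

/-- The data of the fibre. -/
structure Fib (T T' : L2 ι →L[ℂ] L2 ι) (e : L2 ι) (a : ℝ) (U U' : ℝ → UG (L2 ι)) : Prop where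
  sa : IsSelfAdjoint T
  sa' : IsSelfAdjoint T'
  he : ‖e‖ = 1
  ha : a ≠ 0
  gen : ∀ κ, Gen (U κ) (pt T e κ)
  gen' : ∀ κ, Gen (U' κ) (pt T' e (a * κ))
  nd : ∃ y₀ : ℝ, 0 < y₀ ∧ wf T' e ((y₀ : ℂ) * Complex.I) ≠ a * wf T e ((y₀ : ℂ) * Complex.I)

namespace Fib

variable {T T' : L2 ι →L[ℂ] L2 ι} {e : L2 ι} {a : ℝ} {U U' : ℝ → UG (L2 ι)}

lemma e0 (F : Fib T T' e a U U') : e ≠ 0 := by
  intro h
  have := F.he
  rw [h, norm_zero] at this
  exact zero_ne_one this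

/-- the numerators -/
noncomputable def nk (T T' : L2 ι →L[ℂ] L2 ι) (e : L2 ι) (a : ℝ) (v : L2 ι →L[ℂ] L2 ι) (j : ℕ)
    (z : ℂ) : ℂ := (ep j : ℂ) * ⟪uf T' e z, v (uf T e z)⟫_ℂ / a

lemma ep_pos (j : ℕ) : 0 < ep j := by unfold ep; positivity

lemma zk_im (E : ℝ) (j : ℕ) : (zk E j).im = ep j := by unfold zk; simp

lemma zk_ne (E : ℝ) (j : ℕ) : (zk E j).im ≠ 0 := by rw [zk_im]; exact (ep_pos j).ne'

lemma czk_ne (E : ℝ) (j : ℕ) : (conj (zk E j)).im ≠ 0 := by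
  rw [Complex.conj_im]; exact neg_ne_zero.2 (zk_ne E j)

lemma zk_cont (j : ℕ) : Continuous fun E : ℝ => zk E j := by
  unfold zk
  fun_prop

lemma wf_pos (F : Fib T T' e a U U') (E : ℝ) (j : ℕ) : 0 < (wf T e (zk E j)).im := by
  have h1 := wf_im F.sa F.e0 (zk_ne E j)
  have h2 := wf_ne F.sa F.e0 (zk_ne E j)
  refine lt_of_le_of_ne ?_ (Ne.symm h2)
  rw [h1, zk_im]
  have := ep_pos j
  positivity

lemma wf_pos' (F : Fib T T' e a U U') (E : ℝ) (j : ℕ) : 0 < (wf T' e (zk E j)).im := by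
  have h1 := wf_im F.sa' F.e0 (zk_ne E j)
  have h2 := wf_ne F.sa' F.e0 (zk_ne E j)
  refine lt_of_le_of_ne ?_ (Ne.symm h2)
  rw [h1, zk_im]
  have := ep_pos j
  positivity

lemma w2_im (T' : L2 ι →L[ℂ] L2 ι) (e : L2 ι) (a : ℝ) (E : ℝ) (j : ℕ) :
    (wf T' e (zk E j) / a).im = (wf T' e (zk E j)).im / a := by
  rw [Complex.div_ofReal_im]

lemma w2_ne (F : Fib T T' e a U U') (E : ℝ) (j : ℕ) : (wf T' e (zk E j) / a).im ≠ 0 := by
  rw [w2_im]
  exact div_ne_zero (F.wf_pos' E j).ne' F.ha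

/-- the norm bound of the numerators -/
lemma nk_bd (F : Fib T T' e a U U') (v : L2 ι →L[ℂ] L2 ι) (E : ℝ) (j : ℕ) {z : ℂ}
    (hz : z.im ≠ 0) (hzj : |z.im| = ep j)
    (h1 : |(wf T e z).im| = |(wf T e (zk E j)).im|)
    (h2 : |(wf T' e z).im| = |(wf T' e (zk E j)).im|) :
    ‖nk T T' e a v j z‖ ≤ ‖v‖ / Real.sqrt |a| *
      (Real.sqrt |(wf T e (zk E j)).im| * Real.sqrt |(wf T' e (zk E j) / a).im|) := by
  have e1 := wf_im F.sa F.e0 hz
  have e2 := wf_im F.sa' F.e0 hz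
  have ha := abs_pos.2 F.ha
  have hsa : 0 < Real.sqrt |a| := Real.sqrt_pos.2 ha
  have hep := ep_pos j
  have e3 : Real.sqrt |(wf T e (zk E j)).im| = Real.sqrt (ep j) * ‖uf T e z‖ := by
    rw [← h1, e1, abs_mul, hzj, abs_of_nonneg (sq_nonneg _), Real.sqrt_mul hep.le,
      Real.sqrt_sq (norm_nonneg _)]
  have e4 : Real.sqrt |(wf T' e (zk E j) / a).im| =
      Real.sqrt (ep j) * ‖uf T' e z‖ / Real.sqrt |a| := by
    rw [w2_im, abs_div, Real.sqrt_div (abs_nonneg _), ← h2, e2, abs_mul, hzj,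
      abs_of_nonneg (sq_nonneg _), Real.sqrt_mul hep.le, Real.sqrt_sq (norm_nonneg _)]
  rw [e3, e4]
  unfold nk
  rw [norm_div, norm_mul, Complex.norm_real, Complex.norm_real, Real.norm_of_nonneg hep.le,
    Real.norm_eq_abs]
  have e5 : ‖⟪uf T' e z, v (uf T e z)⟫_ℂ‖ ≤ ‖uf T' e z‖ * (‖v‖ * ‖uf T e z‖) :=
    (norm_inner_le_norm _ _).trans (mul_le_mul_of_nonneg_left (v.le_opNorm _) (norm_nonneg _))
  have e6 : Real.sqrt (ep j) * Real.sqrt (ep j) = ep j := Real.mul_self_sqrt hep.le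
  have e7 : Real.sqrt |a| * Real.sqrt |a| = |a| := Real.mul_self_sqrt ha.le
  calc ep j * ‖⟪uf T' e z, v (uf T e z)⟫_ℂ‖ / |a|
      ≤ ep j * (‖uf T' e z‖ * (‖v‖ * ‖uf T e z‖)) / |a| := by gcongr
    _ = (Real.sqrt (ep j) * Real.sqrt (ep j)) * (‖uf T' e z‖ * (‖v‖ * ‖uf T e z‖)) /
          (Real.sqrt |a| * Real.sqrt |a|) := by rw [e6, e7]
    _ = _ := by field_simp

lemma nk_cont (F : Fib T T' e a U U') (v : L2 ι →L[ℂ] L2 ι) (j : ℕ) {g : ℝ → ℂ}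
    (hg : Continuous g) (hz : ∀ y, (g y).im ≠ 0) :
    Continuous fun E => nk T T' e a v j (g E) := by
  unfold nk
  refine Continuous.div_const (continuous_const.mul ?_) _
  exact (cont_uf F.sa' F.e0 hg hz).inner (v.continuous.comp (cont_uf F.sa F.e0 hg hz))

/-- the kernel in terms of the resolvents of the family -/
lemma nk_ker (F : Fib T T' e a U U') (v : L2 ι →L[ℂ] L2 ι) (j : ℕ) {z : ℂ}
    (hz : z.im ≠ 0) (κ : ℝ) :
    nk T T' e a v j z * ((conj (wf T' e z / a) - κ) * (wf T e z - κ))⁻¹ =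
      (ep j : ℂ) * ⟪Rz (pt T' e (a * κ)) z e, v (Rz (pt T e κ) z e)⟫_ℂ := by
  have hac : (a : ℂ) ≠ 0 := by exact_mod_cast F.ha
  rw [rz_pt F.sa F.e0 hz, rz_pt F.sa' F.e0 hz, map_smul, inner_smul_left, inner_smul_right]
  unfold nk
  have e1 : conj ((wf T' e z - ((a * κ : ℝ) : ℂ))⁻¹) =
      (a : ℂ)⁻¹ * (conj (wf T' e z / a) - κ)⁻¹ := by
    rw [map_inv₀, map_sub, Complex.conj_ofReal, map_div₀, Complex.conj_ofReal, ← mul_inv]
    congr 1
    push_cast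
    field_simp
  rw [e1, mul_inv]
  ring

end Fib

end Pool.Agent.Helper26.Rg
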