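import Pool.Agent.Helper26.Cm.Gen

/-! # Abel averages and Laplace transforms -/

set_option autoImplicit false

open MeasureTheory Filter Topology
open scoped ENNReal NNReal ComplexConjugate InnerProductSpace

namespace Pool.Agent.Helper26.Rg

open Pool.Agent.H5R2.NB Pool.Agent.Helper26.Cm

/-- `e^{-εs}` for `s > 0` -/
noncomputable def eR (ε : ℝ) : ℝ → ℝ := (Set.Ioi (0 : ℝ)).indicator fun s => Real.exp (-ε * s)

lemma eR_nonneg (ε s : ℝ) : 0 ≤ eR ε s := Set.indicator_nonneg (fun _ _ => (Real.exp_pos _).le) _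

lemma eR_le {ε : ℝ} (hε : 0 ≤ ε) (s : ℝ) : eR ε s ≤ 1 := by
  unfold eR
  by_cases h : s ∈ Set.Ioi (0 : ℝ)
  · rw [Set.indicator_of_mem h]
    rw [Real.exp_le_one_iff]
    have : 0 < s := h
    nlinarith
  · rw [Set.indicator_of_notMem h]
    exact zero_le_one

lemma eR_meas (ε : ℝ) : Measurable (eR ε) :=
  (by fun_prop : Measurable fun s : ℝ => Real.exp (-ε * s)).indicator measurableSet_Ioi

lemma eR_int {ε : ℝ} (hε : 0 < ε) : Integrable (eR ε) := by
  unfold eR
  rw [integrable_indicator_iff measurableSet_Ioi]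
  exact integrableOn_exp_mul_Ioi (by linarith) 0

lemma eR_integral {ε : ℝ} (hε : 0 < ε) : ∫ s, eR ε s = ε⁻¹ := by
  unfold eR
  rw [integral_indicator measurableSet_Ioi, integral_exp_mul_Ioi (by linarith)]
  simp

section

variable {X : Type} [NormedAddCommGroup X] [InnerProductSpace ℂ X]

/-- the Laplace transform of an orbit -/
noncomputable def La (W : UG X) (x : X) (E ε : ℝ) : X :=
  ∫ s : ℝ, ((eR ε s : ℂ) * Complex.exp (Complex.I * E * s)) • W.U s x

/-- the Abel average of `U'(-s) v U(s)` -/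
noncomputable def aP (ε : ℝ) (W' W : UG X) (v : X →L[ℂ] X) (x : X) : X :=
  ∫ s : ℝ, ((2 * ε * eR (2 * ε) s : ℝ) : ℂ) • W'.U (-s) (v (W.U s x))

/-- the double kernel -/
noncomputable def Gd (ε : ℝ) (W' W : UG X) (v : X →L[ℂ] X) (x y : X) (s' s : ℝ) : ℂ :=
  ((eR ε s' * eR ε s : ℝ) : ℂ) * ⟪W'.U s' x, v (W.U s y)⟫_ℂ

/-- its diagonal integral -/
noncomputable def gd (ε : ℝ) (W' W : UG X) (v : X →L[ℂ] X) (x y : X) (t : ℝ) : ℂ :=
  (2 * ε : ℂ) * ∫ s : ℝ, Gd ε W' W v x y s (s + t)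

variable {W' W : UG X} {v : X →L[ℂ] X} {x y : X} {ε : ℝ}

lemma inner_bd (W' W : UG X) (v : X →L[ℂ] X) (x y : X) (s' s : ℝ) :
    ‖⟪W'.U s' x, v (W.U s y)⟫_ℂ‖ ≤ ‖v‖ * ‖x‖ * ‖y‖ := by
  refine (norm_inner_le_norm _ _).trans ?_
  rw [W'.norm']
  calc ‖x‖ * ‖v (W.U s y)‖ ≤ ‖x‖ * (‖v‖ * ‖y‖) := by
        gcongr
        refine (v.le_opNorm _).trans ?_
        rw [W.norm']
    _ = _ := by ring

lemma Gd_le (s' s : ℝ) : ‖Gd ε W' W v x y s' s‖ ≤ eR ε s' * eR ε s * (‖v‖ * ‖x‖ * ‖y‖) := by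
  unfold Gd
  rw [norm_mul, Complex.norm_real, Real.norm_of_nonneg (mul_nonneg (eR_nonneg _ _) (eR_nonneg _ _))]
  exact mul_le_mul_of_nonneg_left (inner_bd _ _ _ _ _ _ _)
    (mul_nonneg (eR_nonneg _ _) (eR_nonneg _ _))

lemma cont_in (W' W : UG X) (v : X →L[ℂ] X) (x y : X) :
    Continuous fun p : ℝ × ℝ => ⟪W'.U p.1 x, v (W.U p.2 y)⟫_ℂ :=
  ((W'.cont' x).comp continuous_fst).inner (v.continuous.comp ((W.cont' y).comp continuous_snd))

lemma Gd_meas : Measurable fun p : ℝ × ℝ => Gd ε W' W v x y p.1 p.2 := by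
  unfold Gd
  refine Measurable.mul ?_ (cont_in W' W v x y).measurable
  exact Complex.measurable_ofReal.comp (((eR_meas ε).comp measurable_fst).mul
    ((eR_meas ε).comp measurable_snd))

lemma Gd_int (hε : 0 < ε) :
    Integrable (fun p : ℝ × ℝ => Gd ε W' W v x y p.1 p.2) (volume.prod volume) := by
  have h1 : Integrable (fun p : ℝ × ℝ => eR ε p.1 * eR ε p.2 * (‖v‖ * ‖x‖ * ‖y‖))
      (volume.prod volume) := ((eR_int hε).mul_prod (eR_int hε)).mul_const _
  exact h1.mono' Gd_meas.aestronglyMeasurable (Eventually.of_forall fun p => Gd_le _ _)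

variable [CompleteSpace X]

lemma La_int (W : UG X) (x : X) (E : ℝ) (hε : 0 < ε) :
    Integrable fun s : ℝ => ((eR ε s : ℂ) * Complex.exp (Complex.I * E * s)) • W.U s x := by
  have h1 : Integrable fun s : ℝ => eR ε s * ‖x‖ := (eR_int hε).mul_const _
  refine h1.mono' ?_ (Eventually.of_forall fun s => ?_)
  · refine AEStronglyMeasurable.smul ?_ (W.cont' x).aestronglyMeasurable
    exact ((Complex.measurable_ofReal.comp (eR_meas ε)).mul (by fun_prop)).aestronglyMeasurable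
  · rw [norm_smul, W.norm', norm_mul, Complex.norm_real, Real.norm_of_nonneg (eR_nonneg _ _)]
    have e1 : Complex.I * E * s = ((E * s : ℝ) : ℂ) * Complex.I := by push_cast; ring
    rw [e1, Complex.norm_exp_ofReal_mul_I, mul_one]

lemma inner_La (E : ℝ) (hε : 0 < ε) :
    ⟪La W' x E ε, v (La W y E ε)⟫_ℂ =
      ∫ p : ℝ × ℝ, Complex.exp (Complex.I * E * (p.2 - p.1)) * Gd ε W' W v x y p.1 p.2
        ∂(volume.prod volume) := by
  have i1 := La_int W' x E hε
  have i2 := La_int W y E hε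
  have e1 : ∀ b : X, ⟪La W' x E ε, b⟫_ℂ =
      ∫ s : ℝ, ⟪((eR ε s : ℂ) * Complex.exp (Complex.I * E * s)) • W'.U s x, b⟫_ℂ := by
    intro b
    unfold La
    rw [← inner_conj_symm, ← integral_inner i1 b, ← integral_conj]
    simp only [inner_conj_symm]
  have e2 : ∀ a : X, ⟪a, v (La W y E ε)⟫_ℂ =
      ∫ s : ℝ, ⟪a, v (((eR ε s : ℂ) * Complex.exp (Complex.I * E * s)) • W.U s y)⟫_ℂ := by
    intro a
    unfold La
    rw [← ContinuousLinearMap.integral_comp_comm v i2, ← integral_inner]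
    exact v.integrable_comp i2
  have e3 : ∀ s' s : ℝ, ⟪((eR ε s' : ℂ) * Complex.exp (Complex.I * E * s')) • W'.U s' x,
      v (((eR ε s : ℂ) * Complex.exp (Complex.I * E * s)) • W.U s y)⟫_ℂ =
      Complex.exp (Complex.I * E * (s - s')) * Gd ε W' W v x y s' s := by
    intro s' s
    unfold Gd
    rw [map_smul, inner_smul_left, inner_smul_right, map_mul, Complex.conj_ofReal,
      ← Complex.exp_conj]
    have e4 : conj (Complex.I * E * s') = -(Complex.I * E * s') := by
      simp only [map_mul, Complex.conj_I, Complex.conj_ofReal]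
      ring
    have e5 : Complex.exp (Complex.I * E * (s - s')) =
        Complex.exp (-(Complex.I * E * s')) * Complex.exp (Complex.I * E * s) := by
      rw [← Complex.exp_add]
      congr 1
      ring
    rw [e4, e5]
    push_cast
    ring
  rw [e1]
  simp only [e2, e3]
  rw [integral_prod]
  refine (Gd_int hε).bdd_mul (c := 1) ?_ ?_
  · exact (by fun_prop : Continuous fun p : ℝ × ℝ =>
      Complex.exp (Complex.I * E * (p.2 - p.1))).aestronglyMeasurable
  · refine Eventually.of_forall fun p => ?_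
    have e1 : Complex.I * E * (p.2 - p.1) = ((E * (p.2 - p.1) : ℝ) : ℂ) * Complex.I := by
      push_cast; ring
    rw [e1, Complex.norm_exp_ofReal_mul_I]

/-- the transform of `f` -/
noncomputable def ph (f : ℝ → ℂ) (t : ℝ) : ℂ := ∫ E : ℝ, f E * Complex.exp (Complex.I * E * t)

lemma norm_e (E t : ℝ) : ‖Complex.exp (Complex.I * E * t)‖ = 1 := by
  have e1 : Complex.I * E * t = ((E * t : ℝ) : ℂ) * Complex.I := by push_cast; ring
  rw [e1, Complex.norm_exp_ofReal_mul_I]

lemma swap1 {f : ℝ → ℂ} (hf : Integrable f) (hε : 0 < ε) :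
    ∫ E : ℝ, f E * ⟪La W' x E ε, v (La W y E ε)⟫_ℂ =
      ∫ p : ℝ × ℝ, ph f (p.2 - p.1) * Gd ε W' W v x y p.1 p.2 ∂(volume.prod volume) := by
  have h1 : ∀ E : ℝ, f E * ⟪La W' x E ε, v (La W y E ε)⟫_ℂ =
      ∫ p : ℝ × ℝ, f E * (Complex.exp (Complex.I * E * (p.2 - p.1)) *
        Gd ε W' W v x y p.1 p.2) ∂(volume.prod volume) := by
    intro E
    rw [inner_La E hε, integral_const_mul]
  simp only [h1]
  rw [integral_integral_swap]
  · refine integral_congr_ae (Eventually.of_forall fun p => ?_)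
    simp only
    unfold ph
    rw [← integral_mul_const]
    refine integral_congr_ae (Eventually.of_forall fun E => ?_)
    simp only
    push_cast
    ring
  · have h2 : Integrable (fun q : ℝ × (ℝ × ℝ) => f q.1 * Gd ε W' W v x y q.2.1 q.2.2)
        (volume.prod (volume.prod volume)) := hf.mul_prod (Gd_int hε)
    have h3 := h2.bdd_mul (c := 1) (f := fun q : ℝ × (ℝ × ℝ) =>
      Complex.exp (Complex.I * q.1 * (q.2.2 - q.2.1)))
      (by fun_prop : Continuous fun q : ℝ × (ℝ × ℝ) =>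
        Complex.exp (Complex.I * q.1 * (q.2.2 - q.2.1))).aestronglyMeasurable
      (Eventually.of_forall fun q => by
        have := norm_e q.1 (q.2.2 - q.2.1)
        push_cast at this
        exact this.le)
    refine h3.congr (Eventually.of_forall fun q => ?_)
    simp only [Function.uncurry]
    ring

lemma swap2 {φ : ℝ → ℂ} (hφ : Integrable φ) (hφm : Measurable φ) (hε : 0 < ε) :
    ∫ p : ℝ × ℝ, φ (p.2 - p.1) * Gd ε W' W v x y p.1 p.2 ∂(volume.prod volume) =
      ∫ t : ℝ, φ t * ∫ s : ℝ, Gd ε W' W v x y s (s + t) := by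
  obtain ⟨Cb, hCb⟩ : ∃ Cb : ℝ, Cb = ‖v‖ * ‖x‖ * ‖y‖ := ⟨_, rfl⟩
  have hCb0 : 0 ≤ Cb := by rw [hCb]; positivity
  have m1 : Measurable fun q : ℝ × ℝ => φ q.2 * Gd ε W' W v x y q.1 (q.1 + q.2) :=
    (hφm.comp measurable_snd).mul (Gd_meas.comp (measurable_fst.prodMk
      (measurable_fst.add measurable_snd)))
  have i1 : Integrable (fun q : ℝ × ℝ => φ q.2 * Gd ε W' W v x y q.1 (q.1 + q.2))
      (volume.prod volume) := by
    have h1 : Integrable (fun q : ℝ × ℝ => eR ε q.1 * (‖φ q.2‖ * Cb)) (volume.prod volume) :=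
      (eR_int hε).mul_prod (hφ.norm.mul_const Cb)
    refine h1.mono' m1.aestronglyMeasurable (Eventually.of_forall fun q => ?_)
    rw [norm_mul]
    have h2 := Gd_le (ε := ε) (W' := W') (W := W) (v := v) (x := x) (y := y) q.1 (q.1 + q.2)
    rw [← hCb] at h2
    have h3 := eR_le hε.le (q.1 + q.2)
    have h4 := eR_nonneg ε q.1
    have h5 := eR_nonneg ε (q.1 + q.2)
    calc ‖φ q.2‖ * ‖Gd ε W' W v x y q.1 (q.1 + q.2)‖
        ≤ ‖φ q.2‖ * (eR ε q.1 * eR ε (q.1 + q.2) * Cb) := by gcongr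
      _ ≤ ‖φ q.2‖ * (eR ε q.1 * 1 * Cb) := by gcongr
      _ = _ := by ring
  have m2 : Measurable fun p : ℝ × ℝ => φ (p.2 - p.1) * Gd ε W' W v x y p.1 p.2 :=
    (hφm.comp (measurable_snd.sub measurable_fst)).mul Gd_meas
  have hsh : MeasurePreserving (fun q : ℝ × ℝ => (q.1, q.1 + q.2)) (volume.prod volume)
      (volume.prod volume) := measurePreserving_prod_add (volume : Measure ℝ) volume
  have i2 : Integrable (fun p : ℝ × ℝ => φ (p.2 - p.1) * Gd ε W' W v x y p.1 p.2)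
      (volume.prod volume) := by
    rw [← hsh.integrable_comp m2.aestronglyMeasurable]
    refine i1.congr (Eventually.of_forall fun q => ?_)
    simp only [Function.comp_apply, add_sub_cancel_left]
  rw [integral_prod _ i2]
  have h3 : ∀ s : ℝ, ∫ s' : ℝ, φ (s' - s) * Gd ε W' W v x y s s' =
      ∫ t : ℝ, φ t * Gd ε W' W v x y s (s + t) := by
    intro s
    rw [← integral_add_left_eq_self (fun s' => φ (s' - s) * Gd ε W' W v x y s s') s]
    refine integral_congr_ae (Eventually.of_forall fun t => ?_)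
    simp only [add_sub_cancel_left]
  simp only [h3]
  rw [integral_integral_swap i1]
  refine integral_congr_ae (Eventually.of_forall fun t => ?_)
  simp only
  rw [integral_const_mul]

omit [CompleteSpace X] in
lemma adjU (W : UG X) (t : ℝ) (x y : X) : ⟪W.U t x, y⟫_ℂ = ⟪x, W.U (-t) y⟫_ℂ := by
  let f : X →ₗᵢ[ℂ] X := ⟨(W.U t).toLinearMap, W.norm' t⟩
  have h := f.inner_map_map x (W.U (-t) y)
  have h2 : y = W.U t (W.U (-t) y) := by rw [← W.add', add_neg_cancel, W.zero']
  nth_rewrite 1 [h2]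
  exact h

lemma aP_int (W' W : UG X) (v : X →L[ℂ] X) (x : X) (hε : 0 < ε) :
    Integrable fun s : ℝ => ((2 * ε * eR (2 * ε) s : ℝ) : ℂ) • W'.U (-s) (v (W.U s x)) := by
  have h1 : Integrable fun s : ℝ => 2 * ε * eR (2 * ε) s * (‖v‖ * ‖x‖) :=
    ((eR_int (by linarith : 0 < 2 * ε)).const_mul _).mul_const _
  refine h1.mono' ?_ (Eventually.of_forall fun s => ?_)
  · have m1 : AEStronglyMeasurable (fun s : ℝ => ((2 * ε * eR (2 * ε) s : ℝ) : ℂ)) volume :=
      (Complex.measurable_ofReal.comp ((eR_meas (2 * ε)).const_mul _)).aestronglyMeasurable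
    exact m1.smul (cont_gP W' W v x).aestronglyMeasurable
  · rw [norm_smul, Complex.norm_real, Real.norm_of_nonneg
      (mul_nonneg (by linarith) (eR_nonneg _ _))]
    exact mul_le_mul_of_nonneg_left (norm_g W' W v x _ _)
      (mul_nonneg (by linarith) (eR_nonneg _ _))

lemma aP_norm (W' W : UG X) (v : X →L[ℂ] X) (x : X) (hε : 0 < ε) :
    ‖aP ε W' W v x‖ ≤ ‖v‖ * ‖x‖ := by
  have h1 : ‖aP ε W' W v x‖ ≤ ∫ s : ℝ, 2 * ε * eR (2 * ε) s * (‖v‖ * ‖x‖) := by
    unfold aP
    refine norm_integral_le_of_norm_le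
      (((eR_int (by linarith : 0 < 2 * ε)).const_mul _).mul_const _)
      (Eventually.of_forall fun s => ?_)
    rw [norm_smul, Complex.norm_real, Real.norm_of_nonneg
      (mul_nonneg (by linarith) (eR_nonneg _ _))]
    exact mul_le_mul_of_nonneg_left (norm_g W' W v x _ _)
      (mul_nonneg (by linarith) (eR_nonneg _ _))
  rw [integral_mul_const, integral_const_mul, eR_integral (by linarith)] at h1
  rwa [mul_inv_cancel₀ (by positivity), one_mul] at h1

lemma inner_aP (hε : 0 < ε) (W' W : UG X) (v : X →L[ℂ] X) (x y : X) :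
    ⟪x, aP ε W' W v y⟫_ℂ =
      ∫ s : ℝ, ((2 * ε * eR (2 * ε) s : ℝ) : ℂ) * ⟪W'.U s x, v (W.U s y)⟫_ℂ := by
  unfold aP
  rw [← integral_inner (𝕜 := ℂ) (aP_int W' W v y hε)]
  refine integral_congr_ae (Eventually.of_forall fun s => ?_)
  simp only
  rw [inner_smul_right, adjU W' s]

lemma fun_La (L : X →L[ℂ] ℂ) (W : UG X) (x : X) (E : ℝ) (hε : 0 < ε) :
    L (La W x E ε) = ∫ s : ℝ, ((eR ε s : ℂ) * Complex.exp (Complex.I * E * s)) * L (W.U s x) := by
  unfold La
  rw [← ContinuousLinearMap.integral_comp_comm L (La_int W x E hε)]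
  refine integral_congr_ae (Eventually.of_forall fun s => ?_)
  simp only
  rw [map_smul, smul_eq_mul]

end

end Pool.Agent.Helper26.Rg
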