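import Pool.Agent.Helper26.Rg.Abl
import Pool.Agent.Helper26.Dj.Avg

/-! # Energy integrals of resolvents and Abel averages -/

set_option autoImplicit false

open MeasureTheory Filter Topology
open scoped ENNReal NNReal ComplexConjugate InnerProductSpace

namespace Pool.Agent.Helper26.Rg

open Pool.Agent.H5R2.NB Pool.Agent.Helper26.Cm Pool.Agent.Helper26.Dj

variable {ι : Type} {W' W : UG (L2 ι)} {v : L2 ι →L[ℂ] L2 ι} {x y : L2 ι} {ε : ℝ}

lemma gd_le (hε : 0 < ε) (t : ℝ) :
    ‖gd ε W' W v x y t‖ ≤ 2 * (‖v‖ * ‖x‖ * ‖y‖) := by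
  obtain ⟨Cb, hCb⟩ : ∃ Cb : ℝ, Cb = ‖v‖ * ‖x‖ * ‖y‖ := ⟨_, rfl⟩
  have hCb0 : 0 ≤ Cb := by rw [hCb]; positivity
  unfold gd
  have h1 : ‖∫ s : ℝ, Gd ε W' W v x y s (s + t)‖ ≤ ∫ s : ℝ, eR ε s * Cb := by
    refine norm_integral_le_of_norm_le ((eR_int hε).mul_const Cb) (Eventually.of_forall fun s => ?_)
    have h2 := Gd_le (ε := ε) (W' := W') (W := W) (v := v) (x := x) (y := y) s (s + t)
    rw [← hCb] at h2
    have h3 := eR_le hε.le (s + t)
    have h4 := eR_nonneg ε s
    have h5 := eR_nonneg ε (s + t)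
    calc _ ≤ eR ε s * eR ε (s + t) * Cb := h2
      _ ≤ eR ε s * 1 * Cb := by gcongr
      _ = _ := by ring
  rw [integral_mul_const, eR_integral hε] at h1
  rw [norm_mul, ← hCb]
  have e1 : ‖(2 * ε : ℂ)‖ = 2 * ε := by
    rw [norm_mul, Complex.norm_real, Real.norm_of_nonneg hε.le]
    simp
  rw [e1]
  calc 2 * ε * ‖∫ s : ℝ, Gd ε W' W v x y s (s + t)‖ ≤ 2 * ε * (ε⁻¹ * Cb) := by gcongr
    _ = 2 * Cb := by field_simp

/-- Abel averages with both signs of the time converge to `B` -/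
def AGood (W' W : UG (L2 ι)) (v : L2 ι →L[ℂ] L2 ι) (ek : ℕ → ℝ) (B : L2 ι →L[ℂ] L2 ι) : Prop :=
  ∀ x, Tendsto (fun k => aP (ek k) W' W v x) atTop (𝓝 (B x)) ∧
    Tendsto (fun k => aP (ek k) (rev W') (rev W) v x) atTop (𝓝 (B x))

lemma gd_diff (hε : 0 < ε) (t : ℝ) :
    ‖gd ε W' W v x y t - (Real.exp (-ε * t) : ℂ) * ⟪x, aP ε W' W v (W.U t y)⟫_ℂ‖ ≤
      2 * ε * Real.exp (ε * |t|) * |t| * (‖v‖ * ‖x‖ * ‖y‖) := by
  obtain ⟨Cb, hCb⟩ : ∃ Cb : ℝ, Cb = ‖v‖ * ‖x‖ * ‖y‖ := ⟨_, rfl⟩
  have hCb0 : 0 ≤ Cb := by rw [hCb]; positivity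
  rw [inner_aP hε, gd, ← integral_const_mul, ← integral_const_mul]
  have i1 : Integrable fun s : ℝ => (2 * ε : ℂ) * Gd ε W' W v x y s (s + t) := by
    refine Integrable.const_mul ?_ _
    refine ((eR_int hε).mul_const Cb).mono' ?_ (Eventually.of_forall fun s => ?_)
    · exact (Gd_meas.comp (measurable_id.prodMk (measurable_id.add_const t))).aestronglyMeasurable
    · have h2 := Gd_le (ε := ε) (W' := W') (W := W) (v := v) (x := x) (y := y) s (s + t)
      rw [← hCb] at h2
      have h3 := eR_le hε.le (s + t)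
      have h4 := eR_nonneg ε s
      have h5 := eR_nonneg ε (s + t)
      calc _ ≤ eR ε s * eR ε (s + t) * Cb := h2
        _ ≤ eR ε s * 1 * Cb := by gcongr
        _ = _ := by ring
  have i2 : Integrable fun s : ℝ => (Real.exp (-ε * t) : ℂ) *
      (((2 * ε * eR (2 * ε) s : ℝ) : ℂ) * ⟪W'.U s x, v (W.U s (W.U t y))⟫_ℂ) := by
    refine Integrable.const_mul ?_ _
    have h1 : Integrable fun s : ℝ => 2 * ε * eR (2 * ε) s * Cb :=
      ((eR_int (by linarith : 0 < 2 * ε)).const_mul _).mul_const _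
    refine h1.mono' ?_ (Eventually.of_forall fun s => ?_)
    · refine AEStronglyMeasurable.mul ?_ ?_
      · exact (Complex.measurable_ofReal.comp
          ((eR_meas (2 * ε)).const_mul _)).aestronglyMeasurable
      · exact ((cont_in W' W v x (W.U t y)).comp
          (continuous_id.prodMk continuous_id)).aestronglyMeasurable
    · rw [norm_mul, Complex.norm_real, Real.norm_of_nonneg
        (mul_nonneg (by linarith) (eR_nonneg _ _))]
      refine mul_le_mul_of_nonneg_left ?_ (mul_nonneg (by linarith) (eR_nonneg _ _))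
      have := inner_bd W' W v x (W.U t y) s s
      rwa [W.norm', ← hCb] at this
  rw [← integral_sub i1 i2]
  have h1 : ‖∫ s : ℝ, ((2 * ε : ℂ) * Gd ε W' W v x y s (s + t) - (Real.exp (-ε * t) : ℂ) *
      (((2 * ε * eR (2 * ε) s : ℝ) : ℂ) * ⟪W'.U s x, v (W.U s (W.U t y))⟫_ℂ))‖ ≤
      ∫ s : ℝ, (Set.Icc (0 : ℝ) |t|).indicator
        (fun _ => 2 * ε * Real.exp (ε * |t|) * Cb) s := by
    refine norm_integral_le_of_norm_le ?_ (Eventually.of_forall fun s => ?_)
    · rw [integrable_indicator_iff measurableSet_Icc]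
      exact integrableOn_const (by simp)
    · have e0 : W.U (s + t) y = W.U s (W.U t y) := W.add' s t y
      have e1 : (2 * ε : ℂ) * Gd ε W' W v x y s (s + t) - (Real.exp (-ε * t) : ℂ) *
          (((2 * ε * eR (2 * ε) s : ℝ) : ℂ) * ⟪W'.U s x, v (W.U s (W.U t y))⟫_ℂ) =
          ((2 * ε * (eR ε s * eR ε (s + t) - Real.exp (-ε * t) * eR (2 * ε) s) : ℝ) : ℂ) *
            ⟪W'.U s x, v (W.U s (W.U t y))⟫_ℂ := by
        unfold Gd
        rw [e0]
        push_cast
        ring
      rw [e1, norm_mul]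
      have h2 := inner_bd W' W v x (W.U t y) s s
      rw [W.norm', ← hCb] at h2
      by_cases hs : 0 < s
      · by_cases hst : 0 < s + t
        · have e2 : eR ε s * eR ε (s + t) - Real.exp (-ε * t) * eR (2 * ε) s = 0 := by
            unfold eR
            rw [Set.indicator_of_mem (show s ∈ Set.Ioi (0 : ℝ) from hs),
              Set.indicator_of_mem (show s + t ∈ Set.Ioi (0 : ℝ) from hst),
              Set.indicator_of_mem (show s ∈ Set.Ioi (0 : ℝ) from hs), ← Real.exp_add,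
              ← Real.exp_add, sub_eq_zero]
            congr 1
            ring
          rw [e2]
          simp only [mul_zero, Complex.ofReal_zero, norm_zero, zero_mul]
          refine Set.indicator_nonneg (fun _ _ => by positivity) _
        · have ht : t < 0 := by linarith
          have e2 : eR ε (s + t) = 0 := by
            unfold eR
            exact Set.indicator_of_notMem (show ¬ (s + t ∈ Set.Ioi (0 : ℝ)) from hst) _
          have hmem : s ∈ Set.Icc (0 : ℝ) |t| := by
            rw [abs_of_neg ht]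
            exact ⟨hs.le, by linarith⟩
          rw [Set.indicator_of_mem hmem, e2, mul_zero, zero_sub, mul_neg, Complex.ofReal_neg,
            norm_neg, Complex.norm_real, Real.norm_of_nonneg (by
              have := eR_nonneg (2 * ε) s
              positivity)]
          have h3 := eR_le (by linarith : 0 ≤ 2 * ε) s
          have h4 := eR_nonneg (2 * ε) s
          have e3 : -ε * t = ε * |t| := by rw [abs_of_neg ht]; ring
          rw [e3]
          have h5 : 0 < Real.exp (ε * |t|) := Real.exp_pos _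
          calc 2 * ε * (Real.exp (ε * |t|) * eR (2 * ε) s) *
              ‖⟪W'.U s x, v (W.U s (W.U t y))⟫_ℂ‖
              ≤ 2 * ε * (Real.exp (ε * |t|) * 1) * Cb := by gcongr
            _ = _ := by ring
      · have e2 : eR ε s = 0 := by
          unfold eR
          exact Set.indicator_of_notMem (show ¬ (s ∈ Set.Ioi (0 : ℝ)) from hs) _
        have e3 : eR (2 * ε) s = 0 := by
          unfold eR
          exact Set.indicator_of_notMem (show ¬ (s ∈ Set.Ioi (0 : ℝ)) from hs) _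
        rw [e2, e3]
        simp only [zero_mul, mul_zero, sub_zero, Complex.ofReal_zero, norm_zero]
        refine Set.indicator_nonneg (fun _ _ => by positivity) _
  refine h1.trans (le_of_eq ?_)
  rw [integral_indicator measurableSet_Icc, setIntegral_const, ← hCb]
  rw [measureReal_def, Real.volume_Icc, sub_zero, ENNReal.toReal_ofReal (abs_nonneg _), smul_eq_mul]
  ring

theorem gd_lim {ek : ℕ → ℝ} (hek : ∀ k, 0 < ek k) (hek0 : Tendsto ek atTop (𝓝 0))
    {B : L2 ι →L[ℂ] L2 ι} (hB : ∀ x, Tendsto (fun k => aP (ek k) W' W v x) atTop (𝓝 (B x)))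
    (t : ℝ) : Tendsto (fun k => gd (ek k) W' W v x y t) atTop (𝓝 ⟪x, B (W.U t y)⟫_ℂ) := by
  have h1 : Tendsto (fun k => (Real.exp (-ek k * t) : ℂ) *
      ⟪x, aP (ek k) W' W v (W.U t y)⟫_ℂ) atTop (𝓝 ⟪x, B (W.U t y)⟫_ℂ) := by
    have h2 : Tendsto (fun k => ((Real.exp (-ek k * t) : ℝ) : ℂ)) atTop (𝓝 ((1 : ℝ) : ℂ)) := by
      refine (Complex.continuous_ofReal.tendsto _).comp ?_
      have h3 : Tendsto (fun k => -ek k * t) atTop (𝓝 0) := by
        have := (hek0.neg).mul_const t
        rwa [neg_zero, zero_mul] at this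
      have := (Real.continuous_exp.tendsto _).comp h3
      rwa [Real.exp_zero] at this
    have h4 := ((innerSL ℂ x).continuous.tendsto _).comp (hB (W.U t y))
    have h5 := h2.mul h4
    rw [Complex.ofReal_one, one_mul] at h5
    exact h5
  have h6 : Tendsto (fun k => gd (ek k) W' W v x y t - (Real.exp (-ek k * t) : ℂ) *
      ⟪x, aP (ek k) W' W v (W.U t y)⟫_ℂ) atTop (𝓝 0) := by
    rw [tendsto_zero_iff_norm_tendsto_zero]
    refine squeeze_zero (fun _ => norm_nonneg _) (fun k => gd_diff (hek k) t) ?_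
    have h7 : Tendsto (fun k => Real.exp (ek k * |t|)) atTop (𝓝 1) := by
      have := (Real.continuous_exp.tendsto _).comp (hek0.mul_const |t|)
      rwa [zero_mul, Real.exp_zero] at this
    have h8 := (((hek0.const_mul 2).mul h7).mul_const |t|).mul_const (‖v‖ * ‖x‖ * ‖y‖)
    rw [mul_zero, zero_mul, zero_mul, zero_mul] at h8
    exact h8
  have h7 := h6.add h1
  rw [zero_add] at h7
  refine h7.congr fun k => ?_
  ring

/-- energy integral as a time integral -/
theorem en_eq {f : ℝ → ℂ} (hf : Integrable f) (hφ : Integrable (ph f))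
    (hφm : Measurable (ph f)) (hε : 0 < ε) :
    (2 * ε : ℂ) * ∫ E : ℝ, f E * ⟪La W' x E ε, v (La W y E ε)⟫_ℂ =
      ∫ t : ℝ, ph f t * gd ε W' W v x y t := by
  rw [swap1 hf hε, swap2 hφ hφm hε, ← integral_const_mul]
  refine integral_congr_ae (Eventually.of_forall fun t => ?_)
  simp only
  unfold gd
  ring

theorem en_le {f : ℝ → ℂ} (hf : Integrable f) (hφ : Integrable (ph f))
    (hφm : Measurable (ph f)) (hε : 0 < ε) :
    ‖(2 * ε : ℂ) * ∫ E : ℝ, f E * ⟪La W' x E ε, v (La W y E ε)⟫_ℂ‖ ≤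
      (∫ t : ℝ, ‖ph f t‖) * (2 * (‖v‖ * ‖x‖ * ‖y‖)) := by
  rw [en_eq hf hφ hφm hε, ← integral_mul_const]
  refine norm_integral_le_of_norm_le (hφ.norm.mul_const _) (Eventually.of_forall fun t => ?_)
  rw [norm_mul]
  exact mul_le_mul_of_nonneg_left (gd_le hε t) (norm_nonneg _)

lemma gd_meas : Measurable fun t => gd ε W' W v x y t := by
  unfold gd
  refine Measurable.const_mul ?_ _
  have h1 : StronglyMeasurable fun q : ℝ × ℝ => Gd ε W' W v x y q.2 (q.2 + q.1) :=
    (Gd_meas.comp (measurable_snd.prodMk (measurable_snd.add measurable_fst))).stronglyMeasurable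
  exact (h1.integral_prod_right (f := fun t s => Gd ε W' W v x y s (s + t))).measurable

theorem en_lim {f : ℝ → ℂ} (hf : Integrable f) (hφ : Integrable (ph f))
    (hφm : Measurable (ph f)) {ek : ℕ → ℝ} (hek : ∀ k, 0 < ek k)
    (hek0 : Tendsto ek atTop (𝓝 0)) {B : L2 ι →L[ℂ] L2 ι}
    (hB : ∀ x, Tendsto (fun k => aP (ek k) W' W v x) atTop (𝓝 (B x))) :
    Tendsto (fun k => (2 * ek k : ℂ) *
      ∫ E : ℝ, f E * ⟪La W' x E (ek k), v (La W y E (ek k))⟫_ℂ) atTop
      (𝓝 (∫ t : ℝ, ph f t * ⟪x, B (W.U t y)⟫_ℂ)) := by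
  simp only [fun k => en_eq (W' := W') (W := W) (v := v) (x := x) (y := y) hf hφ hφm (hek k)]
  refine tendsto_integral_of_dominated_convergence
    (fun t => ‖ph f t‖ * (2 * (‖v‖ * ‖x‖ * ‖y‖))) (fun k => ?_) (hφ.norm.mul_const _)
    (fun k => Eventually.of_forall fun t => ?_) (Eventually.of_forall fun t => ?_)
  · exact (hφm.mul (gd_meas)).aestronglyMeasurable
  · rw [norm_mul]
    exact mul_le_mul_of_nonneg_left (gd_le (hek k) t) (norm_nonneg _)
  · exact (gd_lim hek hek0 hB t).const_mul _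

end Pool.Agent.Helper26.Rg
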