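import Pool.Agent.Helper26.Rg.Abl
import Pool.Agent.Helper26.Dj.Avg

/-! # From Cesaro to Abel averages in mean square -/

set_option autoImplicit false

open MeasureTheory Filter Topology
open scoped ENNReal NNReal ComplexConjugate InnerProductSpace

namespace Pool.Agent.Helper26.Rg

open Pool.Agent.H5R2.NB Pool.Agent.Helper26.Nb Pool.Agent.Helper26.Cm Pool.Agent.Helper26.Dj

section det

variable {X : Type} [NormedAddCommGroup X] [InnerProductSpace ℂ X] [CompleteSpace X]

lemma texp_le {r : ℝ} (hr : 0 < r) (t : ℝ) :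
    t * Real.exp (-r * t) ≤ (2 / r) * Real.exp (-(r / 2) * t) := by
  have h1 : r / 2 * t ≤ Real.exp (r / 2 * t) := by
    have := Real.add_one_le_exp (r / 2 * t)
    linarith
  have h2 : Real.exp (-(r / 2) * t) = Real.exp (r / 2 * t) * Real.exp (-r * t) := by
    rw [← Real.exp_add]
    congr 1
    ring
  rw [h2]
  have h3 : t ≤ 2 / r * Real.exp (r / 2 * t) := by
    have : t = 2 / r * (r / 2 * t) := by field_simp
    rw [this]
    have : r / 2 * (2 / r * (r / 2 * t)) = r / 2 * t := by field_simp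
    rw [this]
    gcongr
  calc t * Real.exp (-r * t) ≤ (2 / r * Real.exp (r / 2 * t)) * Real.exp (-r * t) := by gcongr
    _ = _ := by ring

lemma texp_int {r : ℝ} (hr : 0 < r) :
    IntegrableOn (fun t : ℝ => t * Real.exp (-r * t)) (Set.Ioi 0) := by
  have h1 : IntegrableOn (fun t : ℝ => (2 / r) * Real.exp (-(r / 2) * t)) (Set.Ioi 0) :=
    (integrableOn_exp_mul_Ioi (by linarith) 0).const_mul _
  refine h1.mono' (by fun_prop : Continuous fun t : ℝ => t * Real.exp (-r * t)).aestronglyMeasurable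
    ?_
  refine (ae_restrict_iff' measurableSet_Ioi).2 (Eventually.of_forall fun t ht => ?_)
  have ht0 : (0 : ℝ) < t := ht
  rw [Real.norm_of_nonneg (by positivity)]
  exact texp_le hr t

lemma ibpA {f : ℝ → X} (hf : Continuous f) {K : ℝ} (hK : ∀ s, ‖f s‖ ≤ K) {r : ℝ} (hr : 0 < r) :
    ∫ s in Set.Ioi (0 : ℝ), (r * Real.exp (-r * s)) • f s =
      ∫ t in Set.Ioi (0 : ℝ), (r ^ 2 * Real.exp (-r * t)) • ∫ s in (0 : ℝ)..t, f s := by
  have hC : ∀ t : ℝ, HasDerivAt (fun t => ∫ s in (0 : ℝ)..t, f s) (f t) t := fun t =>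
    (hf.integral_hasStrictDerivAt 0 t).hasDerivAt
  have hCc : Continuous fun t : ℝ => ∫ s in (0 : ℝ)..t, f s :=
    continuous_iff_continuousAt.2 fun t => (hC t).continuousAt
  have hCb : ∀ t : ℝ, ‖∫ s in (0 : ℝ)..t, f s‖ ≤ K * |t| := by
    intro t
    have := intervalIntegral.norm_integral_le_of_norm_le_const (a := 0) (b := t) (C := K)
      (f := f) (fun s _ => hK s)
    rwa [sub_zero] at this
  have i1 : IntegrableOn (fun s : ℝ => (r * Real.exp (-r * s)) • f s) (Set.Ioi 0) := by
    have h1 : IntegrableOn (fun s : ℝ => r * Real.exp (-r * s) * K) (Set.Ioi 0) :=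
      ((integrableOn_exp_mul_Ioi (by linarith) 0).const_mul _).mul_const _
    refine h1.mono' ?_ (Eventually.of_forall fun s => ?_)
    · exact ((by fun_prop : Continuous fun s : ℝ => r * Real.exp (-r * s)).smul
        hf).aestronglyMeasurable
    · rw [norm_smul, Real.norm_of_nonneg (by positivity)]
      exact mul_le_mul_of_nonneg_left (hK s) (by positivity)
  have i2 : IntegrableOn (fun t : ℝ => (r ^ 2 * Real.exp (-r * t)) • ∫ s in (0 : ℝ)..t, f s)
      (Set.Ioi 0) := by
    have h1 : IntegrableOn (fun t : ℝ => r ^ 2 * K * (t * Real.exp (-r * t))) (Set.Ioi 0) :=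
      (texp_int hr).const_mul _
    refine h1.mono' ?_ ?_
    · exact ((by fun_prop : Continuous fun s : ℝ => r ^ 2 * Real.exp (-r * s)).smul
        hCc).aestronglyMeasurable
    · refine (ae_restrict_iff' measurableSet_Ioi).2 (Eventually.of_forall fun t ht => ?_)
      have ht0 : (0 : ℝ) < t := ht
      rw [norm_smul, Real.norm_of_nonneg (by positivity)]
      have h2 := hCb t
      rw [abs_of_pos ht0] at h2
      calc r ^ 2 * Real.exp (-r * t) * ‖∫ s in (0 : ℝ)..t, f s‖
          ≤ r ^ 2 * Real.exp (-r * t) * (K * t) := by gcongr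
        _ = _ := by ring
  have hd : ∀ t ∈ Set.Ici (0 : ℝ), HasDerivAt
      (fun t : ℝ => (r * Real.exp (-r * t)) • ∫ s in (0 : ℝ)..t, f s)
      ((r * Real.exp (-r * t)) • f t - (r ^ 2 * Real.exp (-r * t)) • ∫ s in (0 : ℝ)..t, f s) t := by
    intro t _
    have d1 : HasDerivAt (fun t : ℝ => r * Real.exp (-r * t)) (-(r ^ 2 * Real.exp (-r * t))) t := by
      have h0 := ((hasDerivAt_id t).const_mul (-r)).exp.const_mul r
      refine h0.congr_deriv ?_
      simp only [id, mul_one]
      ring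
    have d2 := d1.smul (hC t)
    refine d2.congr_deriv ?_
    rw [neg_smul]
    abel
  have hlim : Tendsto (fun t : ℝ => (r * Real.exp (-r * t)) • ∫ s in (0 : ℝ)..t, f s) atTop
      (𝓝 0) := by
    rw [tendsto_zero_iff_norm_tendsto_zero]
    have h1 : Tendsto (fun t : ℝ => r * K * (2 / r) * Real.exp (-(r / 2) * t)) atTop (𝓝 0) := by
      have h2 : Tendsto (fun s : ℝ => -(r / 2) * s) atTop atBot :=
        tendsto_id.const_mul_atTop_of_neg (by linarith)
      have := (Real.tendsto_exp_atBot.comp h2).const_mul (r * K * (2 / r))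
      rwa [mul_zero] at this
    refine squeeze_zero' (Eventually.of_forall fun _ => norm_nonneg _) ?_ h1
    filter_upwards [eventually_gt_atTop 0] with t ht
    have hK0 : 0 ≤ K := (norm_nonneg _).trans (hK 0)
    have h2 := hCb t
    rw [abs_of_pos ht] at h2
    rw [norm_smul, Real.norm_of_nonneg (by positivity)]
    calc r * Real.exp (-r * t) * ‖∫ s in (0 : ℝ)..t, f s‖
        ≤ r * Real.exp (-r * t) * (K * t) := by gcongr
      _ = r * K * (t * Real.exp (-r * t)) := by ring
      _ ≤ r * K * ((2 / r) * Real.exp (-(r / 2) * t)) := by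
          have := texp_le hr t
          gcongr
      _ = _ := by ring
  have hfin := integral_Ioi_of_hasDerivAt_of_tendsto' hd (i1.sub i2) hlim
  rw [integral_sub i1 i2, intervalIntegral.integral_same, smul_zero, sub_zero] at hfin
  exact sub_eq_zero.1 hfin

lemma w_one {r : ℝ} (hr : 0 < r) :
    ∫ t in Set.Ioi (0 : ℝ), r ^ 2 * t * Real.exp (-r * t) = 1 := by
  have h1 := ibpA (X := ℂ) (f := fun _ => 1) continuous_const (K := 1) (fun _ => by simp) hr
  have h2 : ∫ s in Set.Ioi (0 : ℝ), (r * Real.exp (-r * s)) • (1 : ℂ) = 1 := by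
    have e1 : ∀ s : ℝ, (r * Real.exp (-r * s)) • (1 : ℂ) = ((r * Real.exp (-r * s) : ℝ) : ℂ) := by
      intro s
      simp
    simp only [e1]
    rw [integral_complex_ofReal, integral_const_mul, integral_exp_mul_Ioi (by linarith)]
    rw [mul_zero, Real.exp_zero]
    have : r * (-1 / -r) = 1 := by field_simp
    rw [this, Complex.ofReal_one]
  rw [h2] at h1
  have e1 : ∀ t : ℝ, (r ^ 2 * Real.exp (-r * t)) • (∫ _s in (0 : ℝ)..t, (1 : ℂ)) =
      ((r ^ 2 * t * Real.exp (-r * t) : ℝ) : ℂ) := by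
    intro t
    rw [intervalIntegral.integral_const, sub_zero]
    simp only [Complex.real_smul]
    push_cast
    ring
  simp only [e1] at h1
  rw [integral_complex_ofReal] at h1
  exact_mod_cast h1.symm

lemma w_int {r : ℝ} (hr : 0 < r) :
    IntegrableOn (fun t : ℝ => r ^ 2 * t * Real.exp (-r * t)) (Set.Ioi 0) := by
  have := (texp_int hr).const_mul (r ^ 2)
  refine this.congr (Eventually.of_forall fun t => ?_)
  simp only
  ring

lemma w_lint {r : ℝ} (hr : 0 < r) :
    ∫⁻ t in Set.Ioi (0 : ℝ), ENNReal.ofReal (r ^ 2 * t * Real.exp (-r * t)) = 1 := by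
  rw [← ofReal_integral_eq_lintegral_ofReal (w_int hr), w_one hr, ENNReal.ofReal_one]
  refine (ae_restrict_iff' measurableSet_Ioi).2 (Eventually.of_forall fun t ht => ?_)
  have ht0 : (0 : ℝ) < t := ht
  show 0 ≤ r ^ 2 * t * Real.exp (-r * t)
  positivity

/-- Jensen's inequality for the Abel averages -/
lemma abJ {f : ℝ → X} (hf : Continuous f) {K : ℝ} (hK : ∀ s, ‖f s‖ ≤ K) {r : ℝ} (hr : 0 < r)
    (b : X) :
    ‖(∫ s in Set.Ioi (0 : ℝ), (r * Real.exp (-r * s)) • f s) - b‖ₑ ^ 2 ≤
      ∫⁻ t in Set.Ioi (0 : ℝ), ENNReal.ofReal (r ^ 2 * t * Real.exp (-r * t)) *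
        ‖((t : ℂ)⁻¹) • (∫ s in (0 : ℝ)..t, f s) - b‖ₑ ^ 2 := by
  have i1 : IntegrableOn (fun s : ℝ => (r * Real.exp (-r * s)) • f s) (Set.Ioi 0) := by
    have h1 : IntegrableOn (fun s : ℝ => r * Real.exp (-r * s) * K) (Set.Ioi 0) :=
      ((integrableOn_exp_mul_Ioi (by linarith) 0).const_mul _).mul_const _
    refine h1.mono' ?_ (Eventually.of_forall fun s => ?_)
    · exact ((by fun_prop : Continuous fun s : ℝ => r * Real.exp (-r * s)).smul
        hf).aestronglyMeasurable
    · rw [norm_smul, Real.norm_of_nonneg (by positivity)]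
      exact mul_le_mul_of_nonneg_left (hK s) (by positivity)
  have hrI : IntegrableOn (fun s : ℝ => r * Real.exp (-r * s)) (Set.Ioi 0) :=
    (integrableOn_exp_mul_Ioi (by linarith) 0).const_mul _
  have i2 : IntegrableOn (fun s : ℝ => (r * Real.exp (-r * s)) • b) (Set.Ioi 0) :=
    hrI.smul_const b
  have hb : ∫ s in Set.Ioi (0 : ℝ), (r * Real.exp (-r * s)) • b = b := by
    rw [integral_smul_const, integral_const_mul, integral_exp_mul_Ioi (by linarith)]
    rw [mul_zero, Real.exp_zero]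
    have : r * (-1 / -r) = 1 := by field_simp
    rw [this, one_smul]
  have e1 : (∫ s in Set.Ioi (0 : ℝ), (r * Real.exp (-r * s)) • f s) - b =
      ∫ s in Set.Ioi (0 : ℝ), (r * Real.exp (-r * s)) • (f s - b) := by
    conv_lhs => rw [← hb]
    rw [← integral_sub i1 i2]
    simp only [smul_sub]
  have e2 := ibpA (f := fun s => f s - b) (hf.sub continuous_const) (K := K + ‖b‖)
    (fun s => (norm_sub_le _ _).trans (by gcongr; exact hK s)) hr
  rw [e1, e2]
  -- the integrand
  set D : ℝ → X := fun t => ((t : ℂ)⁻¹) • (∫ s in (0 : ℝ)..t, f s) - b with hD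
  have hCc : Continuous fun t : ℝ => ∫ s in (0 : ℝ)..t, f s :=
    continuous_iff_continuousAt.2 fun t => ((hf.integral_hasStrictDerivAt 0 t).hasDerivAt).continuousAt
  have hDm : AEStronglyMeasurable D (volume.restrict (Set.Ioi (0 : ℝ))) := by
    have : ContinuousOn D (Set.Ioi (0 : ℝ)) := by
      refine ContinuousOn.sub (ContinuousOn.smul (ContinuousOn.inv₀
        Complex.continuous_ofReal.continuousOn fun t ht => ?_) hCc.continuousOn) continuousOn_const
      have ht0 : (0 : ℝ) < t := ht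
      exact_mod_cast ht0.ne'
    exact this.aestronglyMeasurable measurableSet_Ioi
  have h3 : ‖∫ t in Set.Ioi (0 : ℝ), (r ^ 2 * Real.exp (-r * t)) • ∫ s in (0 : ℝ)..t, (f s - b)‖ₑ ≤
      ∫⁻ t in Set.Ioi (0 : ℝ), ‖Real.sqrt (r ^ 2 * t * Real.exp (-r * t)) • D t‖ₑ *
        ‖Real.sqrt (r ^ 2 * t * Real.exp (-r * t))‖ₑ := by
    refine (enorm_integral_le_lintegral_enorm _).trans ?_
    refine lintegral_mono_ae ((ae_restrict_iff' measurableSet_Ioi).2
      (Eventually.of_forall fun t ht => ?_))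
    have ht0 : (0 : ℝ) < t := ht
    have e3 : ∫ s in (0 : ℝ)..t, (f s - b) = t • D t := by
      rw [intervalIntegral.integral_sub (hf.intervalIntegrable _ _)
        (continuous_const.intervalIntegrable _ _), intervalIntegral.integral_const, sub_zero, hD]
      simp only
      rw [smul_sub]
      congr 1
      rw [← Complex.coe_smul t, smul_smul, mul_inv_cancel₀ (by exact_mod_cast ht0.ne'), one_smul]
    rw [e3, smul_smul]
    have e4 : (0 : ℝ) ≤ r ^ 2 * t * Real.exp (-r * t) := by positivity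
    rw [← ofReal_norm, ← ofReal_norm, ← ofReal_norm, ← ENNReal.ofReal_mul (norm_nonneg _)]
    refine ENNReal.ofReal_le_ofReal (le_of_eq ?_)
    rw [norm_smul, norm_smul, Real.norm_of_nonneg (Real.sqrt_nonneg _),
      Real.norm_of_nonneg (by positivity)]
    have e5 := Real.mul_self_sqrt e4
    calc r ^ 2 * Real.exp (-r * t) * t * ‖D t‖ = (r ^ 2 * t * Real.exp (-r * t)) * ‖D t‖ := by ring
      _ = (Real.sqrt (r ^ 2 * t * Real.exp (-r * t)) * Real.sqrt (r ^ 2 * t * Real.exp (-r * t))) *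
          ‖D t‖ := by rw [e5]
      _ = _ := by ring
  have hwm : AEStronglyMeasurable (fun t : ℝ => Real.sqrt (r ^ 2 * t * Real.exp (-r * t)))
      (volume.restrict (Set.Ioi (0 : ℝ))) :=
    (by fun_prop : Continuous fun t : ℝ => Real.sqrt (r ^ 2 * t *
      Real.exp (-r * t))).aestronglyMeasurable
  have h4 := cs (volume.restrict (Set.Ioi (0 : ℝ)))
    (fun t => Real.sqrt (r ^ 2 * t * Real.exp (-r * t)) • D t)
    (fun t => Real.sqrt (r ^ 2 * t * Real.exp (-r * t))) (hwm.smul hDm) hwm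
  have h5 := h3.trans h4
  have h6 : (eLpNorm (fun t => Real.sqrt (r ^ 2 * t * Real.exp (-r * t))) 2
      (volume.restrict (Set.Ioi (0 : ℝ)))) ^ 2 = 1 := by
    rw [n2_sq, ← w_lint hr]
    refine lintegral_congr_ae ((ae_restrict_iff' measurableSet_Ioi).2
      (Eventually.of_forall fun t ht => ?_))
    have ht0 : (0 : ℝ) < t := ht
    have e4 : (0 : ℝ) ≤ r ^ 2 * t * Real.exp (-r * t) := by positivity
    simp only
    rw [← ofReal_norm, ← ENNReal.ofReal_pow (norm_nonneg _), Real.norm_of_nonneg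
      (Real.sqrt_nonneg _), Real.sq_sqrt e4]
  calc _ ≤ (eLpNorm (fun t => Real.sqrt (r ^ 2 * t * Real.exp (-r * t)) • D t) 2
        (volume.restrict (Set.Ioi (0 : ℝ))) *
        eLpNorm (fun t => Real.sqrt (r ^ 2 * t * Real.exp (-r * t))) 2
          (volume.restrict (Set.Ioi (0 : ℝ)))) ^ 2 := by gcongr
    _ = ∫⁻ t in Set.Ioi (0 : ℝ), ‖Real.sqrt (r ^ 2 * t * Real.exp (-r * t)) • D t‖ₑ ^ 2 := by
        rw [mul_pow, h6, mul_one, n2_sq]
    _ = _ := by
        refine lintegral_congr_ae ((ae_restrict_iff' measurableSet_Ioi).2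
          (Eventually.of_forall fun t ht => ?_))
        have ht0 : (0 : ℝ) < t := ht
        have e4 : (0 : ℝ) ≤ r ^ 2 * t * Real.exp (-r * t) := by positivity
        simp only
        rw [enorm_smul, mul_pow]
        congr 1
        rw [← ofReal_norm, ← ENNReal.ofReal_pow (norm_nonneg _), Real.norm_of_nonneg
          (Real.sqrt_nonneg _), Real.sq_sqrt e4]

end det

end Pool.Agent.Helper26.Rg
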