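import Pool.Agent.Helper26.Rg.Abr

/-! # From Cesaro to Abel averages in mean square: the random version -/

set_option autoImplicit false
set_option linter.unusedSectionVars false

open MeasureTheory Filter Topology
open scoped ENNReal NNReal ComplexConjugate InnerProductSpace

namespace Pool.Agent.Helper26.Rg

open Pool.Agent.H5R2.NB Pool.Agent.Helper26.Nb Pool.Agent.Helper26.Cm Pool.Agent.Helper26.Dj

section ran

variable {Ω : Type} [MeasurableSpace Ω] {X : Type} [NormedAddCommGroup X] [InnerProductSpace ℂ X]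
  [CompleteSpace X] (P : Measure Ω) [IsProbabilityMeasure P] (T : ℝ → Ω → X) (K : ℝ)
  {b : Ω → X}

lemma F_cont (hc : ∀ V, Continuous fun s => T s V) (V : Ω) :
    Continuous fun t : ℝ => ∫ s in (0 : ℝ)..t, T s V :=
  continuous_iff_continuousAt.2 fun t =>
    (((hc V).integral_hasStrictDerivAt 0 t).hasDerivAt).continuousAt

lemma F_sm (hc : ∀ V, Continuous fun s => T s V) (hm : ∀ s, StronglyMeasurable (T s)) (t : ℝ) :
    StronglyMeasurable fun V => ∫ s in (0 : ℝ)..t, T s V := by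
  have h1 : StronglyMeasurable (Function.uncurry fun (V : Ω) (s : ℝ) => T s V) :=
    (LM.jm T hc hm).comp_measurable measurable_swap
  have h2 : StronglyMeasurable fun V => ∫ s in Set.Ioc (0 : ℝ) t, T s V := h1.integral_prod_right
  have h3 : StronglyMeasurable fun V => ∫ s in Set.Ioc t (0 : ℝ), T s V := h1.integral_prod_right
  exact h2.sub h3

lemma F_jm (hc : ∀ V, Continuous fun s => T s V) (hm : ∀ s, StronglyMeasurable (T s)) :
    StronglyMeasurable (Function.uncurry fun (V : Ω) (t : ℝ) => ∫ s in (0 : ℝ)..t, T s V) := by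
  have h1 : StronglyMeasurable (Function.uncurry fun (t : ℝ) (V : Ω) =>
      ∫ s in (0 : ℝ)..t, T s V) :=
    stronglyMeasurable_uncurry_of_continuous_of_stronglyMeasurable (fun V => F_cont T hc V)
      fun t => F_sm T hc hm t
  exact h1.comp_measurable measurable_swap

lemma F_le (hK : ∀ s V, ‖T s V‖ ≤ K) {t : ℝ} (ht : 0 < t) (V : Ω) :
    ‖((t : ℂ)⁻¹) • ∫ s in (0 : ℝ)..t, T s V‖ ≤ K := by
  have h1 := intervalIntegral.norm_integral_le_of_norm_le_const (a := 0) (b := t) (C := K)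
    (f := fun s => T s V) (fun s _ => hK s V)
  rw [sub_zero, abs_of_pos ht] at h1
  rw [norm_smul, norm_inv, Complex.norm_real, Real.norm_of_nonneg ht.le]
  calc t⁻¹ * ‖∫ s in (0 : ℝ)..t, T s V‖ ≤ t⁻¹ * (K * t) := by gcongr
    _ = K := by field_simp

lemma F_near (hc : ∀ V, Continuous fun s => T s V) (hK : ∀ s V, ‖T s V‖ ≤ K) {t : ℝ}
    (ht : 1 ≤ t) (V : Ω) :
    ‖((t : ℂ)⁻¹) • (∫ s in (0 : ℝ)..t, T s V) -
      ((⌊t⌋₊ : ℂ)⁻¹) • ∫ s in (0 : ℝ)..(⌊t⌋₊ : ℝ), T s V‖ ≤ 2 * K / t := by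
  have hT0 : 0 < t := by linarith
  have hK0 : 0 ≤ K := (norm_nonneg _).trans (hK 0 V)
  set N := ⌊t⌋₊ with hN
  have hN1 : 1 ≤ N := Nat.le_floor (by simpa using ht)
  have hNT : (N : ℝ) ≤ t := Nat.floor_le hT0.le
  have hTN : t < N + 1 := Nat.lt_floor_add_one t
  have hN0 : (0 : ℝ) < N := by exact_mod_cast hN1
  have e1 : ∫ s in (0 : ℝ)..t, T s V =
      (∫ s in (0 : ℝ)..(N : ℝ), T s V) + ∫ s in (N : ℝ)..t, T s V :=
    (intervalIntegral.integral_add_adjacent_intervals ((hc V).intervalIntegrable _ _)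
      ((hc V).intervalIntegrable _ _)).symm
  have e3 : ‖∫ s in (N : ℝ)..t, T s V‖ ≤ K := by
    have h := intervalIntegral.norm_integral_le_of_norm_le_const (a := (N : ℝ)) (b := t)
      (C := K) (f := fun s => T s V) (fun s _ => hK s V)
    rw [abs_of_nonneg (by linarith)] at h
    refine h.trans ?_
    nlinarith
  have e4 : ‖∫ s in (0 : ℝ)..(N : ℝ), T s V‖ ≤ K * N := by
    have h := intervalIntegral.norm_integral_le_of_norm_le_const (a := (0 : ℝ)) (b := N)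
      (C := K) (f := fun s => T s V) (fun s _ => hK s V)
    rwa [sub_zero, abs_of_pos hN0] at h
  have e5 : ((t : ℂ)⁻¹) • (∫ s in (0 : ℝ)..t, T s V) -
      ((N : ℂ)⁻¹) • (∫ s in (0 : ℝ)..(N : ℝ), T s V) =
      ((t : ℂ)⁻¹) • (∫ s in (N : ℝ)..t, T s V) +
        (((t⁻¹ - (N : ℝ)⁻¹ : ℝ)) : ℂ) • ∫ s in (0 : ℝ)..(N : ℝ), T s V := by
    rw [e1]
    push_cast
    module
  rw [e5]
  refine (norm_add_le _ _).trans ?_
  rw [norm_smul, norm_smul, norm_inv, Complex.norm_real, Complex.norm_real,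
    Real.norm_of_nonneg hT0.le]
  have e6 : ‖t⁻¹ - (N : ℝ)⁻¹‖ ≤ 1 / (t * N) := by
    have : t⁻¹ - (N : ℝ)⁻¹ = -((t - N) / (t * N)) := by field_simp; ring
    rw [this, norm_neg, Real.norm_of_nonneg (div_nonneg (by linarith) (by positivity))]
    gcongr
    linarith
  calc t⁻¹ * ‖∫ s in (N : ℝ)..t, T s V‖ + ‖t⁻¹ - (N : ℝ)⁻¹‖ * ‖∫ s in (0 : ℝ)..(N : ℝ), T s V‖
      ≤ t⁻¹ * K + 1 / (t * N) * (K * N) := by gcongr
    _ = 2 * K / t := by field_simp; ring

theorem abR (hc : ∀ V, Continuous fun s => T s V) (hm : ∀ s, StronglyMeasurable (T s))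
    (hK : ∀ s V, ‖T s V‖ ≤ K) (hb : AEStronglyMeasurable b P)
    (hC : Tendsto (fun N : ℕ => ∫⁻ V, ‖((N : ℂ)⁻¹) • (∫ s in (0 : ℝ)..(N : ℝ), T s V) -
      b V‖ₑ ^ 2 ∂P) atTop (𝓝 0)) {r : ℕ → ℝ} (hr : ∀ k, 0 < r k) (hr0 : Tendsto r atTop (𝓝 0)) :
    Tendsto (fun k => ∫⁻ V, ‖(∫ s in Set.Ioi (0 : ℝ), (r k * Real.exp (-r k * s)) • T s V) -
      b V‖ₑ ^ 2 ∂P) atTop (𝓝 0) := by
  set D : ℝ → Ω → X := fun t V => ((t : ℂ)⁻¹) • (∫ s in (0 : ℝ)..t, T s V) - b V with hD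
  have hDm : ∀ t, AEStronglyMeasurable (D t) P := fun t =>
    ((F_sm T hc hm t).const_smul ((t : ℂ)⁻¹)).aestronglyMeasurable.sub hb
  have hK' : eLpNorm (fun _ : Ω => K) 2 P < ∞ := (memLp_const K).2
  -- the averages converge along the integers
  have hn : Tendsto (fun N : ℕ => eLpNorm (D N) 2 P) atTop (𝓝 0) := by
    rw [ENNReal.tendsto_atTop_zero] at hC ⊢
    intro δ hδ
    obtain ⟨N, hN⟩ := hC (δ ^ 2) (by positivity)
    refine ⟨N, fun n hn => n2_le _ _ _ ?_⟩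
    have := hN n hn
    exact this
  -- `b` is square integrable
  have hbf : eLpNorm b 2 P < ∞ := by
    obtain ⟨N, hN⟩ := (ENNReal.tendsto_atTop_zero.1 hn) 1 one_pos
    have h1 := hN (N + 1) (Nat.le_succ N)
    have e : b = (fun V => (((N + 1 : ℕ) : ℝ) : ℂ)⁻¹ • ∫ s in (0 : ℝ)..((N + 1 : ℕ) : ℝ), T s V) -
        D ((N + 1 : ℕ) : ℝ) := by
      funext V
      rw [Pi.sub_apply, hD]
      simp only
      abel
    have h2 : eLpNorm b 2 P ≤ eLpNorm (fun _ : Ω => K) 2 P + 1 := by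
      rw [e]
      refine (eLpNorm_sub_le ((F_sm T hc hm _).const_smul _).aestronglyMeasurable (hDm _)
        (by norm_num)).trans (add_le_add ?_ h1)
      refine eLpNorm_mono_real fun V => ?_
      exact F_le T K hK (by positivity) V
    exact h2.trans_lt (ENNReal.add_lt_top.2 ⟨hK', ENNReal.one_lt_top⟩)
  obtain ⟨G, hG⟩ : ∃ G : ℝ≥0∞, G = eLpNorm (fun _ : Ω => K) 2 P + eLpNorm b 2 P := ⟨_, rfl⟩
  have hGf : G ≠ ∞ := by rw [hG]; exact (ENNReal.add_lt_top.2 ⟨hK', hbf⟩).ne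
  have hDG : ∀ t : ℝ, 0 < t → eLpNorm (D t) 2 P ≤ G := by
    intro t ht
    rw [hG]
    refine (eLpNorm_sub_le ((F_sm T hc hm _).const_smul _).aestronglyMeasurable hb
      (by norm_num)).trans (add_le_add ?_ le_rfl)
    exact eLpNorm_mono_real fun V => F_le T K hK ht V
  -- the averages converge along the reals
  have hreal : ∀ η : ℝ≥0∞, 0 < η → ∃ t₀ : ℝ, 0 < t₀ ∧ ∀ t, t₀ ≤ t → eLpNorm (D t) 2 P ≤ η := by
    intro η hη
    have hη2 : (0 : ℝ≥0∞) < η / 2 := by simp [hη.ne']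
    obtain ⟨N, hN⟩ := (ENNReal.tendsto_atTop_zero.1 hn) (η / 2) hη2
    have h1 : Tendsto (fun t : ℝ => eLpNorm (fun _ : Ω => 2 * K / t) 2 P) atTop (𝓝 0) := by
      have h2 : ∀ t : ℝ, eLpNorm (fun _ : Ω => 2 * K / t) 2 P = ‖2 * K / t‖ₑ := by
        intro t
        rw [eLpNorm_const _ (by norm_num) (IsProbabilityMeasure.ne_zero P)]
        simp
      simp only [h2]
      have h3 : Tendsto (fun t : ℝ => 2 * K / t) atTop (𝓝 0) := tendsto_const_nhds.div_atTop tendsto_id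
      have := h3.enorm
      rwa [enorm_zero] at this
    obtain ⟨t₁, ht₁⟩ := eventually_atTop.1 ((ENNReal.tendsto_nhds_zero.1 h1) (η / 2) hη2)
    refine ⟨max (max 1 t₁) (N + 1), by positivity, fun t ht => ?_⟩
    have ht1 : 1 ≤ t := (le_max_left _ _).trans ((le_max_left _ _).trans ht)
    have ht2 : t₁ ≤ t := (le_max_right _ _).trans ((le_max_left _ _).trans ht)
    have ht3 : (N : ℝ) + 1 ≤ t := (le_max_right _ _).trans ht
    have hNf : N ≤ ⌊t⌋₊ := Nat.le_floor (by linarith)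
    have e : D t = D (⌊t⌋₊ : ℝ) + fun V => ((t : ℂ)⁻¹) • (∫ s in (0 : ℝ)..t, T s V) -
        ((⌊t⌋₊ : ℂ)⁻¹) • ∫ s in (0 : ℝ)..(⌊t⌋₊ : ℝ), T s V := by
      funext V
      rw [Pi.add_apply, hD]
      simp only [Complex.ofReal_natCast]
      abel
    rw [e]
    have m1 : AEStronglyMeasurable (fun V => ((t : ℂ)⁻¹) • (∫ s in (0 : ℝ)..t, T s V) -
        ((⌊t⌋₊ : ℂ)⁻¹) • ∫ s in (0 : ℝ)..(⌊t⌋₊ : ℝ), T s V) P :=
      (((F_sm T hc hm _).const_smul _).sub ((F_sm T hc hm _).const_smul _)).aestronglyMeasurable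
    refine (eLpNorm_add_le (hDm _) m1 (by norm_num)).trans ?_
    calc _ ≤ η / 2 + η / 2 := by
          refine add_le_add (hN _ hNf) ((eLpNorm_mono_real fun V => ?_).trans (ht₁ t ht2))
          exact F_near T K hc hK ht1 V
      _ = η := ENNReal.add_halves η
  -- the main estimate
  have main : ∀ (k : ℕ) (η : ℝ≥0∞) (t₀ : ℝ), η ≠ ∞ → 0 < t₀ → (∀ t, t₀ ≤ t → eLpNorm (D t) 2 P ≤ η) →
      ∫⁻ V, ‖(∫ s in Set.Ioi (0 : ℝ), (r k * Real.exp (-r k * s)) • T s V) - b V‖ₑ ^ 2 ∂P ≤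
        ENNReal.ofReal (r k ^ 2 * t₀ ^ 2) * G ^ 2 + η ^ 2 := by
    intro k η t₀ hηf ht₀ hη
    have h1 : ∫⁻ V, ‖(∫ s in Set.Ioi (0 : ℝ), (r k * Real.exp (-r k * s)) • T s V) -
        b V‖ₑ ^ 2 ∂P ≤ ∫⁻ V, (∫⁻ t in Set.Ioi (0 : ℝ),
          ENNReal.ofReal (r k ^ 2 * t * Real.exp (-r k * t)) * ‖D t V‖ₑ ^ 2) ∂P :=
      lintegral_mono fun V => abJ (hc V) (fun s => hK s V) (hr k) (b V)
    have h2 : AEMeasurable (Function.uncurry fun (V : Ω) (t : ℝ) =>
        ENNReal.ofReal (r k ^ 2 * t * Real.exp (-r k * t)) * ‖D t V‖ₑ ^ 2)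
        (P.prod (volume.restrict (Set.Ioi (0 : ℝ)))) := by
      have m1 : AEStronglyMeasurable (fun p : Ω × ℝ => D p.2 p.1)
          (P.prod (volume.restrict (Set.Ioi (0 : ℝ)))) := by
        rw [hD]
        refine AEStronglyMeasurable.sub ?_ hb.comp_fst
        refine AEStronglyMeasurable.smul (𝕜 := ℂ) ?_ (F_jm T hc hm).aestronglyMeasurable
        exact (Complex.measurable_ofReal.comp measurable_snd).inv.aestronglyMeasurable
      refine AEMeasurable.mul ?_ (m1.enorm.pow_const 2)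
      exact (by fun_prop : Measurable fun p : Ω × ℝ =>
        ENNReal.ofReal (r k ^ 2 * p.2 * Real.exp (-r k * p.2))).aemeasurable
    refine h1.trans ?_
    rw [lintegral_lintegral_swap h2]
    have h3 : ∀ t : ℝ, ∫⁻ V, ENNReal.ofReal (r k ^ 2 * t * Real.exp (-r k * t)) *
        ‖D t V‖ₑ ^ 2 ∂P = ENNReal.ofReal (r k ^ 2 * t * Real.exp (-r k * t)) *
          eLpNorm (D t) 2 P ^ 2 := by
      intro t
      rw [lintegral_const_mul' _ _ ENNReal.ofReal_ne_top, n2_sq]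
    simp only [h3]
    have h4 : ∀ t ∈ Set.Ioi (0 : ℝ), ENNReal.ofReal (r k ^ 2 * t * Real.exp (-r k * t)) *
        eLpNorm (D t) 2 P ^ 2 ≤
        (Set.Ioc (0 : ℝ) t₀).indicator (fun _ => ENNReal.ofReal (r k ^ 2 * t₀) * G ^ 2) t +
          ENNReal.ofReal (r k ^ 2 * t * Real.exp (-r k * t)) * η ^ 2 := by
      intro t ht
      have ht0 : (0 : ℝ) < t := ht
      by_cases htt : t ≤ t₀
      · rw [Set.indicator_of_mem (show t ∈ Set.Ioc (0 : ℝ) t₀ from ⟨ht0, htt⟩)]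
        refine le_add_right ?_
        have h5 := hDG t ht0
        have h6 : r k ^ 2 * t * Real.exp (-r k * t) ≤ r k ^ 2 * t₀ := by
          have h7 : Real.exp (-r k * t) ≤ 1 := by
            rw [Real.exp_le_one_iff]
            have := hr k
            nlinarith
          calc r k ^ 2 * t * Real.exp (-r k * t) ≤ r k ^ 2 * t * 1 := by gcongr
            _ ≤ r k ^ 2 * t₀ := by rw [mul_one]; gcongr
        gcongr
      · refine le_add_left ?_
        have h5 := hη t (not_le.1 htt).le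
        gcongr
    refine (lintegral_mono_ae ((ae_restrict_iff' measurableSet_Ioi).2
      (Eventually.of_forall h4))).trans ?_
    rw [lintegral_add_left ((measurable_const).indicator measurableSet_Ioc),
      lintegral_mul_const' _ _ (ENNReal.pow_ne_top hηf), w_lint (hr k), one_mul]
    refine add_le_add ?_ le_rfl
    rw [lintegral_indicator measurableSet_Ioc, setLIntegral_const]
    have h8 : (volume.restrict (Set.Ioi (0 : ℝ))) (Set.Ioc (0 : ℝ) t₀) ≤ ENNReal.ofReal t₀ := by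
      refine (Measure.restrict_apply_le _ _).trans ?_
      rw [Real.volume_Ioc, sub_zero]
    calc ENNReal.ofReal (r k ^ 2 * t₀) * G ^ 2 * (volume.restrict (Set.Ioi (0 : ℝ)))
          (Set.Ioc (0 : ℝ) t₀) ≤ ENNReal.ofReal (r k ^ 2 * t₀) * G ^ 2 * ENNReal.ofReal t₀ := by
          gcongr
      _ = (ENNReal.ofReal (r k ^ 2 * t₀) * ENNReal.ofReal t₀) * G ^ 2 := by ring
      _ = _ := by
          rw [← ENNReal.ofReal_mul (by positivity)]
          congr 2
          ring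
  rw [ENNReal.tendsto_nhds_zero]
  intro δ hδ
  have hδ2 : (0 : ℝ≥0∞) < δ / 2 := by simp [hδ.ne']
  obtain ⟨η, hη0, hηf, hη⟩ : ∃ η : ℝ≥0∞, 0 < η ∧ η ≠ ∞ ∧ η ^ 2 ≤ δ / 2 := by
    have h1 : Tendsto (fun x : ℝ≥0∞ => x ^ 2) (𝓝 0) (𝓝 0) := by
      have := (ENNReal.continuous_pow 2).tendsto 0
      simpa using this
    obtain ⟨x, hx0, hx⟩ := ENNReal.nhds_zero_basis_Iic.eventually_iff.1
      ((ENNReal.tendsto_nhds_zero.1 h1) (δ / 2) hδ2)
    refine ⟨min x 1, by positivity, (lt_of_le_of_lt (min_le_right _ _) ENNReal.one_lt_top).ne,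
      hx (Set.mem_Iic.2 (min_le_left _ _))⟩
  obtain ⟨t₀, ht₀, ht⟩ := hreal η hη0
  have hlim : Tendsto (fun k => ENNReal.ofReal (r k ^ 2 * t₀ ^ 2) * G ^ 2) atTop (𝓝 0) := by
    have h1 : Tendsto (fun k => ENNReal.ofReal (r k ^ 2 * t₀ ^ 2)) atTop (𝓝 0) := by
      have h2 := ((hr0.pow 2).mul_const (t₀ ^ 2))
      rw [zero_pow (by norm_num), zero_mul] at h2
      have := (ENNReal.continuous_ofReal.tendsto _).comp h2
      rwa [ENNReal.ofReal_zero] at this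
    have h3 := ENNReal.Tendsto.mul_const (b := G ^ 2) h1 (Or.inr (ENNReal.pow_ne_top hGf))
    rwa [zero_mul] at h3
  filter_upwards [(ENNReal.tendsto_nhds_zero.1 hlim) (δ / 2) hδ2] with k hk
  refine (main k η t₀ hηf ht₀ ht).trans ?_
  calc _ ≤ δ / 2 + δ / 2 := add_le_add hk hη
    _ = δ := ENNReal.add_halves δ

end ran

end Pool.Agent.Helper26.Rg
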