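import Pool.Agent.Helper26.Rg.Cor

/-! # The fibre over one site: the theorem -/

set_option autoImplicit false

open MeasureTheory Filter Topology
open scoped ENNReal NNReal ComplexConjugate InnerProductSpace

namespace Pool.Agent.Helper26.Rg

open Pool.Agent.H5R2.NB Pool.Agent.Helper26.Cm Pool.Agent.Helper26.Dj
open Pool.Agent.TH369.AN (Rz rz_uniq rz_eq rz_norm pt pt_sa)
open Pool.Agent.TH369.MU (zk ep)

namespace Fib

variable {ι : Type} {T T' : L2 ι →L[ℂ] L2 ι} {e : L2 ι} {a : ℝ} {U U' : ℝ → UG (L2 ι)}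

lemma inI (x y : L2 ι) (v : L2 ι →L[ℂ] L2 ι) :
    ⟪Complex.I • x, v (Complex.I • y)⟫_ℂ = ⟪x, v y⟫_ℂ := by
  rw [map_smul, inner_smul_left, inner_smul_right, ← mul_assoc, Complex.conj_I]
  rw [neg_mul, Complex.I_mul_I, neg_neg, one_mul]

lemma inI' (x y : L2 ι) (v : L2 ι →L[ℂ] L2 ι) :
    ⟪-(Complex.I • x), v (-(Complex.I • y))⟫_ℂ = ⟪x, v y⟫_ℂ := by
  rw [map_neg, inner_neg_neg, inI]

lemma ker_f (F : Fib T T' e a U U') (v : L2 ι →L[ℂ] L2 ι) (j : ℕ) (E κ : ℝ) :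
    nk T T' e a v j (zk E j) * ((conj (wf T' e (zk E j) / a) - κ) * (wf T e (zk E j) - κ))⁻¹ =
      (ep j : ℂ) * ⟪La (U' κ) e E (ep j), v (La (U κ) e E (ep j))⟫_ℂ := by
  rw [nk_ker F v j (zk_ne E j) κ]
  have h1 := rz_La (pt_sa T F.sa e κ) (F.gen κ) (ep_pos j) E e
  have h2 := rz_La (pt_sa T' F.sa' e (a * κ)) (F.gen' κ) (ep_pos j) E e
  unfold zk
  rw [h1, h2, inI]

lemma ker_b (F : Fib T T' e a U U') (v : L2 ι →L[ℂ] L2 ι) (j : ℕ) (E κ : ℝ) :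
    nk T T' e a v j (conj (zk E j)) *
      ((wf T' e (zk E j) / a - κ) * (conj (wf T e (zk E j)) - κ))⁻¹ =
      (ep j : ℂ) * ⟪La (rev (U' κ)) e (-E) (ep j), v (La (rev (U κ)) e (-E) (ep j))⟫_ℂ := by
  have h0 := nk_ker F v j (czk_ne E j) κ
  rw [wf_conj F.sa (zk_ne E j), wf_conj F.sa' (zk_ne E j), map_div₀, Complex.conj_conj,
    Complex.conj_ofReal] at h0
  rw [h0]
  have h1 := rz_La' (pt_sa T F.sa e κ) (F.gen κ) (ep_pos j) E e
  have h2 := rz_La' (pt_sa T' F.sa' e (a * κ)) (F.gen' κ) (ep_pos j) E e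
  unfold zk
  rw [h1, h2, inI']

/-- the limit functional -/
noncomputable def Lm (f : ℝ → ℂ) (W : UG (L2 ι)) (B : L2 ι →L[ℂ] L2 ι) (e : L2 ι) : ℂ :=
  (1 / 2) * ∫ t : ℝ, ph f t * ⟪e, B (W.U t e)⟫_ℂ

lemma fwd (F : Fib T T' e a U U') (v : L2 ι →L[ℂ] L2 ι) {f : ℝ → ℂ} (hf : Nice f) {N : ℕ → ℕ}
    (hN : Tendsto N atTop atTop) (κ : ℝ) {B : L2 ι →L[ℂ] L2 ι}
    (hB : AGood (U' κ) (U κ) v (fun k => ep (N k)) B) :
    Tendsto (fun k => ∫ E : ℝ, f E * (nk T T' e a v (N k) (zk E (N k)) *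
      ((conj (wf T' e (zk E (N k)) / a) - κ) * (wf T e (zk E (N k)) - κ))⁻¹)) atTop
      (𝓝 (Lm f (U κ) B e)) := by
  have hep : Tendsto (fun k => ep (N k)) atTop (𝓝 0) := by
    have : Tendsto ep atTop (𝓝 0) := by
      unfold ep
      exact tendsto_one_div_add_atTop_nhds_zero_nat (𝕜 := ℝ)
    exact this.comp hN
  have h1 := en_lim (x := e) (y := e) hf.i hf.p hf.m (fun k => ep_pos (N k)) hep
    (fun x => (hB x).1)
  have h2 := h1.const_mul (1 / 2 : ℂ)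
  refine h2.congr fun k => ?_
  simp only [ker_f F]
  rw [← mul_assoc]
  have e1 : ∀ E : ℝ, f E * ((ep (N k) : ℂ) * ⟪La (U' κ) e E (ep (N k)),
      v (La (U κ) e E (ep (N k)))⟫_ℂ) = (ep (N k) : ℂ) * (f E *
        ⟪La (U' κ) e E (ep (N k)), v (La (U κ) e E (ep (N k)))⟫_ℂ) := fun E => by ring
  simp only [e1]
  rw [integral_const_mul]
  ring

lemma fwd_le (F : Fib T T' e a U U') (v : L2 ι →L[ℂ] L2 ι) {f : ℝ → ℂ} (hf : Nice f) (j : ℕ)
    (κ : ℝ) :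
    ‖∫ E : ℝ, f E * (nk T T' e a v j (zk E j) *
      ((conj (wf T' e (zk E j) / a) - κ) * (wf T e (zk E j) - κ))⁻¹)‖ ≤
      (∫ t : ℝ, ‖ph f t‖) * ‖v‖ := by
  have h1 := en_le (W' := U' κ) (W := U κ) (v := v) (x := e) (y := e) hf.i hf.p hf.m (ep_pos j)
  rw [F.he, mul_one, mul_one] at h1
  simp only [ker_f F]
  have e1 : ∀ E : ℝ, f E * ((ep j : ℂ) * ⟪La (U' κ) e E (ep j),
      v (La (U κ) e E (ep j))⟫_ℂ) = (1 / 2 * (2 * (ep j : ℂ))) * (f E *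
        ⟪La (U' κ) e E (ep j), v (La (U κ) e E (ep j))⟫_ℂ) := fun E => by ring
  simp only [e1]
  rw [integral_const_mul, mul_assoc, norm_mul]
  have e2 : ‖(1 / 2 : ℂ)‖ = 1 / 2 := by simp
  rw [e2]
  nlinarith

lemma bwd (F : Fib T T' e a U U') (v : L2 ι →L[ℂ] L2 ι) {f : ℝ → ℂ} (hf : Nice f) {N : ℕ → ℕ}
    (hN : Tendsto N atTop atTop) (κ : ℝ) {B : L2 ι →L[ℂ] L2 ι}
    (hB : AGood (U' κ) (U κ) v (fun k => ep (N k)) B) :
    Tendsto (fun k => ∫ E : ℝ, f E * (nk T T' e a v (N k) (conj (zk E (N k))) *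
      ((wf T' e (zk E (N k)) / a - κ) * (conj (wf T e (zk E (N k))) - κ))⁻¹)) atTop
      (𝓝 (Lm f (U κ) B e)) := by
  have hep : Tendsto (fun k => ep (N k)) atTop (𝓝 0) := by
    have : Tendsto ep atTop (𝓝 0) := by
      unfold ep
      exact tendsto_one_div_add_atTop_nhds_zero_nat (𝕜 := ℝ)
    exact this.comp hN
  obtain ⟨hf', hph⟩ := hf.refl
  have h1 := en_lim (x := e) (y := e) hf'.i hf'.p hf'.m (fun k => ep_pos (N k)) hep
    (fun x => (hB x).2)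
  have h2 := h1.const_mul (1 / 2 : ℂ)
  have e3 : (1 / 2 : ℂ) * ∫ t : ℝ, ph (fun E => f (-E)) t * ⟪e, B ((rev (U κ)).U t e)⟫_ℂ =
      Lm f (U κ) B e := by
    unfold Lm
    congr 1
    rw [← integral_neg_eq_self (fun t => ph f t * ⟪e, B ((U κ).U t e)⟫_ℂ)]
    refine integral_congr_ae (Eventually.of_forall fun t => ?_)
    simp only
    rw [hph]
    rfl
  rw [e3] at h2
  refine h2.congr fun k => ?_
  simp only [ker_b F]
  rw [← mul_assoc]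
  have e1 : ∀ E : ℝ, f E * ((ep (N k) : ℂ) * ⟪La (rev (U' κ)) e (-E) (ep (N k)),
      v (La (rev (U κ)) e (-E) (ep (N k)))⟫_ℂ) = (ep (N k) : ℂ) * (f E *
        ⟪La (rev (U' κ)) e (-E) (ep (N k)), v (La (rev (U κ)) e (-E) (ep (N k)))⟫_ℂ) :=
    fun E => by ring
  simp only [e1]
  rw [integral_const_mul, ← integral_neg_eq_self (fun E => f E *
    ⟪La (rev (U' κ)) e (-E) (ep (N k)), v (La (rev (U κ)) e (-E) (ep (N k)))⟫_ℂ)]
  simp only [neg_neg]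
  ring

lemma bwd_le (F : Fib T T' e a U U') (v : L2 ι →L[ℂ] L2 ι) {f : ℝ → ℂ} (hf : Nice f) (j : ℕ)
    (κ : ℝ) :
    ‖∫ E : ℝ, f E * (nk T T' e a v j (conj (zk E j)) *
      ((wf T' e (zk E j) / a - κ) * (conj (wf T e (zk E j)) - κ))⁻¹)‖ ≤
      (∫ t : ℝ, ‖ph f t‖) * ‖v‖ := by
  obtain ⟨hf', hph⟩ := hf.refl
  have h1 := en_le (W' := rev (U' κ)) (W := rev (U κ)) (v := v) (x := e) (y := e) hf'.i hf'.p
    hf'.m (ep_pos j)
  rw [F.he, mul_one, mul_one] at h1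
  simp only [hph] at h1
  rw [integral_neg_eq_self (fun t => ‖ph f t‖)] at h1
  simp only [ker_b F]
  have e1 : ∀ E : ℝ, f E * ((ep j : ℂ) * ⟪La (rev (U' κ)) e (-E) (ep j),
      v (La (rev (U κ)) e (-E) (ep j))⟫_ℂ) = (1 / 2 * (2 * (ep j : ℂ))) * (f E *
        ⟪La (rev (U' κ)) e (-E) (ep j), v (La (rev (U κ)) e (-E) (ep j))⟫_ℂ) := fun E => by ring
  simp only [e1]
  rw [integral_const_mul, mul_assoc, norm_mul]
  have e2 : ‖(1 / 2 : ℂ)‖ = 1 / 2 := by simp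
  rw [e2, ← integral_neg_eq_self (fun E => f E *
    ⟪La (rev (U' κ)) e (-E) (ep j), v (La (rev (U κ)) e (-E) (ep j))⟫_ℂ)]
  simp only [neg_neg]
  nlinarith

/-- pointwise bounds of the kernels -/
lemma ker_f_le (F : Fib T T' e a U U') (v : L2 ι →L[ℂ] L2 ι) (j : ℕ) (E κ : ℝ) :
    ‖nk T T' e a v j (zk E j) *
      ((conj (wf T' e (zk E j) / a) - κ) * (wf T e (zk E j) - κ))⁻¹‖ ≤ ‖v‖ / ep j := by
  rw [nk_ker F v j (zk_ne E j) κ, norm_mul, Complex.norm_real, Real.norm_of_nonneg (ep_pos j).le]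
  have h1 := rz_norm _ (pt_sa T F.sa e κ) (zk E j) (zk_ne E j) e
  have h2 := rz_norm _ (pt_sa T' F.sa' e (a * κ)) (zk E j) (zk_ne E j) e
  rw [F.he, zk_im, abs_of_pos (ep_pos j)] at h1 h2
  have hep := ep_pos j
  calc ep j * ‖⟪Rz (pt T' e (a * κ)) (zk E j) e, v (Rz (pt T e κ) (zk E j) e)⟫_ℂ‖
      ≤ ep j * (‖Rz (pt T' e (a * κ)) (zk E j) e‖ * (‖v‖ * ‖Rz (pt T e κ) (zk E j) e‖)) := by
        gcongr
        exact (norm_inner_le_norm _ _).trans (mul_le_mul_of_nonneg_left (v.le_opNorm _)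
          (norm_nonneg _))
    _ ≤ ep j * (1 / ep j * (‖v‖ * (1 / ep j))) := by gcongr
    _ = _ := by field_simp

lemma ker_b_le (F : Fib T T' e a U U') (v : L2 ι →L[ℂ] L2 ι) (j : ℕ) (E κ : ℝ) :
    ‖nk T T' e a v j (conj (zk E j)) *
      ((wf T' e (zk E j) / a - κ) * (conj (wf T e (zk E j)) - κ))⁻¹‖ ≤ ‖v‖ / ep j := by
  have h0 := nk_ker F v j (czk_ne E j) κ
  rw [wf_conj F.sa (zk_ne E j), wf_conj F.sa' (zk_ne E j), map_div₀, Complex.conj_conj,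
    Complex.conj_ofReal] at h0
  rw [h0, norm_mul, Complex.norm_real, Real.norm_of_nonneg (ep_pos j).le]
  have h1 := rz_norm _ (pt_sa T F.sa e κ) (conj (zk E j)) (czk_ne E j) e
  have h2 := rz_norm _ (pt_sa T' F.sa' e (a * κ)) (conj (zk E j)) (czk_ne E j) e
  rw [F.he, Complex.conj_im, abs_neg, zk_im, abs_of_pos (ep_pos j)] at h1 h2
  have hep := ep_pos j
  calc ep j * ‖⟪Rz (pt T' e (a * κ)) (conj (zk E j)) e,
        v (Rz (pt T e κ) (conj (zk E j)) e)⟫_ℂ‖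
      ≤ ep j * (‖Rz (pt T' e (a * κ)) (conj (zk E j)) e‖ *
        (‖v‖ * ‖Rz (pt T e κ) (conj (zk E j)) e‖)) := by
        gcongr
        exact (norm_inner_le_norm _ _).trans (mul_le_mul_of_nonneg_left (v.le_opNorm _)
          (norm_nonneg _))
    _ ≤ ep j * (1 / ep j * (‖v‖ * (1 / ep j))) := by gcongr
    _ = _ := by field_simp

variable {ρ : Measure ℝ} [IsFiniteMeasure ρ] {b : ℝ → ℂ} {Bb : ℝ}

lemma m_w (F : Fib T T' e a U U') (j : ℕ) : Measurable fun E : ℝ => wf T e (zk E j) :=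
  (cont_wf F.sa F.e0 (zk_cont j) fun E => zk_ne E j).measurable

lemma m_w2 (F : Fib T T' e a U U') (j : ℕ) : Measurable fun E : ℝ => wf T' e (zk E j) / a :=
  ((cont_wf F.sa' F.e0 (zk_cont j) fun E => zk_ne E j).div_const _).measurable

lemma m_n (F : Fib T T' e a U U') (v : L2 ι →L[ℂ] L2 ι) (j : ℕ) :
    Measurable fun E : ℝ => nk T T' e a v j (zk E j) :=
  (nk_cont F v j (zk_cont j) fun E => zk_ne E j).measurable

lemma m_m (F : Fib T T' e a U U') (v : L2 ι →L[ℂ] L2 ι) (j : ℕ) :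
    Measurable fun E : ℝ => nk T T' e a v j (conj (zk E j)) :=
  (nk_cont F v j (Complex.continuous_conj.comp (zk_cont j)) fun E => czk_ne E j).measurable

lemma m_c {g : ℝ → ℂ} (hg : Measurable g) : Measurable fun E => conj (g E) :=
  Complex.continuous_conj.measurable.comp hg

/-- measurability of the energy integrals in `κ` -/
lemma m_int {f h w₁ w₂ : ℝ → ℂ} (hf : Integrable f) (hm : Measurable h) (h1 : Measurable w₁)
    (h2 : Measurable w₂) : AEStronglyMeasurable (fun κ : ℝ =>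
      ∫ E : ℝ, f E * (h E * ((w₁ E - κ) * (w₂ E - κ))⁻¹)) ρ := by
  have mk : Measurable fun p : ℝ × ℝ => h p.1 * ((w₁ p.1 - p.2) * (w₂ p.1 - p.2))⁻¹ := by
    have m1 := (ker_meas (b := fun _ => (1 : ℂ)) measurable_const h1 h2).measurable
    simp only [one_mul] at m1
    exact (hm.comp measurable_fst).mul m1
  have m2 : AEStronglyMeasurable (fun p : ℝ × ℝ => f p.2 *
      (h p.2 * ((w₁ p.2 - p.1) * (w₂ p.2 - p.1))⁻¹)) (ρ.prod volume) :=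
    hf.aestronglyMeasurable.comp_snd.mul (mk.comp measurable_swap).aestronglyMeasurable
  exact m2.integral_prod_right'

theorem fwd_K (F : Fib T T' e a U U') (v : L2 ι →L[ℂ] L2 ι) {f : ℝ → ℂ} (hf : Nice f)
    {N : ℕ → ℕ} (hN : Tendsto N atTop atTop) {B : ℝ → L2 ι →L[ℂ] L2 ι}
    (hB : ∀ᵐ κ ∂ρ, AGood (U' κ) (U κ) v (fun k => ep (N k)) (B κ))
    (hb : Measurable b) (hBb : ∀ κ, ‖b κ‖ ≤ Bb) :
    Tendsto (fun k => ∫ E : ℝ, f E * (nk T T' e a v (N k) (zk E (N k)) *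
      Kf ρ b (conj (wf T' e (zk E (N k)) / a)) (wf T e (zk E (N k))))) atTop
      (𝓝 (∫ κ, b κ * Lm f (U κ) (B κ) e ∂ρ)) := by
  have hb0 : 0 ≤ Bb := (norm_nonneg _).trans (hBb 0)
  have e1 : ∀ k, ∫ E : ℝ, f E * (nk T T' e a v (N k) (zk E (N k)) *
      Kf ρ b (conj (wf T' e (zk E (N k)) / a)) (wf T e (zk E (N k)))) =
      ∫ κ : ℝ, b κ * (∫ E : ℝ, f E * (nk T T' e a v (N k) (zk E (N k)) *
        ((conj (wf T' e (zk E (N k)) / a) - κ) * (wf T e (zk E (N k)) - κ))⁻¹)) ∂ρ := fun k =>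
    fubK (m_n F v (N k)) (m_c (m_w2 F (N k))) (m_w F (N k)) (ker_f_le F v (N k)) hf.i hb hBb
  simp only [e1]
  refine tendsto_integral_of_dominated_convergence
    (fun _ => Bb * ((∫ t : ℝ, ‖ph f t‖) * ‖v‖)) (fun k => ?_) (integrable_const _)
    (fun k => Eventually.of_forall fun κ => ?_) ?_
  · exact hb.aestronglyMeasurable.mul (m_int hf.i (m_n F v (N k)) (m_c (m_w2 F (N k)))
      (m_w F (N k)))
  · rw [norm_mul]
    exact mul_le_mul (hBb κ) (fwd_le F v hf (N k) κ) (norm_nonneg _) hb0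
  · filter_upwards [hB] with κ hκ
    exact (fwd F v hf hN κ hκ).const_mul _

theorem bwd_K (F : Fib T T' e a U U') (v : L2 ι →L[ℂ] L2 ι) {f : ℝ → ℂ} (hf : Nice f)
    {N : ℕ → ℕ} (hN : Tendsto N atTop atTop) {B : ℝ → L2 ι →L[ℂ] L2 ι}
    (hB : ∀ᵐ κ ∂ρ, AGood (U' κ) (U κ) v (fun k => ep (N k)) (B κ))
    (hb : Measurable b) (hBb : ∀ κ, ‖b κ‖ ≤ Bb) :
    Tendsto (fun k => ∫ E : ℝ, f E * (nk T T' e a v (N k) (conj (zk E (N k))) *
      Kf ρ b (wf T' e (zk E (N k)) / a) (conj (wf T e (zk E (N k)))))) atTop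
      (𝓝 (∫ κ, b κ * Lm f (U κ) (B κ) e ∂ρ)) := by
  have hb0 : 0 ≤ Bb := (norm_nonneg _).trans (hBb 0)
  have e1 : ∀ k, ∫ E : ℝ, f E * (nk T T' e a v (N k) (conj (zk E (N k))) *
      Kf ρ b (wf T' e (zk E (N k)) / a) (conj (wf T e (zk E (N k))))) =
      ∫ κ : ℝ, b κ * (∫ E : ℝ, f E * (nk T T' e a v (N k) (conj (zk E (N k))) *
        ((wf T' e (zk E (N k)) / a - κ) * (conj (wf T e (zk E (N k))) - κ))⁻¹)) ∂ρ := fun k =>
    fubK (m_m F v (N k)) (m_w2 F (N k)) (m_c (m_w F (N k))) (ker_b_le F v (N k)) hf.i hb hBb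
  simp only [e1]
  refine tendsto_integral_of_dominated_convergence
    (fun _ => Bb * ((∫ t : ℝ, ‖ph f t‖) * ‖v‖)) (fun k => ?_) (integrable_const _)
    (fun k => Eventually.of_forall fun κ => ?_) ?_
  · exact hb.aestronglyMeasurable.mul (m_int hf.i (m_m F v (N k)) (m_w2 F (N k))
      (m_c (m_w F (N k))))
  · rw [norm_mul]
    exact mul_le_mul (hBb κ) (bwd_le F v hf (N k) κ) (norm_nonneg _) hb0
  · filter_upwards [hB] with κ hκ
    exact (bwd F v hf hN κ hκ).const_mul _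

end Fib

end Pool.Agent.Helper26.Rg
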