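import Pool.Agent.Helper26.Rg.Cof

/-! # The fibre over one site: conclusion -/

set_option autoImplicit false

open MeasureTheory Filter Topology
open scoped ENNReal NNReal ComplexConjugate InnerProductSpace

namespace Pool.Agent.Helper26.Rg

open Pool.Agent.H5R2.NB Pool.Agent.Helper26.Cm Pool.Agent.Helper26.Dj
open Pool.Agent.TH369.AN (Rz rz_uniq rz_eq rz_norm pt pt_sa)
open Pool.Agent.TH369.MU (zk ep)

namespace Fib

variable {ι : Type} {T T' : L2 ι →L[ℂ] L2 ι} {e : L2 ι} {a : ℝ} {U U' : ℝ → UG (L2 ι)}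
  {ρ : Measure ℝ} [IsFiniteMeasure ρ] {C : ℝ≥0} {R : ℝ}

theorem dat (F : Fib T T' e a U U') (v : L2 ι →L[ℂ] L2 ι) (hρ : ρ ≤ C • (volume : Measure ℝ))
    (hR : ∀ᵐ κ ∂ρ, |κ| ≤ R) {N : ℕ → ℕ} (hN : Tendsto N atTop atTop)
    {B : ℝ → L2 ι →L[ℂ] L2 ι}
    (hB : ∀ᵐ κ ∂ρ, AGood (U' κ) (U κ) v (fun k => ep (N k)) (B κ)) :
    Dat ρ C R (‖v‖ / Real.sqrt |a|) (fun k E => wf T e (zk E (N k)))
      (fun k E => wf T' e (zk E (N k)) / a) (fun k E => nk T T' e a v (N k) (zk E (N k)))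
      (fun k E => nk T T' e a v (N k) (conj (zk E (N k)))) := by
  have hM : 0 ≤ ‖v‖ / Real.sqrt |a| := by positivity
  have hn : ∀ k E, ‖nk T T' e a v (N k) (zk E (N k))‖ ≤ ‖v‖ / Real.sqrt |a| *
      (Real.sqrt |(wf T e (zk E (N k))).im| * Real.sqrt |(wf T' e (zk E (N k)) / a).im|) :=
    fun k E => nk_bd F v E (N k) (zk_ne E (N k))
      (by rw [zk_im]; exact abs_of_pos (ep_pos _)) rfl rfl
  have hm : ∀ k E, ‖nk T T' e a v (N k) (conj (zk E (N k)))‖ ≤ ‖v‖ / Real.sqrt |a| *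
      (Real.sqrt |(wf T e (zk E (N k))).im| * Real.sqrt |(wf T' e (zk E (N k)) / a).im|) :=
    fun k E => nk_bd F v E (N k) (czk_ne E (N k))
      (by rw [Complex.conj_im, abs_neg, zk_im]; exact abs_of_pos (ep_pos _))
      (by rw [wf_conj F.sa (zk_ne E _), Complex.conj_im, abs_neg])
      (by rw [wf_conj F.sa' (zk_ne E _), Complex.conj_im, abs_neg])
  have hac : (a : ℂ) ≠ 0 := by exact_mod_cast F.ha
  refine ⟨hρ, hR, fun k => m_w F (N k), fun k => m_w2 F (N k), fun k => m_n F v (N k),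
    fun k => m_m F v (N k), fun k E => (F.wf_pos E (N k)).ne', fun k E => F.w2_ne E (N k),
    hn, hm, ?_, ?_, ?_, ?_⟩
  · filter_upwards [wf_lim F.sa F.he] with E hE
    obtain ⟨l, h1, h2⟩ := hE
    refine ⟨l, h1.comp hN, fun hl => ?_⟩
    obtain ⟨W, hW⟩ := h2 hl
    exact ⟨W, hW.comp hN⟩
  · filter_upwards [wf_lim F.sa' F.he] with E hE
    obtain ⟨l, h1, h2⟩ := hE
    refine ⟨l / a, ?_, fun hl => ?_⟩
    · refine ((h1.comp hN).div_const a).congr fun k => ?_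
      rw [w2_im]
      rfl
    · obtain ⟨W, hW⟩ := h2 (fun h0 => hl (by rw [h0, zero_div]))
      exact ⟨W / a, (hW.comp hN).div_const _⟩
  · intro L η hη
    obtain ⟨δ, hδ, h⟩ := wf_sep F.sa F.sa' F.e0 F.ha F.nd L hη
    exact ⟨δ, hδ, hN.eventually h⟩
  · intro f hf b Bb hb hBb
    have bX : BM fun k E => nk T T' e a v (N k) (zk E (N k)) *
        Kf ρ b (conj (wf T' e (zk E (N k)) / a)) (wf T e (zk E (N k))) := by
      refine ⟨fun k => (m_n F v (N k)).mul (Kf_meas hb (m_c (m_w2 F (N k))) (m_w F (N k))),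
        ‖v‖ / Real.sqrt |a| * (Bb * (C * Real.pi)), fun k E => ?_⟩
      refine nK_le hρ hM hBb (by rw [Complex.conj_im]; exact neg_ne_zero.2 (F.w2_ne E (N k)))
        (F.wf_pos E (N k)).ne' ((hn k E).trans (le_of_eq ?_))
      rw [Complex.conj_im, abs_neg, mul_comm (Real.sqrt |(wf T e (zk E (N k))).im|)]
    have bY : BM fun k E => nk T T' e a v (N k) (conj (zk E (N k))) *
        Kf ρ b (wf T' e (zk E (N k)) / a) (conj (wf T e (zk E (N k)))) := by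
      refine ⟨fun k => (m_m F v (N k)).mul (Kf_meas hb (m_w2 F (N k)) (m_c (m_w F (N k)))),
        ‖v‖ / Real.sqrt |a| * (Bb * (C * Real.pi)), fun k E => ?_⟩
      refine nK_le hρ hM hBb (F.w2_ne E (N k))
        (by rw [Complex.conj_im]; exact neg_ne_zero.2 (F.wf_pos E (N k)).ne')
        ((hm k E).trans (le_of_eq ?_))
      rw [Complex.conj_im, abs_neg, mul_comm (Real.sqrt |(wf T e (zk E (N k))).im|)]
    have key := Zt_of_nice (bX.sub bY) (fun g hg => ?_) hf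
    · exact key
    · have h1 := fwd_K F v hg hN hB hb hBb
      have h2 := bwd_K F v hg hN hB hb hBb
      have h3 := h1.sub h2
      rw [sub_self] at h3
      refine h3.congr fun k => ?_
      have i1 := bX.int hg.i k
      have i2 := bY.int hg.i k
      rw [← integral_sub i1 i2]
      refine integral_congr_ae (Eventually.of_forall fun E => ?_)
      simp only
      ring

lemma Lm_ae (F : Fib T T' e a U U') (v : L2 ι →L[ℂ] L2 ι) (hρ : ρ ≤ C • (volume : Measure ℝ))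
    (hR : ∀ᵐ κ ∂ρ, |κ| ≤ R) {N : ℕ → ℕ} (hN : Tendsto N atTop atTop)
    {B : ℝ → L2 ι →L[ℂ] L2 ι}
    (hB : ∀ᵐ κ ∂ρ, AGood (U' κ) (U κ) v (fun k => ep (N k)) (B κ)) {f : ℝ → ℂ} (hf : Nice f) :
    ∀ᵐ κ : ℝ ∂ρ, Lm f (U κ) (B κ) e = 0 := by
  have hM : 0 ≤ ‖v‖ / Real.sqrt |a| := by positivity
  have hD := dat F v hρ hR hN hB
  have hz : ∀ (b : ℝ → ℂ) (Bb : ℝ), Measurable b → (∀ κ, ‖b κ‖ ≤ Bb) →
      ∫ κ, b κ * Lm f (U κ) (B κ) e ∂ρ = 0 := fun b Bb hb hBb =>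
    tendsto_nhds_unique (fwd_K F v hf hN hB hb hBb) (hD.thmZ hM hb hBb hf.i)
  set K : ℝ := (∫ t : ℝ, ‖ph f t‖) * ‖v‖ with hK
  have hlim : ∀ᵐ κ : ℝ ∂ρ, Tendsto (fun k => ∫ E : ℝ, f E * (nk T T' e a v (N k) (zk E (N k)) *
      ((conj (wf T' e (zk E (N k)) / a) - κ) * (wf T e (zk E (N k)) - κ))⁻¹)) atTop
      (𝓝 (Lm f (U κ) (B κ) e)) := by
    filter_upwards [hB] with κ hκ using fwd F v hf hN κ hκ
  have hm : AEStronglyMeasurable (fun κ => Lm f (U κ) (B κ) e) ρ :=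
    aestronglyMeasurable_of_tendsto_ae atTop (fun k => m_int hf.i (m_n F v (N k))
      (m_c (m_w2 F (N k))) (m_w F (N k))) hlim
  have hbd : ∀ᵐ κ ∂ρ, ‖Lm f (U κ) (B κ) e‖ ≤ K := by
    filter_upwards [hlim] with κ hκ
    exact le_of_tendsto hκ.norm (Eventually.of_forall fun k => fwd_le F v hf (N k) κ)
  obtain ⟨L', hL'm, hL'⟩ := hm
  set b : ℝ → ℂ := fun κ => if ‖L' κ‖ ≤ K then conj (L' κ) else 0 with hb
  have hbm : Measurable b := by
    refine Measurable.ite ?_ (Complex.continuous_conj.measurable.comp hL'm.measurable)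
      measurable_const
    exact measurableSet_le hL'm.measurable.norm measurable_const
  have hK0 : 0 ≤ K := by
    rw [hK]
    have : 0 ≤ ∫ t : ℝ, ‖ph f t‖ := integral_nonneg fun _ => norm_nonneg _
    positivity
  have hbB : ∀ κ, ‖b κ‖ ≤ K := by
    intro κ
    rw [hb]
    simp only
    split_ifs with h
    · rwa [RCLike.norm_conj]
    · rwa [norm_zero]
  have h1 := hz b K hbm hbB
  have h2 : ∀ᵐ κ ∂ρ, b κ * Lm f (U κ) (B κ) e = ((‖Lm f (U κ) (B κ) e‖ ^ 2 : ℝ) : ℂ) := by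
    filter_upwards [hL', hbd] with κ h3 h4
    have h5 : ‖L' κ‖ ≤ K := by rw [← h3]; exact h4
    rw [hb]
    simp only
    rw [if_pos h5, ← h3, Complex.ofReal_pow, ← Complex.conj_mul']
  rw [integral_congr_ae h2, integral_complex_ofReal] at h1
  have h3 : ∫ κ, ‖Lm f (U κ) (B κ) e‖ ^ 2 ∂ρ = 0 := by exact_mod_cast h1
  have hi : Integrable (fun κ => ‖Lm f (U κ) (B κ) e‖ ^ 2) ρ := by
    have hm2 : AEStronglyMeasurable (fun κ => Lm f (U κ) (B κ) e) ρ := ⟨L', hL'm, hL'⟩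
    refine Integrable.of_bound (C := K ^ 2) (hm2.norm.pow 2) ?_
    filter_upwards [hbd] with κ hκ
    rw [Real.norm_of_nonneg (by positivity)]
    exact pow_le_pow_left₀ (norm_nonneg _) hκ 2
  have h4 := (integral_eq_zero_iff_of_nonneg (fun κ => by positivity) hi).1 h3
  filter_upwards [h4] with κ hκ
  simpa using hκ

/-- In the fibre the limit has no matrix elements between `e` and its orbit. -/
theorem core (F : Fib T T' e a U U') (v : L2 ι →L[ℂ] L2 ι) (hρ : ρ ≤ C • (volume : Measure ℝ))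
    (hR : ∀ᵐ κ ∂ρ, |κ| ≤ R) {N : ℕ → ℕ} (hN : Tendsto N atTop atTop)
    {B : ℝ → L2 ι →L[ℂ] L2 ι}
    (hB : ∀ᵐ κ ∂ρ, AGood (U' κ) (U κ) v (fun k => ep (N k)) (B κ)) :
    ∀ᵐ κ ∂ρ, ∀ t, ⟪e, B κ ((U κ).U t e)⟫_ℂ = 0 := by
  have h1 : ∀ᵐ κ ∂ρ, ∀ (m : ℕ) (q : ℚ), Lm (gq m q) (U κ) (B κ) e = 0 := by
    rw [ae_all_iff]
    intro m
    rw [ae_all_iff]
    intro q
    exact Lm_ae F v hρ hR hN hB (nice_gq m q)
  filter_upwards [h1] with κ hκ
  refine gq_sep (g := fun t => ⟪e, B κ ((U κ).U t e)⟫_ℂ) (K := ‖B κ‖) ?_ (fun t => ?_) fun m q => ?_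
  · exact continuous_const.inner ((B κ).continuous.comp ((U κ).cont' e))
  · refine (norm_inner_le_norm _ _).trans ?_
    rw [F.he, one_mul]
    refine ((B κ).le_opNorm _).trans ?_
    rw [(U κ).norm', F.he, mul_one]
  · have h2 := hκ m q
    unfold Lm at h2
    exact (mul_eq_zero.1 h2).resolve_left (by norm_num)

end Fib

end Pool.Agent.Helper26.Rg
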