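import Pool.Agent.Helper26.Rg.Cog
import Pool.Agent.Helper26.Cm.Kv
import Pool.Graph.R_seed8.H5R2.NB.BP

/-! # The limit vanishes at `e` -/

set_option autoImplicit false

open MeasureTheory Filter Topology
open scoped ENNReal NNReal ComplexConjugate InnerProductSpace

namespace Pool.Agent.Helper26.Rg

open Pool.Agent.H5R2.NB Pool.Agent.Helper26.Nb Pool.Agent.Helper26.Cm Pool.Agent.Helper26.Dj
open Pool.Agent.TH369.AN (Rz rz_uniq rz_eq rz_norm pt pt_sa)
open Pool.Agent.TH369.MU (zk ep)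

variable {ι : Type}

lemma good_dsum {W' W : UG (L2 ι)} {v₀ : L2 ι →L[ℂ] L2 ι} {Nk : ℕ → ℕ} {B : L2 ι →L[ℂ] L2 ι}
    (h : GGood W' W v₀ Nk B) :
    Good (dsum W' W) ((e1.comp v₀).comp r2) Nk ((e1.comp B).comp r2) := by
  let v : L2 (ι ⊕ ι) →L[ℂ] L2 (ι ⊕ ι) := (e1.comp v₀).comp r2
  have hP : ∀ N (x : L2 (ι ⊕ ι)), avP (dsum W' W) v N x = e1 (gP W' W v₀ N (r2 x)) := by
    intro N x
    unfold avP gP
    rw [map_smul]
    congr 1
    have e := ContinuousLinearMap.intervalIntegral_comp_comm (e1 (ι := ι) (ι' := ι))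
      ((cont_gP W' W v₀ (r2 x)).intervalIntegrable (μ := volume) (0 : ℝ) (N : ℝ))
    refine Eq.trans ?_ e
    refine intervalIntegral.integral_congr fun s _ => ?_
    show (dsum W' W).U (-s) (e1 (v₀ (r2 ((dsum W' W).U s x)))) = _
    rw [dsum_e1, r2_dsum]
  have hM : ∀ N (x : L2 (ι ⊕ ι)), avM (dsum W' W) v N x = e1 (gM W' W v₀ N (r2 x)) := by
    intro N x
    unfold avM gM
    rw [map_smul]
    congr 1
    have e := ContinuousLinearMap.intervalIntegral_comp_comm (e1 (ι := ι) (ι' := ι))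
      ((cont_gM W' W v₀ (r2 x)).intervalIntegrable (μ := volume) (0 : ℝ) (N : ℝ))
    refine Eq.trans ?_ e
    refine intervalIntegral.integral_congr fun s _ => ?_
    show (dsum W' W).U s (e1 (v₀ (r2 ((dsum W' W).U (-s) x)))) = _
    rw [dsum_e1, r2_dsum]
  intro x
  constructor
  · show Tendsto (fun k => avP (dsum W' W) v (Nk k) x) atTop _
    simp only [hP]
    exact (e1.continuous.tendsto _).comp (h (r2 x)).1
  · show Tendsto (fun k => avM (dsum W' W) v (Nk k) x) atTop _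
    simp only [hM]
    exact (e1.continuous.tendsto _).comp (h (r2 x)).2

/-- the limit intertwines -/
lemma inter {W' W : UG (L2 ι)} {v : L2 ι →L[ℂ] L2 ι} {Nk : ℕ → ℕ} (hNk : Tendsto Nk atTop atTop)
    {B : L2 ι →L[ℂ] L2 ι} (h : GGood W' W v Nk B) (t : ℝ) (x : L2 ι) :
    B (W.U t x) = W'.U t (B x) := by
  have h1 := (t_BP _ _ _ Nk hNk _ (good_dsum h)).2 t (e2 x)
  simp only [ContinuousLinearMap.comp_apply, dsum_e2, r2_e2, dsum_e1] at h1
  have h2 := congrArg (r1 (ι := ι) (ι' := ι)) h1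
  rwa [r1_e1, r1_e1] at h2

/-- the orthogonal complement of the cyclic space -/
def Kc (W : UG (L2 ι)) (e : L2 ι) : Submodule ℂ (L2 ι) where
  carrier := {φ | ∀ t, ⟪φ, W.U t e⟫_ℂ = 0}
  add_mem' := fun {a b} ha hb t => by
    rw [inner_add_left, ha t, hb t, add_zero]
  zero_mem' := fun t => inner_zero_left _
  smul_mem' := fun c a ha t => by
    rw [inner_smul_left, ha t, mul_zero]

lemma Kc_closed (W : UG (L2 ι)) (e : L2 ι) : IsClosed (Kc W e : Set (L2 ι)) := by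
  have h1 : (Kc W e : Set (L2 ι)) = ⋂ t : ℝ, {φ | ⟪φ, W.U t e⟫_ℂ = 0} := by
    ext φ
    rw [Set.mem_iInter]
    exact Iff.rfl
  rw [h1]
  refine isClosed_iInter fun t => ?_
  exact isClosed_eq (continuous_id.inner continuous_const) continuous_const

section

variable (V : ℝ → UG (L2 ι)) (e : L2 ι) (hV : Fam V e)

instance kcProj (W : UG (L2 ι)) (e : L2 ι) : (Kc W e).HasOrthogonalProjection := by
  haveI : CompleteSpace (Kc W e) := (Kc_closed W e).completeSpace_coe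
  infer_instance

/-- the projection -/
noncomputable def Pc (W : UG (L2 ι)) (e : L2 ι) : L2 ι →L[ℂ] L2 ι := (Kc W e).starProjection

include hV in
lemma Kc_indep (κ κ' : ℝ) (φ : L2 ι) (h : φ ∈ Kc (V κ) e) : φ ∈ Kc (V κ') e :=
  (t_NN ι V e hV κ κ' φ h).1

lemma Kc_inv (W : UG (L2 ι)) (e φ : L2 ι) (h : φ ∈ Kc W e) (t : ℝ) : W.U t φ ∈ Kc W e := by
  intro s
  rw [adjU, ← W.add']
  exact h _

include hV in
lemma Pc_comm (κ t : ℝ) (y : L2 ι) : Pc (V 0) e ((V κ).U t y) = (V 0).U t (Pc (V 0) e y) := by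
  have hm : Pc (V 0) e y ∈ Kc (V 0) e := Submodule.starProjection_apply_mem _ _
  have hmκ : Pc (V 0) e y ∈ Kc (V κ) e := Kc_indep V e hV 0 κ _ hm
  have hag : (V 0).U t (Pc (V 0) e y) = (V κ).U t (Pc (V 0) e y) :=
    (t_NN ι V e hV κ 0 _ hmκ).2 t
  refine Submodule.eq_starProjection_of_mem_of_inner_eq_zero (Kc_inv _ _ _ hm t) fun w hw => ?_
  rw [hag, ← map_sub, adjU]
  have hwκ : w ∈ Kc (V κ) e := Kc_indep V e hV 0 κ _ hw
  have h2 : (V κ).U (-t) w ∈ Kc (V κ) e := Kc_inv _ _ _ hwκ _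
  have h3 : (V κ).U (-t) w ∈ Kc (V 0) e := Kc_indep V e hV κ 0 _ h2
  exact Submodule.starProjection_inner_eq_zero y _ h3

include hV in
lemma Pc_good {W : UG (L2 ι)} {v : L2 ι →L[ℂ] L2 ι} {Nk : ℕ → ℕ} {B : L2 ι →L[ℂ] L2 ι} (κ : ℝ)
    (h : GGood (V κ) W v Nk B) :
    GGood (V 0) W ((Pc (V 0) e).comp v) Nk ((Pc (V 0) e).comp B) := by
  intro x
  have hP : ∀ N, gP (V 0) W ((Pc (V 0) e).comp v) N x = Pc (V 0) e (gP (V κ) W v N x) := by
    intro N
    unfold gP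
    rw [map_smul]
    congr 1
    have e' := ContinuousLinearMap.intervalIntegral_comp_comm (Pc (V 0) e)
      ((cont_gP (V κ) W v x).intervalIntegrable (μ := volume) (0 : ℝ) (N : ℝ))
    refine Eq.trans ?_ e'
    refine intervalIntegral.integral_congr fun s _ => ?_
    show (V 0).U (-s) (Pc (V 0) e (v (W.U s x))) = Pc (V 0) e ((V κ).U (-s) (v (W.U s x)))
    rw [Pc_comm V e hV]
  have hM : ∀ N, gM (V 0) W ((Pc (V 0) e).comp v) N x = Pc (V 0) e (gM (V κ) W v N x) := by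
    intro N
    unfold gM
    rw [map_smul]
    congr 1
    have e' := ContinuousLinearMap.intervalIntegral_comp_comm (Pc (V 0) e)
      ((cont_gM (V κ) W v x).intervalIntegrable (μ := volume) (0 : ℝ) (N : ℝ))
    refine Eq.trans ?_ e'
    refine intervalIntegral.integral_congr fun s _ => ?_
    show (V 0).U s (Pc (V 0) e (v (W.U (-s) x))) = Pc (V 0) e ((V κ).U s (v (W.U (-s) x)))
    rw [Pc_comm V e hV]
  constructor
  · simp only [hP]
    exact ((Pc (V 0) e).continuous.tendsto _).comp (h x).1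
  · simp only [hM]
    exact ((Pc (V 0) e).continuous.tendsto _).comp (h x).2

end

variable {T T' : L2 ι →L[ℂ] L2 ι} {e : L2 ι} {a : ℝ} {U U' : ℝ → UG (L2 ι)}

/-- In the fibre the limit vanishes at `e`. -/
theorem fibZ [Countable ι] (F : Fib T T' e a U U') (hU : Fam U e) {V : ℝ → UG (L2 ι)}
    (hV : Fam V e) (hU' : ∀ κ, U' κ = V (a * κ)) (ρ : Measure ℝ) [IsProbabilityMeasure ρ]
    {C : ℝ≥0} (hρ : ρ ≤ C • (volume : Measure ℝ)) {R : ℝ} (hR : ∀ᵐ κ ∂ρ, |κ| ≤ R)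
    (v : L2 ι →L[ℂ] L2 ι) {Nk Mk : ℕ → ℕ} (hNk : Tendsto Nk atTop atTop)
    (hMk : Tendsto Mk atTop atTop) {B : ℝ → L2 ι →L[ℂ] L2 ι}
    (hB : ∀ᵐ κ ∂ρ, GGood (U' κ) (U κ) v Nk (B κ) ∧
      AGood (U' κ) (U κ) v (fun k => ep (Mk k)) (B κ)) : ∀ᵐ κ ∂ρ, B κ e = 0 := by
  have h1 := Fib.core F v hρ hR hMk (B := B) (by filter_upwards [hB] with κ hκ using hκ.2)
  have h2 := gzero (V 0) U e hU ρ C hρ ((Pc (V 0) e).comp v) Nk hNk
    (fun κ => (Pc (V 0) e).comp (B κ)) (by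
      filter_upwards [hB] with κ hκ
      have h3 := hκ.1
      rw [hU' κ] at h3
      exact Pc_good V e hV (a * κ) h3)
  filter_upwards [h1, h2, hB] with κ h3 h4 h5
  -- `B κ e` is orthogonal to the cyclic space of `e`
  have h6 : B κ e ∈ Kc (V (a * κ)) e := by
    intro t
    have h7 := h3 (-t)
    rw [inter hNk h5.1, hU' κ] at h7
    rw [← inner_conj_symm, adjU]
    rw [h7, map_zero]
  have h8 : B κ e ∈ Kc (V 0) e := Kc_indep V e hV _ _ _ h6
  have h9 : Pc (V 0) e (B κ e) = B κ e := Submodule.starProjection_eq_self_iff.2 h8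
  rw [← h9]
  exact h4

end Pool.Agent.Helper26.Rg
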