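import Pool.Agent.Helper26.Rg.Abs
import Pool.Agent.Helper26.Rg.Fbz

/-! # Both kinds of averages -/

set_option autoImplicit false

open MeasureTheory Filter Topology ProbabilityTheory
open scoped ENNReal NNReal ComplexConjugate InnerProductSpace

namespace Pool.Agent.Helper26.Rg

open Pool.Agent.H5R2.NB Pool.Agent.Helper26.Nb Pool.Agent.Helper26.Cm Pool.Agent.Helper26.Dj
open Pool.Agent.TH369.AN (Rz rz_uniq rz_eq rz_norm pt pt_sa)
open Pool.Agent.TH369.MU (zk ep)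

section gen

variable {X : Type} [NormedAddCommGroup X] [InnerProductSpace ℂ X]

lemma aP_Ioi (ε : ℝ) (W' W : UG X) (v : X →L[ℂ] X) (x : X) :
    aP ε W' W v x = ∫ s in Set.Ioi (0 : ℝ), (2 * ε * Real.exp (-(2 * ε) * s)) •
      W'.U (-s) (v (W.U s x)) := by
  unfold aP
  rw [← integral_indicator measurableSet_Ioi]
  refine integral_congr_ae (Eventually.of_forall fun s => ?_)
  simp only
  rw [Complex.coe_smul]
  unfold eR
  by_cases hs : s ∈ Set.Ioi (0 : ℝ)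
  · rw [Set.indicator_of_mem hs, Set.indicator_of_mem hs]
  · rw [Set.indicator_of_notMem hs, Set.indicator_of_notMem hs, mul_zero, zero_smul]

variable [CompleteSpace X]

lemma aP_vadd {ε : ℝ} (hε : 0 < ε) (W' W : UG X) (v w : X →L[ℂ] X) (x : X) :
    aP ε W' W (v + w) x = aP ε W' W v x + aP ε W' W w x := by
  unfold aP
  rw [← integral_add (aP_int W' W v x hε) (aP_int W' W w x hε)]
  refine integral_congr_ae (Eventually.of_forall fun s => ?_)
  simp only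
  rw [_root_.add_apply, map_add, smul_add]

lemma aP_add {ε : ℝ} (hε : 0 < ε) (W' W : UG X) (v : X →L[ℂ] X) (x y : X) :
    aP ε W' W v (x + y) = aP ε W' W v x + aP ε W' W v y := by
  unfold aP
  rw [← integral_add (aP_int W' W v x hε) (aP_int W' W v y hε)]
  refine integral_congr_ae (Eventually.of_forall fun s => ?_)
  simp only
  rw [map_add, map_add, map_add, smul_add]

lemma aP_smul (ε : ℝ) (W' W : UG X) (v : X →L[ℂ] X) (c : ℂ) (x : X) :
    aP ε W' W v (c • x) = c • aP ε W' W v x := by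
  unfold aP
  rw [← integral_smul]
  refine integral_congr_ae (Eventually.of_forall fun s => ?_)
  simp only
  rw [map_smul, map_smul, map_smul, smul_comm]

/-- the Abel average as an operator -/
noncomputable def APL {ε : ℝ} (hε : 0 < ε) (W' W : UG X) (v : X →L[ℂ] X) : X →L[ℂ] X :=
  LinearMap.mkContinuous
    { toFun := aP ε W' W v
      map_add' := fun x y => aP_add hε W' W v x y
      map_smul' := fun c x => aP_smul ε W' W v c x } ‖v‖ fun x => aP_norm W' W v x hε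

/-- from Cesaro to Abel -/
lemma ces_abel {W' W : UG X} {v : X →L[ℂ] X} {x y : X}
    (h : Tendsto (fun N : ℕ => gP W' W v N x) atTop (𝓝 y)) {ek : ℕ → ℝ} (hek : ∀ k, 0 < ek k)
    (hek0 : Tendsto ek atTop (𝓝 0)) : Tendsto (fun k => aP (ek k) W' W v x) atTop (𝓝 y) := by
  have h1 := abR (Measure.dirac ()) (fun s (_ : Unit) => W'.U (-s) (v (W.U s x))) (‖v‖ * ‖x‖)
    (b := fun _ => y) (fun _ => cont_gP W' W v x) (fun _ => stronglyMeasurable_const)
    (fun s _ => norm_g W' W v x _ _) aestronglyMeasurable_const (by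
      simp only [lintegral_dirac]
      have h2 := ((h.sub_const y).enorm)
      rw [sub_self, enorm_zero] at h2
      have h3 := ((ENNReal.continuous_pow 2).tendsto 0).comp h2
      simpa [Function.comp_def, gP] using h3) (r := fun k => 2 * ek k)
      (fun k => by have := hek k; positivity)
      (by have := hek0.const_mul 2; rwa [mul_zero] at this)
  simp only [lintegral_dirac] at h1
  refine LIMB.tendsto_of_enorm_sq (h1.congr fun k => ?_)
  rw [aP_Ioi]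

end gen

variable {ι : Type}

lemma AGood.add {W' W : UG (L2 ι)} {v w : L2 ι →L[ℂ] L2 ι} {ek : ℕ → ℝ} (hek : ∀ k, 0 < ek k)
    {B B' : L2 ι →L[ℂ] L2 ι} (h : AGood W' W v ek B) (h' : AGood W' W w ek B') :
    AGood W' W (v + w) ek (B + B') := by
  intro x
  constructor
  · have := (h x).1.add (h' x).1
    refine this.congr fun k => ?_
    rw [aP_vadd (hek k)]
  · have := (h x).2.add (h' x).2
    refine this.congr fun k => ?_
    rw [aP_vadd (hek k)]

/-- both averages -/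
def HGood (W' W : UG (L2 ι)) (v : L2 ι →L[ℂ] L2 ι) (Nk : ℕ → ℕ) (ek : ℕ → ℝ)
    (B : L2 ι →L[ℂ] L2 ι) : Prop := GGood W' W v Nk B ∧ AGood W' W v ek B

theorem fr_hgood (W' W : UG (L2 ι)) (F : L2 ι →L[ℂ] L2 ι) (hF : FR F) (Nk : ℕ → ℕ)
    (hNk : Tendsto Nk atTop atTop) {ek : ℕ → ℝ} (hek : ∀ k, 0 < ek k)
    (hek0 : Tendsto ek atTop (𝓝 0)) : ∃ B, HGood W' W F Nk ek B := by
  obtain ⟨B, hB⟩ := fr_good W' W F hF id tendsto_id
  refine ⟨B, fun x => ⟨(hB x).1.comp hNk, (hB x).2.comp hNk⟩, fun x => ⟨?_, ?_⟩⟩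
  · exact ces_abel (hB x).1 hek hek0
  · refine ces_abel ?_ hek hek0
    refine (hB x).2.congr fun N => ?_
    rw [id, gM_rev]

theorem kvH (W' U : ℝ → UG (L2 ι)) (e : L2 ι) (Φ : Set (L2 ι))
    (ν : Measure ℝ) [IsProbabilityMeasure ν] (C : ℝ≥0) (hν : ν ≤ C • volume) (Nk : ℕ → ℕ)
    (hNk : Tendsto Nk atTop atTop) {ek : ℕ → ℝ} (hek : ∀ k, 0 < ek k)
    (hek0 : Tendsto ek atTop (𝓝 0))
    (base : ∀ (ν' : Measure ℝ) [IsProbabilityMeasure ν'] (C' : ℝ≥0), ν' ≤ C' • volume → ν' ≪ ν →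
      ∀ (w : L2 ι →L[ℂ] L2 ι) (B : ℝ → L2 ι →L[ℂ] L2 ι),
        (∀ᵐ κ ∂ν', HGood (W' κ) (U κ) w Nk ek (B κ)) → ∀ᵐ κ ∂ν', ∀ φ ∈ Φ, ⟪φ, B κ e⟫_ℂ = 0)
    (v : ℝ → L2 ι →L[ℂ] L2 ι) (hv : Continuous v) (hfr : ∀ κ κ', FR (v κ - v κ'))
    (B : ℝ → L2 ι →L[ℂ] L2 ι) (hB : ∀ᵐ κ ∂ν, HGood (W' κ) (U κ) (v κ) Nk ek (B κ)) :
    ∀ᵐ κ ∂ν, ∀ φ ∈ Φ, ⟪φ, B κ e⟫_ℂ = 0 := by
  set O : ℕ → ℚ → Set ℝ := fun n q => {κ | ‖v κ - v q‖ < 1 / ((n : ℝ) + 1)} with hO
  have hopen : ∀ n q, IsOpen (O n q) := by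
    intro n q
    exact isOpen_lt (hv.sub continuous_const).norm continuous_const
  have claim : ∀ n q, ∀ᵐ κ ∂ν, κ ∈ O n q →
      ∀ φ ∈ Φ, ‖⟪φ, B κ e⟫_ℂ‖ ≤ ‖φ‖ * ‖e‖ * (1 / ((n : ℝ) + 1)) := by
    intro n q
    by_cases h0 : ν (O n q) = 0
    · have : ∀ᵐ κ ∂ν, κ ∉ O n q := measure_eq_zero_iff_ae_notMem.1 h0
      filter_upwards [this] with κ hκ h1
      exact absurd h1 hκ
    · have hms := (hopen n q).measurableSet
      have hp : IsProbabilityMeasure (ProbabilityTheory.cond ν (O n q)) :=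
        cond_isProbabilityMeasure h0
      obtain ⟨C', hC'⟩ := cond_le hν hms h0
      choose F hF using fun κ => fr_hgood (W' κ) (U κ) (v q - v κ) (hfr q κ) Nk hNk hek hek0
      have hac : ProbabilityTheory.cond ν (O n q) ≪ ν := by
        have h3 : ProbabilityTheory.cond ν (O n q) = (ν (O n q))⁻¹ • ν.restrict (O n q) := rfl
        rw [h3]
        exact (Measure.smul_absolutelyContinuous).trans Measure.restrict_le_self.absolutelyContinuous
      have hB' : ∀ᵐ κ ∂(ProbabilityTheory.cond ν (O n q)),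
          HGood (W' κ) (U κ) (v q) Nk ek (B κ + F κ) := by
        filter_upwards [hac.ae_le hB] with κ hκ
        have h1 := hκ.1.add (hF κ).1
        have h2 := hκ.2.add hek (hF κ).2
        rw [add_sub_cancel] at h1 h2
        exact ⟨h1, h2⟩
      have hb := base _ C' hC' hac (v q) (fun κ => B κ + F κ) hB'
      refine ae_of_cond hms ?_
      filter_upwards [hb, ae_cond_mem (μ := ν) hms] with κ hκ hκO φ hφ
      have h4 := hκ φ hφ
      rw [_root_.add_apply, inner_add_right] at h4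
      have h5 : ⟪φ, B κ e⟫_ℂ = -⟪φ, F κ e⟫_ℂ := eq_neg_of_add_eq_zero_left h4
      rw [h5, norm_neg]
      have h6 := (hF κ).1.norm_le e
      have h7 : ‖v q - v κ‖ < 1 / ((n : ℝ) + 1) := by
        rw [norm_sub_rev]
        exact hκO
      calc ‖⟪φ, F κ e⟫_ℂ‖ ≤ ‖φ‖ * ‖F κ e‖ := norm_inner_le_norm _ _
        _ ≤ ‖φ‖ * (‖v q - v κ‖ * ‖e‖) := by gcongr
        _ ≤ ‖φ‖ * ((1 / ((n : ℝ) + 1)) * ‖e‖) := by gcongr
        _ = _ := by ring
  have hall := ae_all_iff.2 fun n => ae_all_iff.2 fun q => claim n q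
  filter_upwards [hall] with κ hκ φ hφ
  have hbd : ∀ n : ℕ, ‖⟪φ, B κ e⟫_ℂ‖ ≤ ‖φ‖ * ‖e‖ * (1 / ((n : ℝ) + 1)) := by
    intro n
    have hop : IsOpen {r : ℝ | ‖v κ - v r‖ < 1 / ((n : ℝ) + 1)} :=
      isOpen_lt (continuous_const.sub hv).norm continuous_const
    obtain ⟨q, hq⟩ := Rat.denseRange_cast.exists_mem_open hop
      ⟨κ, by
        show ‖v κ - v κ‖ < 1 / ((n : ℝ) + 1)
        rw [sub_self, norm_zero]; positivity⟩
    exact hκ n q hq φ hφ
  have hlim : Tendsto (fun n : ℕ => ‖φ‖ * ‖e‖ * (1 / ((n : ℝ) + 1))) atTop (𝓝 0) := by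
    have := (tendsto_one_div_add_atTop_nhds_zero_nat (𝕜 := ℝ)).const_mul (‖φ‖ * ‖e‖)
    rwa [mul_zero] at this
  have h8 := ge_of_tendsto' hlim hbd
  exact norm_le_zero_iff.1 h8

/-- the fibre theorem for observables depending on the resampled variable -/
theorem fibH [Countable ι] {T T' : L2 ι →L[ℂ] L2 ι} {e : L2 ι} {a : ℝ} {U U' : ℝ → UG (L2 ι)}
    (F : Fib T T' e a U U') (hU : Fam U e) {V : ℝ → UG (L2 ι)}
    (hV : Fam V e) (hU' : ∀ κ, U' κ = V (a * κ)) (ρ : Measure ℝ) [IsProbabilityMeasure ρ]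
    {C : ℝ≥0} (hρ : ρ ≤ C • (volume : Measure ℝ)) {R : ℝ} (hR : ∀ᵐ κ ∂ρ, |κ| ≤ R)
    {Nk Mk : ℕ → ℕ} (hNk : Tendsto Nk atTop atTop)
    (hMk : Tendsto Mk atTop atTop) (v : ℝ → L2 ι →L[ℂ] L2 ι) (hv : Continuous v)
    (hfr : ∀ κ κ', FR (v κ - v κ')) {B : ℝ → L2 ι →L[ℂ] L2 ι}
    (hB : ∀ᵐ κ ∂ρ, HGood (U' κ) (U κ) (v κ) Nk (fun k => ep (Mk k)) (B κ)) :
    ∀ᵐ κ ∂ρ, B κ e = 0 := by
  have hep : Tendsto (fun k => ep (Mk k)) atTop (𝓝 0) := by
    have : Tendsto ep atTop (𝓝 0) := by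
      unfold ep
      exact tendsto_one_div_add_atTop_nhds_zero_nat (𝕜 := ℝ)
    exact this.comp hMk
  have h1 := kvH U' U e Set.univ ρ C hρ Nk hNk (ek := fun k => ep (Mk k))
    (fun k => Fib.ep_pos _) hep (fun ν' _ C' hν' hac w B hB => by
      filter_upwards [fibZ F hU hV hU' ν' hν' (hac.ae_le hR) w hNk hMk hB] with κ hκ φ _
      rw [hκ, inner_zero_right]) v hv hfr B hB
  filter_upwards [h1] with κ hκ
  exact inner_self_eq_zero.1 (hκ (B κ e) (Set.mem_univ _))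

/-- the same for absolutely continuous laws -/
theorem fibA [Countable ι] {T T' : L2 ι →L[ℂ] L2 ι} {e : L2 ι} {a : ℝ} {U U' : ℝ → UG (L2 ι)}
    (F : Fib T T' e a U U') (hU : Fam U e) {V : ℝ → UG (L2 ι)}
    (hV : Fam V e) (hU' : ∀ κ, U' κ = V (a * κ)) (ν : Measure ℝ) [IsProbabilityMeasure ν]
    (hν : ν ≪ volume) {R : ℝ} (hR : ∀ᵐ κ ∂ν, |κ| ≤ R)
    {Nk Mk : ℕ → ℕ} (hNk : Tendsto Nk atTop atTop)
    (hMk : Tendsto Mk atTop atTop) (v : ℝ → L2 ι →L[ℂ] L2 ι) (hv : Continuous v)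
    (hfr : ∀ κ κ', FR (v κ - v κ')) {B : ℝ → L2 ι →L[ℂ] L2 ι}
    (hB : ∀ᵐ κ ∂ν, HGood (U' κ) (U κ) (v κ) Nk (fun k => ep (Mk k)) (B κ)) :
    ∀ᵐ κ ∂ν, B κ e = 0 := by
  set f : ℝ → ℝ≥0∞ := ν.rnDeriv volume with hf
  have hfm : Measurable f := Measure.measurable_rnDeriv _ _
  have hwd : volume.withDensity f = ν := Measure.withDensity_rnDeriv_eq _ _ hν
  have hfin : ∀ᵐ κ ∂ν, f κ < ∞ := hν.ae_le (Measure.rnDeriv_lt_top ν volume)
  set O : ℕ → Set ℝ := fun n => {κ | f κ ≤ n} with hO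
  have hOm : ∀ n, MeasurableSet (O n) := fun n => measurableSet_le hfm measurable_const
  have claim : ∀ n, ∀ᵐ κ ∂ν, κ ∈ O n → B κ e = 0 := by
    intro n
    by_cases h0 : ν (O n) = 0
    · have : ∀ᵐ κ ∂ν, κ ∉ O n := measure_eq_zero_iff_ae_notMem.1 h0
      filter_upwards [this] with κ hκ h1
      exact absurd h1 hκ
    · have hp : IsProbabilityMeasure (ProbabilityTheory.cond ν (O n)) :=
        cond_isProbabilityMeasure h0
      have h2 : ν (O n) ≠ ∞ := measure_ne_top _ _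
      have hC : ProbabilityTheory.cond ν (O n) ≤
          ((ν (O n)).toNNReal⁻¹ * (n : ℝ≥0)) • (volume : Measure ℝ) := by
        have h3 : ((((ν (O n)).toNNReal⁻¹ : ℝ≥0)) : ℝ≥0∞) = (ν (O n))⁻¹ := by
          rw [ENNReal.coe_inv, ENNReal.coe_toNNReal h2]
          intro h0'
          rw [ENNReal.toNNReal_eq_zero_iff] at h0'
          rcases h0' with h0' | h0'
          · exact h0 h0'
          · exact h2 h0'
        refine Measure.le_iff.2 fun A hA => ?_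
        rw [cond_apply (hOm n), Measure.smul_apply, ENNReal.smul_def, ENNReal.coe_mul, h3,
          smul_eq_mul, mul_assoc]
        gcongr
        have h4 : ν (O n ∩ A) = ∫⁻ κ in O n ∩ A, f κ := by
          conv_lhs => rw [← hwd]
          exact withDensity_apply _ ((hOm n).inter hA)
        rw [h4]
        calc ∫⁻ κ in O n ∩ A, f κ ≤ ∫⁻ _ in O n ∩ A, (n : ℝ≥0∞) :=
              setLIntegral_mono' ((hOm n).inter hA) fun κ hκ => hκ.1
          _ = (n : ℝ≥0∞) * volume (O n ∩ A) := by rw [setLIntegral_const]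
          _ ≤ _ := by
            rw [ENNReal.coe_natCast]
            gcongr
            exact Set.inter_subset_right
      have hac : ProbabilityTheory.cond ν (O n) ≪ ν := by
        have h3 : ProbabilityTheory.cond ν (O n) = (ν (O n))⁻¹ • ν.restrict (O n) := rfl
        rw [h3]
        exact (Measure.smul_absolutelyContinuous).trans Measure.restrict_le_self.absolutelyContinuous
      exact ae_of_cond (hOm n) (fibH F hU hV hU' _ hC (hac.ae_le hR) hNk hMk v hv hfr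
        (hac.ae_le hB))
  filter_upwards [ae_all_iff.2 claim, hfin] with κ hκ h1
  obtain ⟨n, hn⟩ := ENNReal.exists_nat_gt h1.ne
  exact hκ n hn.le

end Pool.Agent.Helper26.Rg
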