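import Pool.Agent.Helper26.Rg.Vl
import Pool.Agent.Helper26.Rg.Sep
import Pool.Agent.Helper26.Dj.Asl

/-! # The lattice: two Hamiltonians in the same random potential -/

set_option autoImplicit false
set_option linter.unusedSectionVars false

open MeasureTheory Filter Topology ProbabilityTheory
open scoped BigOperators ENNReal NNReal InnerProductSpace ComplexConjugate

namespace Pool.Agent.Helper26.Rg

open Pool.Agent.H5R2.NB Pool.Agent.Helper26.Nb Pool.Agent.Helper26.Cm Pool.Agent.Helper26.Dj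
open Pool.Agent.TH369.AN (Rz pt pt_sa ro)
open Pool.Agent.TH369.MU (zk ep)

variable {d : ℕ}

/-- the hopping operator -/
noncomputable def Kp (d : ℕ) (c : ℝ) : L2 (Site d) →L[ℂ] L2 (Site d) := ((t_OPS d).2.1 c).choose

lemma Kp_hop (d : ℕ) (c : ℝ) : IsHop c (Kp d c) := ((t_OPS d).2.1 c).choose_spec

lemma nV {V : Site d → ℝ} {R : ℝ} (hV : ∀ x, |V x| ≤ R) (x : Site d) : ‖((V x : ℝ) : ℂ)‖ ≤ R := by
  rw [Complex.norm_real]; exact hV x

/-- the Schroedinger operator with a bounded potential -/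
noncomputable def TV (c : ℝ) (V : Site d → ℝ) (R : ℝ) (hV : ∀ x, |V x| ≤ R) :
    L2 (Site d) →L[ℂ] L2 (Site d) :=
  Kp d c + mulL (fun x => ((V x : ℝ) : ℂ)) R (nV hV)

lemma TV_apply (c : ℝ) (V : Site d → ℝ) (R : ℝ) (hV : ∀ x, |V x| ≤ R) (ψ : L2 (Site d))
    (x : Site d) : (TV c V R hV ψ) x = hopf c (fun y => ψ y) x + V x * ψ x := by
  unfold TV
  rw [_root_.add_apply, lp.coeFn_add, Pi.add_apply, Kp_hop d c, mulL_apply]

lemma mulL_sa (V : Site d → ℝ) (R : ℝ) (hV : ∀ x, |V x| ≤ R) (a b : L2 (Site d)) :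
    ⟪mulL (fun x => ((V x : ℝ) : ℂ)) R (nV hV) a, b⟫_ℂ =
      ⟪a, mulL (fun x => ((V x : ℝ) : ℂ)) R (nV hV) b⟫_ℂ := by
  rw [lp.inner_eq_tsum, lp.inner_eq_tsum]
  refine tsum_congr fun x => ?_
  rw [mulL_apply, mulL_apply]
  simp only [RCLike.inner_apply, map_mul, Complex.conj_ofReal]
  ring

lemma TV_sa (c : ℝ) (V : Site d → ℝ) (R : ℝ) (hV : ∀ x, |V x| ≤ R) :
    IsSelfAdjoint (TV c V R hV) := by
  rw [ContinuousLinearMap.isSelfAdjoint_iff_isSymmetric]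
  intro a b
  change ⟪TV c V R hV a, b⟫_ℂ = ⟪a, TV c V R hV b⟫_ℂ
  unfold TV
  rw [_root_.add_apply, _root_.add_apply, inner_add_left, inner_add_right,
    CV.hop_symm t_OPS (Kp_hop d c), mulL_sa V R hV]

lemma ro_ap (e x : L2 (Site d)) : ro e x = ⟪e, x⟫_ℂ • e := rfl

lemma pt_ap (T : L2 (Site d) →L[ℂ] L2 (Site d)) (e : L2 (Site d)) (t : ℝ) (x : L2 (Site d)) :
    pt T e t x = T x + ((t : ℂ) * ⟪e, x⟫_ℂ) • e := by
  unfold pt
  rw [_root_.add_apply, _root_.smul_apply, ro_ap, smul_smul]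

lemma pt_TV (c : ℝ) (V : Site d → ℝ) (R : ℝ) (κ₀ κ : ℝ)
    (hV : ∀ x, |Function.update V 0 κ₀ x| ≤ R) (ψ : L2 (Site d)) (x : Site d) :
    (pt (TV c (Function.update V 0 κ₀) R hV) (dl 0) κ ψ) x =
      hopf c (fun y => ψ y) x + (Function.update V 0 (κ₀ + κ) x : ℝ) * ψ x := by
  rw [pt_ap, lp.coeFn_add, Pi.add_apply, TV_apply, CV.inner_dl, lp.coeFn_smul, Pi.smul_apply,
    smul_eq_mul, dl_apply]
  by_cases h : x = 0
  · subst h
    rw [if_pos rfl, Function.update_self, Function.update_self]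
    push_cast
    ring
  · rw [if_neg (fun h' => h h'.symm), Function.update_of_ne h, Function.update_of_ne h]
    ring

/-- the generator of the group -/
lemma gen_ev {c : ℝ} {ev : (Site d → ℝ) → UG (L2 (Site d))} (hev : ∀ V, IsGrp c V (ev V))
    (V : Site d → ℝ) (R : ℝ) (κ₀ κ : ℝ) (hV : ∀ x, |Function.update V 0 κ₀ x| ≤ R) :
    Gen (ev (Function.update V 0 (κ₀ + κ)))
      (pt (TV c (Function.update V 0 κ₀) R hV) (dl 0) κ) := by
  intro x t j
  have h := (hev (Function.update V 0 (κ₀ + κ)) x).2 t j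
  refine h.congr_deriv ?_
  rw [pt_TV]
  simp

lemma hopf_smul (c : ℝ) (ψ : Site d → ℂ) (x : Site d) : hopf c ψ x = c * hopf 1 ψ x := by
  unfold hopf
  simp

lemma Kp_smul (d : ℕ) (c : ℝ) (ψ : L2 (Site d)) : Kp d c ψ = (c : ℂ) • Kp d 1 ψ := by
  ext x
  rw [Kp_hop d c, hopf_smul, lp.coeFn_smul, Pi.smul_apply, smul_eq_mul, Kp_hop d 1]

lemma hop_zero (c : ℝ) : hopf c (fun y => (dl 0 : L2 (Site d)) y) 0 = 0 := by
  unfold hopf
  have h : ∀ i : Fin d, (dl 0 : L2 (Site d)) (0 + Pi.single i 1) +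
      (dl 0 : L2 (Site d)) (0 - Pi.single i 1) = 0 := by
    intro i
    rw [dl_apply, dl_apply, if_neg, if_neg, add_zero]
    · intro h
      have := congrFun h i
      simp at this
    · intro h
      have := congrFun h i
      simp at this
  simp only [h, Finset.sum_const_zero, mul_zero]

lemma Kp_ne (hd : 0 < d) : Kp d 1 (dl 0) ≠ 0 := by
  intro h0
  have h1 : (Kp d 1 (dl 0)) (Pi.single (⟨0, hd⟩ : Fin d) 1) = 0 := by rw [h0]; rfl
  rw [Kp_hop d 1] at h1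
  unfold hopf at h1
  simp only [dl_apply, Complex.ofReal_one, one_mul] at h1
  have h2 : ((∑ i : Fin d, ((if (0 : Site d) = Pi.single (⟨0, hd⟩ : Fin d) 1 + Pi.single i 1
      then 1 else 0) + (if (0 : Site d) = Pi.single (⟨0, hd⟩ : Fin d) 1 - Pi.single i 1
      then 1 else 0)) : ℕ) : ℂ) = 0 := by
    rw [← h1]
    push_cast
    rfl
  have h3 := Nat.cast_eq_zero.1 h2
  rw [Finset.sum_eq_zero_iff] at h3
  have h4 := h3 ⟨0, hd⟩ (Finset.mem_univ _)
  rw [sub_self, if_pos rfl] at h4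
  simp at h4

lemma inner_TV (c : ℝ) (V : Site d → ℝ) (R : ℝ) (hV : ∀ x, |V x| ≤ R) :
    ⟪(dl 0 : L2 (Site d)), TV c V R hV (dl 0)⟫_ℂ = V 0 := by
  rw [CV.inner_dl, TV_apply, hop_zero, dl_apply, if_pos rfl, zero_add, mul_one]

lemma proj_TV (c : ℝ) (V : Site d → ℝ) (R : ℝ) (hV : ∀ x, |V x| ≤ R) :
    (1 - ro (dl 0) : L2 (Site d) →L[ℂ] L2 (Site d)) (TV c V R hV (dl 0)) = Kp d c (dl 0) := by
  rw [_root_.sub_apply, ro_ap, inner_TV]
  show TV c V R hV (dl 0) - _ = _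
  unfold TV
  rw [_root_.add_apply, mulL_dl, add_sub_cancel_right]

lemma norm_Kp (d : ℕ) (c : ℝ) : ‖Kp d c (dl 0)‖ = |c| * ‖Kp d 1 (dl 0)‖ := by
  rw [Kp_smul, norm_smul, Complex.norm_real, Real.norm_eq_abs]

/-- the fibre data of the lattice -/
theorem fib_lat (hd : 0 < d) {c c' a b0 : ℝ} {ev ev' : (Site d → ℝ) → UG (L2 (Site d))}
    (hev : ∀ V, IsGrp c V (ev V)) (hev' : ∀ V, IsGrp c' V (ev' V)) (ha : a ≠ 0)
    (hab : a ≠ 1 ∨ b0 ≠ 0 ∨ |c'| ≠ |c|) (V V' : Site d → ℝ) {R R' : ℝ}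
    (hV : ∀ x, |Function.update V 0 0 x| ≤ R) (hV' : ∀ x, |Function.update V' 0 b0 x| ≤ R') :
    Fib (TV c (Function.update V 0 0) R hV) (TV c' (Function.update V' 0 b0) R' hV') (dl 0) a
      (fun κ => ev (Function.update V 0 κ)) (fun κ => ev' (Function.update V' 0 (a * κ + b0))) where
  sa := TV_sa _ _ _ _
  sa' := TV_sa _ _ _ _
  he := STAT.norm_dl 0
  ha := ha
  gen κ := by
    have h := gen_ev hev V R 0 κ hV
    rwa [zero_add] at h
  gen' κ := by
    have h := gen_ev hev' V' R' b0 (a * κ) hV'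
    rwa [add_comm b0] at h
  nd := by
    refine nondeg (TV_sa _ _ _ _) (TV_sa _ _ _ _) (STAT.norm_dl 0) a ?_
    rcases hab with h | h | h
    · exact Or.inl h
    · refine Or.inr (Or.inl ?_)
      rw [inner_TV, inner_TV, Function.update_self, Function.update_self]
      intro h'
      exact h (by exact_mod_cast h')
    · refine Or.inr (Or.inr ?_)
      rw [proj_TV, proj_TV, norm_Kp, norm_Kp d c]
      intro h'
      exact h (mul_right_cancel₀ (norm_ne_zero_iff.2 (Kp_ne hd)) h')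

end Pool.Agent.Helper26.Rg
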