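import Pool.Agent.Helper26.Rg.Lt
import Pool.Agent.Helper26.Dj.Mod

/-! # Two Hamiltonians in the same random potential are asymptotically disjoint -/

set_option autoImplicit false
set_option linter.unusedSectionVars false

open MeasureTheory Filter Topology ProbabilityTheory
open scoped BigOperators ENNReal NNReal InnerProductSpace ComplexConjugate

namespace Pool.Agent.Helper26.Rg

open Pool.Agent.H5R2.NB Pool.Agent.Helper26.Nb Pool.Agent.Helper26.Cm Pool.Agent.Helper26.Dj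
open Pool.Agent.TH369.AN (Rz pt pt_sa ro)
open Pool.Agent.TH369.MU (zk ep)

variable {d : ℕ} {c c' a b0 : ℝ} {ev ev' : (Site d → ℝ) → UG (L2 (Site d))}

/-- the affine change of the potential -/
def af (a b0 : ℝ) (r : ℝ) : ℝ := a * r + b0

lemma af_cont (a b0 : ℝ) : Continuous (af a b0) := by unfold af; fun_prop

lemma ce_id (hev : ∀ V, IsGrp c V (ev V)) : CE fun V : Site d → ℝ => ev V :=
  ⟨fun t => cvU hev (p := fun r : ℝ => r) continuous_id t⟩

lemma ce_af (hev' : ∀ V, IsGrp c' V (ev' V)) (a b0 : ℝ) :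
    CE fun V : Site d → ℝ => ev' (pot (af a b0) V) :=
  ⟨fun t => cvU hev' (p := af a b0) (af_cont a b0) t⟩

lemma pot_af_update (a b0 : ℝ) (V : Site d → ℝ) (κ : ℝ) :
    pot (af a b0) (Function.update V 0 κ) =
      Function.update (pot (af a b0) V) 0 (a * κ + b0) := by
  funext x
  unfold pot af
  by_cases h : x = 0
  · subst h; simp
  · simp [Function.update_of_ne h]

/-- the deterministic core: the fibre over the potential away from the origin -/
theorem fib_zero (hd : 0 < d) (hev : ∀ V, IsGrp c V (ev V)) (hev' : ∀ V, IsGrp c' V (ev' V))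
    (hab : a ≠ 1 ∨ b0 ≠ 0 ∨ |c'| ≠ |c|) (ρ : Measure ℝ) [IsProbabilityMeasure ρ]
    (hρ : ρ ≪ volume) {R : ℝ} (hR : ∀ᵐ κ ∂ρ, |κ| ≤ R) (V : Site d → ℝ) (hV : ∀ x, |V x| ≤ R)
    {Nk Mk : ℕ → ℕ} (hNk : Tendsto Nk atTop atTop) (hMk : Tendsto Mk atTop atTop)
    (v : ℝ → L2 (Site d) →L[ℂ] L2 (Site d)) (hv : Continuous v)
    (hfr : ∀ κ κ', FR (v κ - v κ')) {B : ℝ → L2 (Site d) →L[ℂ] L2 (Site d)}
    (hB : ∀ᵐ κ ∂ρ, HGood (ev' (Function.update (pot (af a b0) V) 0 (a * κ + b0)))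
      (ev (Function.update V 0 κ)) (v κ) Nk (fun k => ep (Mk k)) (B κ)) :
    ∀ᵐ κ ∂ρ, B κ (dl 0) = 0 := by
  have hU : Fam (fun κ => ev (Function.update V 0 κ)) (dl 0) := t_FAM ALL.a_UN d c ev hev V
  by_cases ha : a = 0
  · subst ha
    refine kvC (ev' (Function.update (pot (af 0 b0) V) 0 b0)) (fun κ => ev (Function.update V 0 κ))
      (dl 0) hU ρ hρ Nk hNk v hv hfr B ?_
    filter_upwards [hB] with κ hκ
    have h := hκ.1
    rwa [zero_mul, zero_add] at h
  · have hR0 : 0 ≤ R := (abs_nonneg _).trans (hV 0)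
    have h1 : ∀ x, |Function.update V 0 0 x| ≤ R := by
      intro x
      by_cases h : x = 0
      · subst h; simpa using hR0
      · rw [Function.update_of_ne h]; exact hV x
    have h2 : ∀ x, |Function.update (pot (af a b0) V) 0 b0 x| ≤ |a| * R + |b0| := by
      intro x
      by_cases h : x = 0
      · subst h
        rw [Function.update_self]
        have : 0 ≤ |a| * R := by positivity
        linarith
      · rw [Function.update_of_ne h]
        unfold pot af
        refine (abs_add_le _ _).trans ?_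
        rw [abs_mul]
        gcongr
        exact hV x
    have F := fib_lat hd hev hev' ha hab V (pot (af a b0) V) h1 h2
    have hVf : Fam (fun κ => ev' (Function.update (pot (af a b0) V) 0 (κ + b0))) (dl 0) :=
      fam_shift (t_FAM ALL.a_UN d c' ev' hev' (pot (af a b0) V)) b0
    exact fibA F hU hVf (fun κ => rfl) ρ hρ hR hNk hMk v hv hfr hB

theorem zLV (hd : 0 < d) (hev : ∀ V, IsGrp c V (ev V)) (hev' : ∀ V, IsGrp c' V (ev' V))
    (hab : a ≠ 1 ∨ b0 ≠ 0 ∨ |c'| ≠ |c|) (ρ : Measure ℝ) [IsProbabilityMeasure ρ]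
    (hρ : ρ ≪ volume) {R : ℝ} (hR : ∀ᵐ κ ∂ρ, |κ| ≤ R)
    {v : (Site d → ℝ) → L2 (Site d) →L[ℂ] L2 (Site d)} (hv : LV v) :
    Tendsto (fun N : ℕ => ∫⁻ V, ‖gP (ev' (pot (af a b0) V)) (ev V) (v V) N (dl 0)‖ₑ ^ 2
      ∂(Measure.infinitePi fun _ : Site d => ρ)) atTop (𝓝 0) := by
  set P : Measure (Site d → ℝ) := Measure.infinitePi fun _ : Site d => ρ with hP
  obtain ⟨Nk, Mk, b, hNk, hMk, hb, hL2, -, hgood⟩ :=
    vlimH (ce_af hev' a b0) (ce_id hev) hv.cv ρ
  have hmp := mp_update (d := d) ρ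
  obtain ⟨b', hb', hbb'⟩ := hb
  have hmeas : MeasurableSet {V : Site d → ℝ | b' V = 0} := by
    have e1 : {V : Site d → ℝ | b' V = 0} = (fun V => ‖b' V‖) ⁻¹' {0} := by
      ext V
      simp
    rw [e1]
    exact hb'.norm.measurable (measurableSet_singleton 0)
  have hg2 : ∀ᵐ p ∂(P.prod ρ), ∃ B : L2 (Site d) →L[ℂ] L2 (Site d),
      HGood (ev' (pot (af a b0) (Function.update p.1 0 p.2))) (ev (Function.update p.1 0 p.2))
        (v (Function.update p.1 0 p.2)) Nk (fun k => ep (Mk k)) B ∧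
          B (dl 0) = b' (Function.update p.1 0 p.2) := by
    refine hmp.quasiMeasurePreserving.ae (p := fun V => ∃ B : L2 (Site d) →L[ℂ] L2 (Site d),
      HGood (ev' (pot (af a b0) V)) (ev V) (v V) Nk (fun k => ep (Mk k)) B ∧
        B (dl 0) = b' V) ?_
    filter_upwards [hgood, hbb'] with V hV hVb
    obtain ⟨B, hB, hBb⟩ := hV
    exact ⟨B, hB, hBb.trans hVb⟩
  have hg3 := Measure.ae_ae_of_ae_prod hg2
  have hbd : ∀ᵐ V ∂P, ∀ x, |V x| ≤ R := by
    rw [ae_all_iff]
    intro x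
    exact (measurePreserving_eval_infinitePi (fun _ : Site d => ρ) x).quasiMeasurePreserving.ae hR
  have key : ∀ᵐ V ∂P, ∀ᵐ κ ∂ρ, b' (Function.update V 0 κ) = 0 := by
    filter_upwards [hg3, hbd] with V hV hVR
    classical
    set B : ℝ → L2 (Site d) →L[ℂ] L2 (Site d) := fun κ =>
      if h : ∃ B : L2 (Site d) →L[ℂ] L2 (Site d),
        HGood (ev' (Function.update (pot (af a b0) V) 0 (a * κ + b0))) (ev (Function.update V 0 κ))
          (v (Function.update V 0 κ)) Nk (fun k => ep (Mk k)) B ∧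
            B (dl 0) = b' (Function.update V 0 κ)
      then h.choose else 0 with hB
    have hBg : ∀ᵐ κ ∂ρ, HGood (ev' (Function.update (pot (af a b0) V) 0 (a * κ + b0)))
        (ev (Function.update V 0 κ)) (v (Function.update V 0 κ)) Nk (fun k => ep (Mk k))
          (B κ) ∧ B κ (dl 0) = b' (Function.update V 0 κ) := by
      filter_upwards [hV] with κ hκ
      rw [pot_af_update] at hκ
      simp only [hB]
      rw [dif_pos hκ]
      exact hκ.choose_spec
    have hz := fib_zero hd hev hev' hab ρ hρ hR V hVR hNk hMk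
      (fun κ => v (Function.update V 0 κ))
      (hv.cu V (fun κ => κ) continuous_id) (fun κ κ' => hv.fr V κ κ') (B := B)
      (by filter_upwards [hBg] with κ hκ using hκ.1)
    filter_upwards [hBg, hz] with κ h1 h2
    rw [← h1.2, h2]
  have hprod : ∀ᵐ p ∂(P.prod ρ),
      Function.update p.1 0 p.2 ∈ {V : Site d → ℝ | b' V = 0} := by
    refine (Measure.ae_prod_iff_ae_ae ?_).2 key
    exact hmp.measurable hmeas
  have hfin : ∀ᵐ V ∂P, V ∈ {V : Site d → ℝ | b' V = 0} := by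
    rw [hP, ← hmp.map_eq]
    exact (ae_map_iff hmp.measurable.aemeasurable hmeas).2 hprod
  refine hL2.congr fun N => ?_
  refine lintegral_congr_ae ?_
  filter_upwards [hfin, hbb'] with V hV hVb
  have h0 : b V = 0 := hVb.trans hV
  rw [h0, sub_zero]

theorem zCv (hd : 0 < d) (hev : ∀ V, IsGrp c V (ev V)) (hev' : ∀ V, IsGrp c' V (ev' V))
    (hab : a ≠ 1 ∨ b0 ≠ 0 ∨ |c'| ≠ |c|) (ρ : Measure ℝ) [IsProbabilityMeasure ρ]
    (hρ : ρ ≪ volume) {R : ℝ} (hR : ∀ᵐ κ ∂ρ, |κ| ≤ R)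
    {X : (Site d → ℝ) → L2 (Site d) →L[ℂ] L2 (Site d)} (hX : Cv X) :
    Tendsto (fun N : ℕ => eLpNorm (fun V => gP (ev' (pot (af a b0) V)) (ev V) (X V) N (dl 0)) 2
      (Measure.infinitePi fun _ : Site d => ρ)) atTop (𝓝 0) := by
  set P : Measure (Site d → ℝ) := Measure.infinitePi fun _ : Site d => ρ with hP
  have hW := ce_id hev
  have hW' := ce_af hev' a b0
  have hc0 : StronglyMeasurable fun _ : Site d → ℝ => (dl 0 : L2 (Site d)) :=
    stronglyMeasurable_const
  rw [ENNReal.tendsto_nhds_zero]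
  intro ε hε
  have h2 : ε / 2 ≠ 0 := by simp [hε.ne']
  obtain ⟨v, hv, hvX⟩ := app hX ρ h2
  have hz := zLV hd hev hev' hab ρ hρ hR hv
  have hev1 := (tendsto_order.1 hz).2 ((ε / 2) ^ 2) (by positivity)
  filter_upwards [hev1, eventually_gt_atTop 0] with N hN hN0
  have e : (fun V => gP (ev' (pot (af a b0) V)) (ev V) (X V) N (dl 0)) =
      (fun V => gP (ev' (pot (af a b0) V)) (ev V) (v V) N (dl 0)) +
        fun V => gP (ev' (pot (af a b0) V)) (ev V) (X V - v V) N (dl 0) := by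
    funext V
    rw [Pi.add_apply, ← gP_vadd, add_sub_cancel]
  rw [e]
  have hD : Cv fun V => X V - v V := hX.sub hv.cv
  refine (eLpNorm_add_le (sm_gP hW' hW hv.cv hc0 N).aestronglyMeasurable
    (sm_gP hW' hW hD hc0 N).aestronglyMeasurable (by norm_num)).trans ?_
  have h5 := avg_le (W' := fun V : Site d → ℝ => ev' (pot (af a b0) V)) hW hD ρ N hN0
  have h6 : eLpNorm (fun V => gP (ev' (pot (af a b0) V)) (ev V) (X V - v V) N (dl 0)) 2 P ≤
      ε / 2 := by
    refine n2_le _ _ _ (h5.trans ?_)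
    rw [← n2_sq]
    have h7 : (fun V => (X V - v V) (dl 0)) = fun V => X V (dl 0) - v V (dl 0) := by
      funext V
      rw [_root_.sub_apply]
    rw [h7]
    exact pow_le_pow_left₀ (zero_le) hvX 2
  calc _ ≤ ε / 2 + ε / 2 := add_le_add (n2_le _ _ _ hN.le) h6
    _ = ε := ENNReal.add_halves ε

end Pool.Agent.Helper26.Rg
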