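import Pool.Agent.Helper26.Rg.Lu

/-! # Both potentials are affine functions of the same random variables -/

set_option autoImplicit false
set_option linter.unusedSectionVars false

open MeasureTheory Filter Topology ProbabilityTheory
open scoped BigOperators ENNReal NNReal InnerProductSpace ComplexConjugate

namespace Pool.Agent.Helper26.Rg

open Pool.Agent.H5R2.NB Pool.Agent.Helper26.Nb Pool.Agent.Helper26.Cm Pool.Agent.Helper26.Dj

variable {d : ℕ} {c c' : ℝ} {ev ev' : (Site d → ℝ) → UG (L2 (Site d))}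

lemma pot_comp (p q : ℝ → ℝ) (V : Site d → ℝ) : pot p (pot q V) = pot (fun r => p (q r)) V := rfl

lemma pot_af_id (l o : ℝ) (hl : l ≠ 0) (V : Site d → ℝ) :
    pot (af l⁻¹ (-(l⁻¹ * o))) (pot (af l o) V) = V := by
  funext x
  unfold pot af
  field_simp
  ring

lemma af_ac {l : ℝ} (hl : l ≠ 0) (o : ℝ) {μ : Measure ℝ} (hμ : μ ≪ volume) :
    μ.map (af l o) ≪ volume := by
  have h1 : μ.map (af l o) ≪ volume.map (af l o) := hμ.map (af_cont l o).measurable
  refine h1.trans ?_
  have e : af l o = (fun x => x + o) ∘ (fun x => l * x) := rfl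
  have h2 : volume.map (af l o) = ENNReal.ofReal |l⁻¹| • (volume : Measure ℝ) := by
    rw [e, ← Measure.map_map (by fun_prop) (by fun_prop), Real.map_volume_mul_left hl,
      Measure.map_smul, (measurePreserving_add_right volume o).map_eq]
  rw [h2]
  exact Measure.smul_absolutelyContinuous

lemma af_mp (l o : ℝ) (μ : Measure ℝ) [IsProbabilityMeasure μ] :
    MeasurePreserving (pot (af l o) : (Site d → ℝ) → Site d → ℝ)
      (Measure.infinitePi fun _ : Site d => μ)
      (Measure.infinitePi fun _ : Site d => μ.map (af l o)) := by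
  refine ⟨(cont_pot (af_cont l o)).measurable, ?_⟩
  exact Measure.infinitePi_map_pi (μ := fun _ : Site d => μ) (f := fun _ => af l o)
    (fun _ => (af_cont l o).measurable)

lemma cv_pot {X : (Site d → ℝ) → L2 (Site d) →L[ℂ] L2 (Site d)} (hX : Cv X) {p : ℝ → ℝ}
    (hp : Continuous p) : Cv fun V => X (pot p V) := by
  refine ⟨fun z S hS V ψ => ?_, fun x y => ?_, ?_⟩
  · exact hX.cov z S hS (pot p V) ψ
  · exact (hX.meas x y).comp (cont_pot hp).measurable
  · obtain ⟨R, hR⟩ := hX.bdd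
    exact ⟨R, fun V => hR _⟩

/-- the general form -/
theorem zAff (hd : 0 < d) (hev : ∀ V, IsGrp c V (ev V)) (hev' : ∀ V, IsGrp c' V (ev' V))
    {l l' o o' : ℝ} (hl : l ≠ 0) (hab : l' ≠ l ∨ o' ≠ o ∨ |c'| ≠ |c|) (μ : Measure ℝ)
    [IsProbabilityMeasure μ] (hμ : μ ≪ volume) {R : ℝ} (hR : ∀ᵐ κ ∂μ, |κ| ≤ R)
    {X : (Site d → ℝ) → L2 (Site d) →L[ℂ] L2 (Site d)} (hX : Cv X) :
    Tendsto (fun N : ℕ => eLpNorm (fun V => gP (ev' (pot (af l' o') V)) (ev (pot (af l o) V))
      (X V) N (dl 0)) 2 (Measure.infinitePi fun _ : Site d => μ)) atTop (𝓝 0) := by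
  set ρ := μ.map (af l o) with hρ
  have hpr : IsProbabilityMeasure ρ := Measure.isProbabilityMeasure_map (af_cont l o).aemeasurable
  obtain ⟨a, ha⟩ : ∃ a : ℝ, a = l' / l := ⟨_, rfl⟩
  obtain ⟨b0, hb0⟩ : ∃ b0 : ℝ, b0 = o' - a * o := ⟨_, rfl⟩
  have hal : a * l = l' := by rw [ha]; field_simp
  have hab' : a ≠ 1 ∨ b0 ≠ 0 ∨ |c'| ≠ |c| := by
    by_cases h1 : a = 1
    · rcases hab with h | h | h
      · exfalso
        rw [h1, one_mul] at hal
        exact h hal.symm
      · refine Or.inr (Or.inl ?_)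
        rw [hb0, h1, one_mul]
        exact sub_ne_zero.2 h
      · exact Or.inr (Or.inr h)
    · exact Or.inl h1
  have hRρ : ∀ᵐ κ ∂ρ, |κ| ≤ |l| * R + |o| := by
    rw [hρ, ae_map_iff (af_cont l o).aemeasurable (measurableSet_le (by fun_prop) (by fun_prop))]
    filter_upwards [hR] with κ hκ
    unfold af
    refine (abs_add_le _ _).trans ?_
    rw [abs_mul]
    gcongr
  have hmp := af_mp (d := d) l o μ
  have hX' : Cv fun V => X (pot (af l⁻¹ (-(l⁻¹ * o))) V) := cv_pot hX (af_cont _ _)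
  have h := zCv hd hev hev' hab' ρ (af_ac hl o hμ) hRρ hX'
  have hc0 : StronglyMeasurable fun _ : Site d → ℝ => (dl 0 : L2 (Site d)) :=
    stronglyMeasurable_const
  refine h.congr fun N => ?_
  have h1 := eLpNorm_comp_measurePreserving (p := 2)
    (sm_gP (ce_af hev' a b0) (ce_id hev) hX' hc0 N).aestronglyMeasurable hmp
  rw [← h1]
  refine eLpNorm_congr_ae (Eventually.of_forall fun V => ?_)
  simp only [Function.comp_apply]
  rw [pot_af_id l o hl]
  have e : pot (af a b0) (pot (af l o) V) = pot (af l' o') V := by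
    funext x
    unfold pot af
    rw [hb0, ← hal]
    ring
  rw [e]

end Pool.Agent.Helper26.Rg
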