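import Pool.Agent.Helper26.Rg.Abl

/-! # Nice test functions -/

set_option autoImplicit false

open MeasureTheory Filter Topology
open scoped ENNReal NNReal ComplexConjugate InnerProductSpace SchwartzMap FourierTransform

namespace Pool.Agent.Helper26.Rg

/-- integrable with integrable transform -/
structure Nice (f : ℝ → ℂ) : Prop where
  i : Integrable f
  p : Integrable (ph f)

lemma ph_cont {f : ℝ → ℂ} (hf : Integrable f) : Continuous (ph f) := by
  unfold ph
  refine continuous_of_dominated (bound := fun E => ‖f E‖) (fun t => ?_)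
    (fun t => Eventually.of_forall fun E => ?_) hf.norm (Eventually.of_forall fun E => ?_)
  · exact hf.aestronglyMeasurable.mul
      (by fun_prop : Continuous fun E : ℝ => Complex.exp (Complex.I * E * t)).aestronglyMeasurable
  · rw [norm_mul, norm_e, mul_one]
  · fun_prop

lemma Nice.m {f : ℝ → ℂ} (hf : Nice f) : Measurable (ph f) := (ph_cont hf.i).measurable

lemma nice_schwartz (g : 𝓢(ℝ, ℂ)) : Nice g := by
  refine ⟨g.integrable, ?_⟩
  have h1 : ph g = fun t => (𝓕⁻ g : 𝓢(ℝ, ℂ)) (t / (2 * Real.pi)) := by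
    funext t
    rw [SchwartzMap.fourierInv_coe, Real.fourierInv_eq']
    unfold ph
    refine integral_congr_ae (Eventually.of_forall fun E => ?_)
    simp only [smul_eq_mul]
    rw [mul_comm]
    congr 2
    rw [real_inner_comm]
    simp only [RCLike.inner_apply, conj_trivial]
    push_cast
    have : (Real.pi : ℂ) ≠ 0 := by exact_mod_cast Real.pi_ne_zero
    field_simp
  rw [h1]
  exact ((𝓕⁻ g : 𝓢(ℝ, ℂ)).integrable).comp_div (by positivity)

lemma nice_dense {f : ℝ → ℂ} (hf : Integrable f) {η : ℝ} (hη : 0 < η) :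
    ∃ g : ℝ → ℂ, Nice g ∧ ∫ E, ‖f E - g E‖ ≤ η := by
  have hf' : MemLp f 1 volume := memLp_one_iff_integrable.2 hf
  obtain ⟨g, hg1, hg2, hg3⟩ := MemLp.exist_eLpNorm_sub_le ENNReal.one_ne_top le_rfl hf' hη
  have hn := nice_schwartz (hg1.toSchwartzMap hg2)
  have e : ((hg1.toSchwartzMap hg2 : 𝓢(ℝ, ℂ)) : ℝ → ℂ) = g := rfl
  rw [e] at hn
  refine ⟨g, hn, ?_⟩
  rw [eLpNorm_one_eq_lintegral_enorm] at hg3
  have h2 : ∫ E, ‖f E - g E‖ = (∫⁻ E, ‖(f - g) E‖ₑ).toReal := by
    exact integral_norm_eq_lintegral_enorm (hf.sub hn.i).aestronglyMeasurable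
  rw [h2]
  exact ENNReal.toReal_le_of_le_ofReal hη.le hg3

lemma Nice.refl {f : ℝ → ℂ} (hf : Nice f) : Nice (fun E => f (-E)) ∧
    ∀ t, ph (fun E => f (-E)) t = ph f (-t) := by
  have h1 : ∀ t, ph (fun E => f (-E)) t = ph f (-t) := by
    intro t
    unfold ph
    rw [← integral_neg_eq_self (fun E => f E * Complex.exp (Complex.I * E * (-t : ℝ)))]
    refine integral_congr_ae (Eventually.of_forall fun E => ?_)
    simp only
    congr 2
    push_cast
    ring
  refine ⟨⟨hf.i.comp_neg, ?_⟩, h1⟩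
  have : ph (fun E => f (-E)) = fun t => ph f (-t) := funext h1
  rw [this]
  exact hf.p.comp_neg

/-- the Gaussian family -/
noncomputable def gq (m : ℕ) (q : ℝ) (E : ℝ) : ℂ :=
  Complex.exp (-Complex.I * q * E) * Complex.exp (-(1 / (4 * ((m : ℝ) + 1)) : ℝ) * (E : ℂ) ^ 2)

lemma ph_gq (m : ℕ) (q t : ℝ) : ph (gq m q) t =
    (((Real.pi * (4 * ((m : ℝ) + 1))) : ℝ) : ℂ) ^ (1 / 2 : ℂ) *
      Complex.exp (-((m : ℝ) + 1 : ℝ) * ((t : ℂ) - q) ^ 2) := by
  have hb : 0 < (((1 / (4 * ((m : ℝ) + 1)) : ℝ)) : ℂ).re := by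
    rw [Complex.ofReal_re]
    positivity
  have h1 := fourierIntegral_gaussian hb ((t : ℂ) - q)
  have h2 : ph (gq m q) t = ∫ x : ℝ, Complex.exp (Complex.I * ((t : ℂ) - q) * x) *
      Complex.exp (-(((1 / (4 * ((m : ℝ) + 1)) : ℝ)) : ℂ) * (x : ℂ) ^ 2) := by
    unfold ph gq
    refine integral_congr_ae (Eventually.of_forall fun E => ?_)
    simp only
    rw [mul_comm, ← mul_assoc, ← Complex.exp_add]
    congr 2
    ring
  rw [h2, h1]
  have hm : ((m : ℂ) + 1) ≠ 0 := by exact_mod_cast Nat.succ_ne_zero m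
  congr 2
  · push_cast
    field_simp
  · push_cast
    field_simp

lemma nice_gq (m : ℕ) (q : ℝ) : Nice (gq m q) := by
  have hb : ∀ (c : ℝ), 0 < c → Integrable fun x : ℝ => Complex.exp (-(c : ℂ) * (x : ℂ) ^ 2) := by
    intro c hc
    exact integrable_cexp_neg_mul_sq (by rw [Complex.ofReal_re]; exact hc)
  constructor
  · unfold gq
    have h1 := hb (1 / (4 * ((m : ℝ) + 1))) (by positivity)
    refine h1.bdd_mul (c := 1)
      (by fun_prop : Continuous fun E : ℝ => Complex.exp (-Complex.I * q * E)).aestronglyMeasurable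
      (Eventually.of_forall fun E => ?_)
    have := norm_e (-q) E
    push_cast at this
    have e : -Complex.I * q * E = Complex.I * -q * E := by ring
    rw [e, this]
  · have h1 := hb ((m : ℝ) + 1) (by positivity)
    have h2 := (h1.comp_sub_right q).const_mul
      ((((Real.pi * (4 * ((m : ℝ) + 1))) : ℝ) : ℂ) ^ (1 / 2 : ℂ))
    refine h2.congr (Eventually.of_forall fun t => ?_)
    simp only
    rw [ph_gq]
    push_cast
    rfl

/-- the Gaussian family separates bounded continuous functions -/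
theorem gq_sep {g : ℝ → ℂ} (hg : Continuous g) {K : ℝ} (hK : ∀ t, ‖g t‖ ≤ K)
    (h : ∀ (m : ℕ) (q : ℚ), ∫ t, ph (gq m q) t * g t = 0) : ∀ t, g t = 0 := by
  have hq : ∀ q : ℚ, g q = 0 := by
    intro q
    -- rescaled integrals
    have h1 : ∀ m : ℕ, ∫ s : ℝ, Complex.exp (-(s : ℂ) ^ 2) *
        g (q + s / Real.sqrt ((m : ℝ) + 1)) = 0 := by
      intro m
      have hm : 0 < Real.sqrt ((m : ℝ) + 1) := Real.sqrt_pos.2 (by positivity)
      have h2 := h m q
      simp only [ph_gq] at h2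
      have hc : (((Real.pi * (4 * ((m : ℝ) + 1))) : ℝ) : ℂ) ^ (1 / 2 : ℂ) ≠ 0 := by
        rw [Complex.cpow_ne_zero_iff]
        left
        have : Real.pi * (4 * ((m : ℝ) + 1)) ≠ 0 := by positivity
        exact_mod_cast this
      simp only [mul_assoc] at h2
      rw [integral_const_mul] at h2
      have h3 := (mul_eq_zero.1 h2).resolve_left hc
      have h4 := Measure.integral_comp_div (fun s : ℝ =>
        Complex.exp (-((m : ℝ) + 1 : ℝ) * ((s + q : ℝ) - q : ℂ) ^ 2) * g (s + q))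
        (Real.sqrt ((m : ℝ) + 1))
      have h5 : ∫ s : ℝ, Complex.exp (-((m : ℝ) + 1 : ℝ) * ((s + q : ℝ) - q : ℂ) ^ 2) * g (s + q) =
          0 := by
        rw [integral_add_right_eq_self (fun s : ℝ =>
          Complex.exp (-((m : ℝ) + 1 : ℝ) * ((s : ℂ) - q) ^ 2) * g s) (q : ℝ)]
        exact_mod_cast h3
      rw [h5, smul_zero] at h4
      rw [← h4]
      refine integral_congr_ae (Eventually.of_forall fun s => ?_)
      simp only
      have e1 : (q : ℝ) + s / Real.sqrt ((m : ℝ) + 1) = s / Real.sqrt ((m : ℝ) + 1) + q := by ring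
      rw [e1]
      congr 2
      have e2 : ((Real.sqrt ((m : ℝ) + 1) : ℝ) : ℂ) ^ 2 = (m : ℂ) + 1 := by
        have := Real.sq_sqrt (by positivity : (0 : ℝ) ≤ (m : ℝ) + 1)
        exact_mod_cast this
      have e3 : ((Real.sqrt ((m : ℝ) + 1) : ℝ) : ℂ) ≠ 0 := by exact_mod_cast hm.ne'
      push_cast
      rw [add_sub_cancel_right, div_pow, e2]
      have hm : ((m : ℂ) + 1) ≠ 0 := by exact_mod_cast Nat.succ_ne_zero m
      field_simp
    have h6 : Tendsto (fun m : ℕ => ∫ s : ℝ, Complex.exp (-(s : ℂ) ^ 2) *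
        g (q + s / Real.sqrt ((m : ℝ) + 1))) atTop
        (𝓝 (∫ s : ℝ, Complex.exp (-(s : ℂ) ^ 2) * g q)) := by
      have hgi : Integrable fun s : ℝ => Complex.exp (-(s : ℂ) ^ 2) := by
        have := integrable_cexp_neg_mul_sq (b := 1) (by simp)
        simpa using this
      refine tendsto_integral_of_dominated_convergence
        (fun s => ‖Complex.exp (-(s : ℂ) ^ 2)‖ * K) (fun m => ?_) (hgi.norm.mul_const K)
        (fun m => Eventually.of_forall fun s => ?_) (Eventually.of_forall fun s => ?_)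
      · exact (by fun_prop : Continuous fun s : ℝ => Complex.exp (-(s : ℂ) ^ 2) *
          g (q + s / Real.sqrt ((m : ℝ) + 1))).aestronglyMeasurable
      · rw [norm_mul]
        exact mul_le_mul_of_nonneg_left (hK _) (norm_nonneg _)
      · refine Tendsto.const_mul _ ?_
        refine (hg.tendsto _).comp ?_
        have h7 : Tendsto (fun m : ℕ => Real.sqrt ((m : ℝ) + 1)) atTop atTop :=
          Real.tendsto_sqrt_atTop.comp (tendsto_natCast_atTop_atTop.atTop_add tendsto_const_nhds)
        have h8 := (h7.const_div_atTop s).const_add (q : ℝ)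
        rwa [add_zero] at h8
    simp only [h1] at h6
    have h7 := tendsto_nhds_unique h6 tendsto_const_nhds
    rw [integral_mul_const] at h7
    have h8 : ∫ s : ℝ, Complex.exp (-(s : ℂ) ^ 2) ≠ 0 := by
      have h9 := integral_gaussian_complex (b := 1) (by simp)
      have h10 : ∫ s : ℝ, Complex.exp (-(s : ℂ) ^ 2) = (Real.pi / 1 : ℂ) ^ (1 / 2 : ℂ) := by
        rw [← h9]
        simp
      rw [h10, Complex.cpow_ne_zero_iff]
      left
      have : Real.pi ≠ 0 := Real.pi_ne_zero
      simp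
    exact (mul_eq_zero.1 h7).resolve_left h8
  have h2 : g = fun _ => 0 := by
    refine Continuous.ext_on Rat.denseRange_cast hg continuous_const ?_
    rintro _ ⟨q, rfl⟩
    exact hq q
  intro t
  rw [h2]

end Pool.Agent.Helper26.Rg
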