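import Mathlib

/-! # Estimates of the kernel `√(|Im w| |Im w'|) / (|w - κ| |w' - κ|)` -/

set_option autoImplicit false

open MeasureTheory Filter Topology
open scoped ENNReal NNReal

namespace Pool.Agent.Helper26.Rg

/-- square root of the Poisson kernel -/
noncomputable def Ak (w : ℂ) (κ : ℝ) : ℝ := Real.sqrt |w.im| / ‖w - κ‖

lemma norm_pos' {w : ℂ} (hw : w.im ≠ 0) (κ : ℝ) : 0 < ‖w - κ‖ := by
  rw [norm_pos_iff]
  intro h
  apply hw
  have := congrArg Complex.im h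
  simpa using this

lemma im_le' (w : ℂ) (κ : ℝ) : |w.im| ≤ ‖w - κ‖ := by
  have := Complex.abs_im_le_norm (w - κ)
  simpa using this

lemma re_le' (w : ℂ) (κ : ℝ) : |w.re - κ| ≤ ‖w - κ‖ := by
  have := Complex.abs_re_le_norm (w - κ)
  simpa using this

lemma Ak_nonneg (w : ℂ) (κ : ℝ) : 0 ≤ Ak w κ := by unfold Ak; positivity

lemma Ak_cont {w : ℂ} (hw : w.im ≠ 0) : Continuous (Ak w) := by
  unfold Ak
  refine Continuous.div continuous_const (by fun_prop) fun κ => (norm_pos' hw κ).ne'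

lemma Ak_sq {w : ℂ} (κ : ℝ) : Ak w κ ^ 2 = |w.im| / ‖w - κ‖ ^ 2 := by
  unfold Ak
  rw [div_pow, Real.sq_sqrt (abs_nonneg _)]

lemma Ak_le {w : ℂ} (hw : w.im ≠ 0) (κ : ℝ) : Ak w κ ≤ 1 / Real.sqrt |w.im| := by
  unfold Ak
  have h1 : 0 < |w.im| := abs_pos.2 hw
  have h2 : 0 < Real.sqrt |w.im| := Real.sqrt_pos.2 h1
  rw [div_le_div_iff₀ (norm_pos' hw κ) h2, ← sq, Real.sq_sqrt h1.le, one_mul]
  exact im_le' w κ

/-- the Poisson kernel has integral `π` -/
lemma pois_eq {w : ℂ} (hw : w.im ≠ 0) :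
    Integrable (fun κ : ℝ => Ak w κ ^ 2) ∧ ∫ κ : ℝ, Ak w κ ^ 2 = Real.pi := by
  have h0 : |w.im| ≠ 0 := (abs_pos.2 hw).ne'
  have e : ∀ κ : ℝ, Ak w κ ^ 2 = |w.im|⁻¹ * (fun u : ℝ => (1 + u ^ 2)⁻¹) ((κ - w.re) / |w.im|) := by
    intro κ
    rw [Ak_sq, Complex.sq_norm, Complex.normSq_apply]
    simp only [Complex.sub_re, Complex.ofReal_re, Complex.sub_im, Complex.ofReal_im, sub_zero]
    have h2 : w.im * w.im = |w.im| ^ 2 := by rw [sq_abs, sq]
    rw [h2]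
    have h3 : 0 < |w.im| := abs_pos.2 hw
    have h4 : (w.re - κ) * (w.re - κ) = (κ - w.re) ^ 2 := by ring
    rw [h4]
    field_simp
    ring
  have hi : Integrable (fun κ : ℝ => (fun u : ℝ => (1 + u ^ 2)⁻¹) ((κ - w.re) / |w.im|)) := by
    have h1 := (integrable_inv_one_add_sq).comp_div h0
    exact h1.comp_sub_right w.re
  constructor
  · simp only [e]
    exact hi.const_mul _
  · simp only [e]
    rw [integral_const_mul,
      integral_sub_right_eq_self (fun κ : ℝ => (1 + (κ / |w.im|) ^ 2)⁻¹) w.re,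
      Measure.integral_comp_div (fun u : ℝ => (1 + u ^ 2)⁻¹) |w.im|,
      integral_univ_inv_one_add_sq, smul_eq_mul, abs_abs, ← mul_assoc, inv_mul_cancel₀ h0,
      one_mul]

variable {ρ : Measure ℝ} [IsFiniteMeasure ρ] {C : ℝ≥0}

lemma int_le (hρ : ρ ≤ C • (volume : Measure ℝ)) {f : ℝ → ℝ} (hf : Integrable f)
    (h0 : ∀ x, 0 ≤ f x) : Integrable f ρ ∧ ∫ x, f x ∂ρ ≤ C * ∫ x, f x := by
  have h1 : Integrable f (C • (volume : Measure ℝ)) := hf.smul_measure_nnreal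
  refine ⟨h1.mono_measure hρ, ?_⟩
  have h2 := integral_mono_measure hρ (Eventually.of_forall h0) h1
  rw [integral_smul_nnreal_measure] at h2
  simpa [NNReal.smul_def] using h2

lemma pois_le (hρ : ρ ≤ C • (volume : Measure ℝ)) {w : ℂ} (hw : w.im ≠ 0) :
    Integrable (fun κ : ℝ => Ak w κ ^ 2) ρ ∧ ∫ κ : ℝ, Ak w κ ^ 2 ∂ρ ≤ C * Real.pi := by
  obtain ⟨h1, h2⟩ := pois_eq hw
  have h3 := int_le hρ h1 (fun κ => sq_nonneg _)
  rw [h2] at h3
  exact h3

lemma Ak_int {w : ℂ} (hw : w.im ≠ 0) : Integrable (Ak w) ρ := by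
  refine Integrable.of_bound (C := 1 / Real.sqrt |w.im|) (Ak_cont hw).aestronglyMeasurable
    (Eventually.of_forall fun κ => ?_)
  rw [Real.norm_of_nonneg (Ak_nonneg _ _)]
  exact Ak_le hw κ

lemma AA_int {w w' : ℂ} (hw : w.im ≠ 0) (hw' : w'.im ≠ 0) :
    Integrable (fun κ => Ak w κ * Ak w' κ) ρ := by
  refine Integrable.of_bound (C := 1 / Real.sqrt |w.im| * (1 / Real.sqrt |w'.im|))
    ((Ak_cont hw).mul (Ak_cont hw')).aestronglyMeasurable (Eventually.of_forall fun κ => ?_)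
  rw [Real.norm_of_nonneg (mul_nonneg (Ak_nonneg _ _) (Ak_nonneg _ _))]
  exact mul_le_mul (Ak_le hw κ) (Ak_le hw' κ) (Ak_nonneg _ _) (by positivity)

theorem AA_le (hρ : ρ ≤ C • (volume : Measure ℝ)) {w w' : ℂ} (hw : w.im ≠ 0) (hw' : w'.im ≠ 0) :
    ∫ κ, Ak w κ * Ak w' κ ∂ρ ≤ C * Real.pi := by
  obtain ⟨i1, h1⟩ := pois_le hρ hw
  obtain ⟨i2, h2⟩ := pois_le hρ hw'
  have h3 : ∫ κ, Ak w κ * Ak w' κ ∂ρ ≤ ∫ κ, (1 / 2) * (Ak w κ ^ 2 + Ak w' κ ^ 2) ∂ρ := by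
    refine integral_mono (AA_int hw hw') ((i1.add i2).const_mul _) fun κ => ?_
    simp only
    nlinarith [sq_nonneg (Ak w κ - Ak w' κ)]
  rw [integral_const_mul, integral_add i1 i2] at h3
  linarith

/-- `∫ A_w dρ` is small if `Im w` is small -/
theorem A_small (hρ : ρ ≤ C • (volume : Measure ℝ)) {η : ℝ} (hη : 0 < η) :
    ∃ t : ℝ, 0 < t ∧ ∀ w : ℂ, w.im ≠ 0 → |w.im| ≤ t → ∫ κ, Ak w κ ∂ρ ≤ η := by
  obtain ⟨C', hC'⟩ : ∃ C' : ℝ, C' = (C : ℝ) + 1 := ⟨_, rfl⟩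
  obtain ⟨M, hM⟩ : ∃ M : ℝ, M = ρ.real Set.univ + 1 := ⟨_, rfl⟩
  have hC0 : 0 < C' := by rw [hC']; positivity
  have hM0 : 0 < M := by rw [hM]; positivity
  obtain ⟨τ, hτ⟩ : ∃ τ : ℝ, τ = 3 * C' * Real.pi / η := ⟨_, rfl⟩
  have hτ0 : 0 < τ := by rw [hτ]; positivity
  obtain ⟨s, hs⟩ : ∃ s : ℝ, s = η / (6 * C' * τ) := ⟨_, rfl⟩
  have hs0 : 0 < s := by rw [hs]; positivity
  refine ⟨(η * s / (3 * M)) ^ 2, by positivity, fun w hw hwt => ?_⟩
  have hpt : ∀ κ : ℝ, Ak w κ ≤ Ak w κ ^ 2 / τ +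
      (Set.Ioo (w.re - s) (w.re + s)).indicator (fun _ => τ) κ + η / (3 * M) := by
    intro κ
    have h0 := Ak_nonneg w κ
    have h1 : 0 ≤ Ak w κ ^ 2 / τ := by positivity
    have h2 : 0 ≤ η / (3 * M) := by positivity
    have h3 : 0 ≤ (Set.Ioo (w.re - s) (w.re + s)).indicator (fun _ => τ) κ :=
      Set.indicator_nonneg (fun _ _ => hτ0.le) _
    rcases le_or_gt (Ak w κ) τ with h4 | h4
    · by_cases h5 : κ ∈ Set.Ioo (w.re - s) (w.re + s)
      · rw [Set.indicator_of_mem h5]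
        linarith
      · have h6 : s ≤ |w.re - κ| := by
          rw [Set.mem_Ioo, not_and_or, not_lt, not_lt] at h5
          rcases h5 with h5 | h5
          · exact le_trans (by linarith) (le_abs_self _)
          · exact le_trans (by linarith) (neg_le_abs _)
        have h7 : Ak w κ ≤ η / (3 * M) := by
          unfold Ak
          rw [div_le_iff₀ (norm_pos' hw κ)]
          calc Real.sqrt |w.im| ≤ Real.sqrt ((η * s / (3 * M)) ^ 2) := Real.sqrt_le_sqrt hwt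
            _ = η * s / (3 * M) := Real.sqrt_sq (by positivity)
            _ = η / (3 * M) * s := by ring
            _ ≤ η / (3 * M) * ‖w - κ‖ :=
              mul_le_mul_of_nonneg_left (h6.trans (re_le' w κ)) h2
        linarith
    · have h5 : Ak w κ ≤ Ak w κ ^ 2 / τ := by
        rw [le_div_iff₀ hτ0, sq]
        exact mul_le_mul_of_nonneg_left h4.le h0
      linarith
  obtain ⟨i1, h1⟩ := pois_le hρ hw
  have i2 : Integrable ((Set.Ioo (w.re - s) (w.re + s)).indicator (fun _ : ℝ => τ)) ρ :=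
    (integrable_const τ).indicator measurableSet_Ioo
  have h2 : ∫ κ, (Set.Ioo (w.re - s) (w.re + s)).indicator (fun _ : ℝ => τ) κ ∂ρ ≤
      C * (2 * s) * τ := by
    rw [integral_indicator measurableSet_Ioo, setIntegral_const, smul_eq_mul]
    refine mul_le_mul_of_nonneg_right ?_ hτ0.le
    have h3 := hρ (Set.Ioo (w.re - s) (w.re + s))
    rw [Measure.smul_apply, Real.volume_Ioo] at h3
    have h4 : ρ.real (Set.Ioo (w.re - s) (w.re + s)) ≤
        (C • ENNReal.ofReal (w.re + s - (w.re - s))).toReal :=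
      ENNReal.toReal_mono (by
        rw [ENNReal.smul_def, smul_eq_mul]
        exact ENNReal.mul_ne_top ENNReal.coe_ne_top ENNReal.ofReal_ne_top) h3
    refine h4.trans (le_of_eq ?_)
    rw [ENNReal.smul_def, smul_eq_mul, ENNReal.toReal_mul, ENNReal.coe_toReal,
      ENNReal.toReal_ofReal (by linarith)]
    ring
  have h3 : ∫ κ, Ak w κ ∂ρ ≤ ∫ κ, (Ak w κ ^ 2 / τ +
      (Set.Ioo (w.re - s) (w.re + s)).indicator (fun _ => τ) κ + η / (3 * M)) ∂ρ :=
    integral_mono (Ak_int hw) (((i1.div_const τ).add i2).add (integrable_const _)) hpt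
  have i3 : Integrable (fun κ => Ak w κ ^ 2 / τ +
      (Set.Ioo (w.re - s) (w.re + s)).indicator (fun _ => τ) κ) ρ := (i1.div_const τ).add i2
  rw [integral_add i3 (integrable_const _), integral_add (i1.div_const τ) i2,
    integral_div, integral_const, smul_eq_mul] at h3
  have h4 : (∫ κ, Ak w κ ^ 2 ∂ρ) / τ ≤ η / 3 := by
    rw [div_le_iff₀ hτ0, hτ]
    have : η / 3 * (3 * C' * Real.pi / η) = C' * Real.pi := by
      field_simp
    rw [this]
    refine h1.trans (mul_le_mul_of_nonneg_right ?_ Real.pi_pos.le)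
    rw [hC']
    linarith
  have h5 : C * (2 * s) * τ ≤ η / 3 := by
    have e1 : C' * (2 * s) * τ = η / 3 := by
      rw [hs]
      field_simp
      ring
    rw [← e1]
    have : (C : ℝ) ≤ C' := by rw [hC']; linarith
    gcongr
  have h6 : ρ.real Set.univ * (η / (3 * M)) ≤ η / 3 := by
    have e1 : M * (η / (3 * M)) = η / 3 := by field_simp
    rw [← e1]
    have : ρ.real Set.univ ≤ M := by rw [hM]; linarith
    gcongr
  linarith

theorem AA_small (hρ : ρ ≤ C • (volume : Measure ℝ)) {δ η : ℝ} (hδ : 0 < δ) (hη : 0 < η) :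
    ∃ t : ℝ, 0 < t ∧ ∀ w w' : ℂ, w.im ≠ 0 → w'.im ≠ 0 → |w.im| ≤ t → δ ≤ ‖w - w'‖ →
      ∫ κ, Ak w κ * Ak w' κ ∂ρ ≤ η := by
  obtain ⟨M, hM⟩ : ∃ M : ℝ, M = (C : ℝ) * Real.pi + 4 / δ ^ 2 * ρ.real Set.univ + 1 := ⟨_, rfl⟩
  have hM0 : 0 < M := by rw [hM]; positivity
  obtain ⟨t1, ht1, h1⟩ := A_small (ρ := ρ) hρ (η := η / 2 / Real.sqrt (2 / δ)) (by positivity)
  refine ⟨min t1 ((η / M) ^ 2), lt_min ht1 (by positivity), fun w w' hw hw' hwt hd => ?_⟩
  have hwt1 := hwt.trans (min_le_left _ _)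
  have hwt2 := hwt.trans (min_le_right _ _)
  have hy0 : 0 < |w.im| := abs_pos.2 hw
  have hs0 : 0 < Real.sqrt |w.im| := Real.sqrt_pos.2 hy0
  have hs1 : Real.sqrt |w.im| ≤ η / M := by
    calc Real.sqrt |w.im| ≤ Real.sqrt ((η / M) ^ 2) := Real.sqrt_le_sqrt hwt2
      _ = η / M := Real.sqrt_sq (by positivity)
  have hpt : ∀ κ : ℝ, Ak w κ * Ak w' κ ≤ (Real.sqrt |w.im| / 2) * (Ak w' κ ^ 2 + 4 / δ ^ 2) +
      Real.sqrt (2 / δ) * Ak w κ := by
    intro κ
    have a0 := Ak_nonneg w κ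
    have a1 := Ak_nonneg w' κ
    rcases le_or_gt (δ / 2) ‖w - κ‖ with h | h
    · have h2 : Ak w κ ^ 2 ≤ |w.im| * (4 / δ ^ 2) := by
        rw [Ak_sq, div_eq_mul_inv]
        refine mul_le_mul_of_nonneg_left ?_ hy0.le
        rw [inv_le_comm₀ (by have := norm_pos' hw κ; positivity) (by positivity), inv_div]
        calc δ ^ 2 / 4 = (δ / 2) ^ 2 := by ring
          _ ≤ _ := pow_le_pow_left₀ (by positivity) h 2
      have h3 : Ak w κ * Ak w' κ ≤ (Real.sqrt |w.im| / 2) * (Ak w' κ ^ 2 + 4 / δ ^ 2) := by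
        have e1 : |w.im| = Real.sqrt |w.im| ^ 2 := (Real.sq_sqrt hy0.le).symm
        obtain ⟨q, hq⟩ : ∃ q, q = Real.sqrt |w.im| := ⟨_, rfl⟩
        rw [← hq] at hs0 e1 ⊢
        rw [e1] at h2
        -- `A = q B`
        obtain ⟨B, hB⟩ : ∃ B, B = Ak w κ / q := ⟨_, rfl⟩
        have e2 : Ak w κ = q * B := by rw [hB]; field_simp
        rw [e2] at h2 ⊢
        have h4 : B ^ 2 ≤ 4 / δ ^ 2 := by
          have h5 : 0 < q ^ 2 := by positivity
          have h6 : q ^ 2 * B ^ 2 ≤ q ^ 2 * (4 / δ ^ 2) := by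
            calc q ^ 2 * B ^ 2 = (q * B) ^ 2 := by ring
              _ ≤ _ := h2
          exact le_of_mul_le_mul_left h6 h5
        have h5 : B * Ak w' κ ≤ (1 / 2) * (Ak w' κ ^ 2 + 4 / δ ^ 2) := by
          nlinarith [sq_nonneg (B - Ak w' κ)]
        calc q * B * Ak w' κ = q * (B * Ak w' κ) := by ring
          _ ≤ q * ((1 / 2) * (Ak w' κ ^ 2 + 4 / δ ^ 2)) := mul_le_mul_of_nonneg_left h5 hs0.le
          _ = _ := by ring
      have h4 : 0 ≤ Real.sqrt (2 / δ) * Ak w κ := by positivity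
      linarith
    · have h2 : δ / 2 ≤ ‖w' - κ‖ := by
        have h3 : ‖w - w'‖ ≤ ‖w - κ‖ + ‖w' - κ‖ := by
          have e1 : w - w' = (w - κ) - (w' - κ) := by ring
          rw [e1]
          exact norm_sub_le _ _
        linarith
      have h3 : Ak w' κ ≤ Real.sqrt (2 / δ) := by
        apply Real.le_sqrt_of_sq_le
        rw [Ak_sq, div_le_iff₀ (by have := norm_pos' hw' κ; positivity)]
        have h4 := im_le' w' κ
        have h5 : 1 ≤ 2 / δ * ‖w' - κ‖ := by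
          rw [div_mul_eq_mul_div, one_le_div hδ]
          linarith
        calc |w'.im| ≤ ‖w' - κ‖ := h4
          _ = 1 * ‖w' - κ‖ := (one_mul _).symm
          _ ≤ (2 / δ * ‖w' - κ‖) * ‖w' - κ‖ :=
            mul_le_mul_of_nonneg_right h5 (norm_nonneg _)
          _ = _ := by ring
      have h4 : 0 ≤ (Real.sqrt |w.im| / 2) * (Ak w' κ ^ 2 + 4 / δ ^ 2) := by positivity
      have h5 : Ak w κ * Ak w' κ ≤ Ak w κ * Real.sqrt (2 / δ) :=
        mul_le_mul_of_nonneg_left h3 a0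
      linarith
  obtain ⟨i1, h2⟩ := pois_le hρ hw'
  have i2 : Integrable (fun κ => (Real.sqrt |w.im| / 2) * (Ak w' κ ^ 2 + 4 / δ ^ 2)) ρ :=
    (i1.add (integrable_const _)).const_mul _
  have i3 : Integrable (fun κ => Real.sqrt (2 / δ) * Ak w κ) ρ := (Ak_int hw).const_mul _
  have h3 := integral_mono (AA_int hw hw') (i2.add i3) hpt
  simp only [Pi.add_apply] at h3
  rw [integral_add i2 i3, integral_const_mul, integral_const_mul,
    integral_add i1 (integrable_const _), integral_const, smul_eq_mul] at h3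
  have h4 := h1 w hw hwt1
  have hq : 0 < Real.sqrt (2 / δ) := Real.sqrt_pos.2 (by positivity)
  have h5 : Real.sqrt (2 / δ) * ∫ κ, Ak w κ ∂ρ ≤ η / 2 := by
    calc _ ≤ Real.sqrt (2 / δ) * (η / 2 / Real.sqrt (2 / δ)) :=
          mul_le_mul_of_nonneg_left h4 hq.le
      _ = η / 2 := by field_simp
  have h6 : (Real.sqrt |w.im| / 2) * ((∫ κ, Ak w' κ ^ 2 ∂ρ) + ρ.real Set.univ * (4 / δ ^ 2)) ≤
      η / 2 := by
    have h7 : (∫ κ, Ak w' κ ^ 2 ∂ρ) + ρ.real Set.univ * (4 / δ ^ 2) ≤ M := by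
      rw [hM]
      linarith
    calc _ ≤ (Real.sqrt |w.im| / 2) * M := mul_le_mul_of_nonneg_left h7 (by positivity)
      _ ≤ (η / M / 2) * M := by
        refine mul_le_mul_of_nonneg_right ?_ hM0.le
        linarith
      _ = η / 2 := by field_simp
  linarith

end Pool.Agent.Helper26.Rg
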