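import Pool.Agent.Helper26.Rg.Hg
import Pool.Agent.Helper26.Dj.Avg

/-! # Existence of both averages for covariant evolutions -/

set_option autoImplicit false
set_option linter.unusedSectionVars false

open MeasureTheory Filter Topology ProbabilityTheory
open scoped BigOperators ENNReal NNReal InnerProductSpace ComplexConjugate

namespace Pool.Agent.Helper26.Rg

open Pool.Agent.H5R2.NB Pool.Agent.Helper26.Nb Pool.Agent.Helper26.Cm Pool.Agent.Helper26.Dj
open Pool.Agent.TH369.MU (zk ep)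

variable {d : ℕ} {α : Type} [MeasurableSpace α]
  {W' W : (Site d → α) → UG (L2 (Site d))}
  {v : (Site d → α) → L2 (Site d) →L[ℂ] L2 (Site d)}

lemma clm_aP {X : Type} [NormedAddCommGroup X] [InnerProductSpace ℂ X] [CompleteSpace X]
    (S : X →L[ℂ] X) {f : ℝ → X} (hf : Integrable f) : S (∫ s, f s) = ∫ s, S (f s) :=
  (S.integral_comp_comm hf).symm

theorem sm_aP (hW' : CE W') (hW : CE W) (hv : Cv v) {F : (Site d → α) → L2 (Site d)}
    (hF : StronglyMeasurable F) (ε : ℝ) :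
    StronglyMeasurable fun V : Site d → α => aP ε (W' V) (W V) (v V) (F V) := by
  have h0 : Measurable fun p : (Site d → α) × ℝ => ((2 * ε * eR (2 * ε) p.2 : ℝ) : ℂ) :=
    Complex.measurable_ofReal.comp (((eR_meas (2 * ε)).comp measurable_snd).const_mul (2 * ε))
  have h1 : StronglyMeasurable (Function.uncurry fun (V : Site d → α) (s : ℝ) =>
      ((2 * ε * eR (2 * ε) s : ℝ) : ℂ) • (W' V).U (-s) (v V ((W V).U s (F V)))) :=
    h0.stronglyMeasurable.smul (jm_P hW' hW hv hF)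
  exact h1.integral_prod_right

theorem aP_sh (hW' : CE W') (hW : CE W) (hv : Cv v) {z : Site d}
    {S : L2 (Site d) →L[ℂ] L2 (Site d)} (hS : IsShift (-z) S) (V : Site d → α) {ε : ℝ}
    (hε : 0 < ε) :
    aP ε (W' V) (W V) (v V) (dl z) =
      S (aP ε (W' (sh z V)) (W (sh z V)) (v (sh z V)) (dl 0)) := by
  unfold aP
  rw [clm_aP S (aP_int (W' (sh z V)) (W (sh z V)) (v (sh z V)) (dl 0) hε)]
  refine integral_congr_ae (Eventually.of_forall fun s => ?_)
  simp only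
  rw [map_smul]
  congr 1
  rw [← LIMB.shift_dl z S hS]
  have h1 := cov_neg (hW.cv s) hS V (dl 0)
  have h2 := cov_neg hv hS V ((W (sh z V)).U s (dl 0))
  have h3 := cov_neg (hW'.cv (-s)) hS V (v (sh z V) ((W (sh z V)).U s (dl 0)))
  rw [h1, h2, h3]

lemma ep_tendsto : Tendsto ep atTop (𝓝 0) := by
  unfold ep
  exact tendsto_one_div_add_atTop_nhds_zero_nat (𝕜 := ℝ)

theorem abel_conv (hW' : CE W') (hW : CE W) (hv : Cv v) (ρ : Measure α) [IsProbabilityMeasure ρ]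
    {b : (Site d → α) → L2 (Site d)}
    (hb : AEStronglyMeasurable b (Measure.infinitePi fun _ : Site d => ρ))
    (h : Tendsto (fun N : ℕ => ∫⁻ V, ‖gP (W' V) (W V) (v V) N (dl 0) - b V‖ₑ ^ 2
        ∂(Measure.infinitePi fun _ : Site d => ρ)) atTop (𝓝 0)) :
    Tendsto (fun k : ℕ => ∫⁻ V, ‖aP (ep k) (W' V) (W V) (v V) (dl 0) - b V‖ₑ ^ 2
        ∂(Measure.infinitePi fun _ : Site d => ρ)) atTop (𝓝 0) := by
  obtain ⟨R, hR⟩ := hv.bdd
  have hc0 : StronglyMeasurable fun _ : Site d → α => (dl 0 : L2 (Site d)) :=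
    stronglyMeasurable_const
  have h1 := abR (Measure.infinitePi fun _ : Site d => ρ) (fun s V => tb W' W v s V) R
    (fun V => cont_gP (W' V) (W V) (v V) (dl 0))
    (fun s => (hW'.cv (-s)).sm_apply (hv.sm_apply ((hW.cv s).sm_apply hc0)))
    (fun s V => by
      unfold tb
      rw [(W' V).norm']
      refine ((v V).le_opNorm _).trans ?_
      rw [(W V).norm', STAT.norm_dl, mul_one]
      exact hR V) hb h (r := fun k => 2 * ep k)
    (fun k => by have := Fib.ep_pos k; positivity)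
    (by have := ep_tendsto.const_mul 2; rwa [mul_zero] at this)
  refine h1.congr fun k => ?_
  refine lintegral_congr fun V => ?_
  rw [aP_Ioi]
  rfl

/-- existence of both averages -/
theorem vlimH (hW' : CE W') (hW : CE W) (hv : Cv v) (ρ : Measure α) [IsProbabilityMeasure ρ] :
    ∃ (Nk Mk : ℕ → ℕ) (b : (Site d → α) → L2 (Site d)), Tendsto Nk atTop atTop ∧
      Tendsto Mk atTop atTop ∧
      AEStronglyMeasurable b (Measure.infinitePi fun _ : Site d => ρ) ∧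
      Tendsto (fun N : ℕ => ∫⁻ V, ‖gP (W' V) (W V) (v V) N (dl 0) - b V‖ₑ ^ 2
        ∂(Measure.infinitePi fun _ : Site d => ρ)) atTop (𝓝 0) ∧
      Tendsto (fun N : ℕ => ∫⁻ V, ‖gM (W' V) (W V) (v V) N (dl 0) - b V‖ₑ ^ 2
        ∂(Measure.infinitePi fun _ : Site d => ρ)) atTop (𝓝 0) ∧
      ∀ᵐ V ∂(Measure.infinitePi fun _ : Site d => ρ), ∃ B : L2 (Site d) →L[ℂ] L2 (Site d),
        HGood (W' V) (W V) (v V) Nk (fun k => ep (Mk k)) B ∧ B (dl 0) = b V := by
  obtain ⟨Nk, b, hNk, hb, hL2, hM2, hgood⟩ := vlimG hW' hW hv ρ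
  set P : Measure (Site d → α) := Measure.infinitePi fun _ : Site d => ρ with hP
  have hc0 : StronglyMeasurable fun _ : Site d → α => (dl 0 : L2 (Site d)) :=
    stronglyMeasurable_const
  have hP' := abel_conv hW' hW hv ρ hb hL2
  have hM' : Tendsto (fun k : ℕ => ∫⁻ V, ‖aP (ep k) (rev (W' V)) (rev (W V)) (v V) (dl 0) -
      b V‖ₑ ^ 2 ∂P) atTop (𝓝 0) := by
    refine abel_conv (ce_rev hW') (ce_rev hW) hv ρ hb ?_
    refine hM2.congr fun N => lintegral_congr fun V => ?_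
    rw [gM_rev]
  have hfP : ∀ k, AEMeasurable (fun V => ‖aP (ep k) (W' V) (W V) (v V) (dl 0) -
      b V‖ₑ ^ 2) P := fun k =>
    (((sm_aP hW' hW hv hc0 (ep k)).aestronglyMeasurable).sub hb).enorm.pow_const 2
  have hfM : ∀ k, AEMeasurable (fun V => ‖aP (ep k) (rev (W' V)) (rev (W V)) (v V) (dl 0) -
      b V‖ₑ ^ 2) P := fun k =>
    (((sm_aP (ce_rev hW') (ce_rev hW) hv hc0 (ep k)).aestronglyMeasurable).sub
      hb).enorm.pow_const 2
  have hPM := hP'.add hM'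
  rw [add_zero] at hPM
  obtain ⟨Mk, hmono, hMk⟩ := extraction_forall_of_eventually
    (P := fun n k => (∫⁻ V, ‖aP (ep k) (W' V) (W V) (v V) (dl 0) - b V‖ₑ ^ 2 ∂P) +
      (∫⁻ V, ‖aP (ep k) (rev (W' V)) (rev (W V)) (v V) (dl 0) - b V‖ₑ ^ 2 ∂P) <
        (2⁻¹ : ℝ≥0∞) ^ n)
    (fun n => (tendsto_order.1 hPM).2 _ (by
      refine ENNReal.pow_pos ?_ n
      simp))
  refine ⟨Nk, Mk, b, hNk, hmono.tendsto_atTop, hb, hL2, hM2, ?_⟩
  have hfS : ∀ n, AEMeasurable (fun V => ‖aP (ep (Mk n)) (W' V) (W V) (v V) (dl 0) -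
      b V‖ₑ ^ 2 + ‖aP (ep (Mk n)) (rev (W' V)) (rev (W V)) (v V) (dl 0) - b V‖ₑ ^ 2) P :=
    fun n => (hfP (Mk n)).add (hfM (Mk n))
  have hsum : ∫⁻ V, ∑' n, (‖aP (ep (Mk n)) (W' V) (W V) (v V) (dl 0) - b V‖ₑ ^ 2 +
      ‖aP (ep (Mk n)) (rev (W' V)) (rev (W V)) (v V) (dl 0) - b V‖ₑ ^ 2) ∂P ≠ ∞ := by
    rw [lintegral_tsum hfS]
    have hle : ∑' n, ∫⁻ V, (‖aP (ep (Mk n)) (W' V) (W V) (v V) (dl 0) - b V‖ₑ ^ 2 +
        ‖aP (ep (Mk n)) (rev (W' V)) (rev (W V)) (v V) (dl 0) - b V‖ₑ ^ 2) ∂P ≤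
        ∑' n : ℕ, (2⁻¹ : ℝ≥0∞) ^ n := by
      refine ENNReal.tsum_le_tsum fun n => ?_
      rw [lintegral_add_left' (hfP (Mk n))]
      exact (hMk n).le
    refine ne_top_of_le_ne_top ?_ hle
    rw [ENNReal.tsum_geometric]
    simp
  have hae := ae_lt_top' (AEMeasurable.tsum hfS) hsum
  have hG : ∀ᵐ V ∂P,
      Tendsto (fun n => aP (ep (Mk n)) (W' V) (W V) (v V) (dl 0)) atTop
        (𝓝 (b V)) ∧
      Tendsto (fun n => aP (ep (Mk n)) (rev (W' V)) (rev (W V)) (v V) (dl 0)) atTop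
        (𝓝 (b V)) := by
    filter_upwards [hae] with V hV
    have h0 := ENNReal.tendsto_atTop_zero_of_tsum_ne_top hV.ne
    constructor
    · refine LIMB.tendsto_of_enorm_sq (tendsto_of_tendsto_of_tendsto_of_le_of_le
        tendsto_const_nhds h0 (fun _ => zero_le) fun n => ?_)
      exact le_self_add
    · refine LIMB.tendsto_of_enorm_sq (tendsto_of_tendsto_of_tendsto_of_le_of_le
        tendsto_const_nhds h0 (fun _ => zero_le) fun n => ?_)
      exact le_add_self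
  have hGz : ∀ᵐ V ∂P, ∀ z : Site d,
      (Tendsto (fun n => aP (ep (Mk n)) (W' (sh z V)) (W (sh z V)) (v (sh z V))
        (dl 0)) atTop (𝓝 (b (sh z V))) ∧
      Tendsto (fun n => aP (ep (Mk n)) (rev (W' (sh z V))) (rev (W (sh z V))) (v (sh z V))
        (dl 0)) atTop (𝓝 (b (sh z V)))) ∧
      ∃ B : L2 (Site d) →L[ℂ] L2 (Site d),
        GGood (W' (sh z V)) (W (sh z V)) (v (sh z V)) Nk B ∧ B (dl 0) = b (sh z V) := by
    rw [ae_all_iff]
    intro z
    exact (mp_sh (d := d) ρ z).quasiMeasurePreserving.ae (hG.and hgood)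
  filter_upwards [hGz, hgood] with V hV hVg
  obtain ⟨B, hB, hB0⟩ := hVg
  have hpos : ∀ k, 0 < ep (Mk k) := fun k => Fib.ep_pos _
  obtain ⟨B', hB'⟩ := LIMB.ext_lim (fun k => APL (hpos k) (W' V) (W V) (v V))
    (fun k => APL (hpos k) (rev (W' V)) (rev (W V)) (v V)) ‖v V‖ (norm_nonneg _)
    (fun k x => aP_norm _ _ _ _ (hpos k))
    (fun k x => aP_norm _ _ _ _ (hpos k))
    (Site d) dl (LIMB.dl_dense d) (fun z => by
      obtain ⟨S, hS⟩ := (t_OPS d).1 (-z)
      refine ⟨S (b (sh z V)), ?_, ?_⟩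
      · have := (S.continuous.tendsto _).comp (hV z).1.1
        refine this.congr fun k => ?_
        show _ = aP (ep (Mk k)) (W' V) (W V) (v V) (dl z)
        rw [aP_sh hW' hW hv hS V (hpos k)]
        rfl
      · have := (S.continuous.tendsto _).comp (hV z).1.2
        refine this.congr fun k => ?_
        show _ = aP (ep (Mk k)) (rev (W' V)) (rev (W V)) (v V) (dl z)
        rw [aP_sh (ce_rev hW') (ce_rev hW) hv hS V (hpos k)]
        rfl)
  have hBB : B' = B := by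
    refine ContinuousLinearMap.ext_on (s := Set.range (dl (d := d))) (fun x => LIMB.dl_dense d x) ?_
    rintro _ ⟨z, rfl⟩
    obtain ⟨S, hS⟩ := (t_OPS d).1 (-z)
    obtain ⟨⟨h1, -⟩, B₁, hB₁, hB₁0⟩ := hV z
    have e1 : B' (dl z) = S (b (sh z V)) := by
      refine tendsto_nhds_unique (hB' (dl z)).1 (((S.continuous.tendsto _).comp h1).congr
        fun k => ?_)
      show _ = aP (ep (Mk k)) (W' V) (W V) (v V) (dl z)
      rw [aP_sh hW' hW hv hS V (hpos k)]
      rfl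
    have e2 : B (dl z) = S (b (sh z V)) := by
      have h3 := (S.continuous.tendsto _).comp (hB₁ (dl 0)).1
      rw [hB₁0] at h3
      refine tendsto_nhds_unique (hB (dl z)).1 (h3.congr fun k => ?_)
      rw [gP_sh hW' hW hv hS]
      rfl
    rw [e1, e2]
  rw [hBB] at hB'
  exact ⟨B, ⟨hB, hB'⟩, hB0⟩

end Pool.Agent.Helper26.Rg
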