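import Pool.Agent.Helper26.Rg.Psi

/-! # Vanishing of the limits: the abstract argument on the energy side -/

set_option autoImplicit false

open MeasureTheory Filter Topology
open scoped ENNReal NNReal ComplexConjugate

namespace Pool.Agent.Helper26.Rg

/-- exhaustion -/
lemma exh {h : ℕ → ℝ → ℂ} {M : ℝ} (hm : ∀ k, Measurable (h k)) (hM : ∀ k E, ‖h k E‖ ≤ M)
    {f : ℝ → ℂ} (hf : Integrable f) (A : ℕ → Set ℝ) (hA : ∀ i, MeasurableSet (A i))
    (hev : ∀ᵐ E : ℝ, f E = 0 ∨ ∀ᶠ i in atTop, E ∈ A i)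
    (hz : ∀ i, Tendsto (fun k => ∫ E, (A i).indicator f E * h k E) atTop (𝓝 0)) :
    Tendsto (fun k => ∫ E, f E * h k E) atTop (𝓝 0) := by
  have hM0 : 0 ≤ M := (norm_nonneg _).trans (hM 0 0)
  have h1 : Tendsto (fun i => ∫ E, (A i)ᶜ.indicator (fun E => ‖f E‖) E) atTop (𝓝 0) := by
    have h2 := tendsto_integral_of_dominated_convergence (μ := (volume : Measure ℝ))
      (F := fun i E => (A i)ᶜ.indicator (fun E => ‖f E‖) E) (f := fun _ => (0 : ℝ))
      (fun E => ‖f E‖) (fun i => (hf.norm.indicator (hA i).compl).aestronglyMeasurable) hf.norm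
      (fun i => Eventually.of_forall fun E => ?_) ?_
    · simpa using h2
    · rw [Real.norm_of_nonneg (Set.indicator_nonneg (fun _ _ => norm_nonneg _) _)]
      exact Set.indicator_le_self' (fun _ _ => norm_nonneg _) _
    · filter_upwards [hev] with E hE
      rcases hE with hE | hE
      · have e1 : ∀ i, (A i)ᶜ.indicator (fun E => ‖f E‖) E = 0 := by
          intro i
          by_cases hi : E ∈ (A i)ᶜ
          · rw [Set.indicator_of_mem hi, hE, norm_zero]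
          · rw [Set.indicator_of_notMem hi]
        simp only [e1]
        exact tendsto_const_nhds
      · refine tendsto_const_nhds.congr' ?_
        filter_upwards [hE] with i hi
        rw [Set.indicator_of_notMem]
        simpa using hi
  have hint : ∀ (g : ℝ → ℂ), Integrable g → ∀ k, Integrable fun E => g E * h k E := fun g hg k =>
    hg.mul_bdd (c := M) (hm k).aestronglyMeasurable (Eventually.of_forall (hM k))
  rw [Metric.tendsto_atTop]
  intro η hη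
  obtain ⟨i, hi⟩ := (h1.eventually_lt_const (u := η / 2 / (M + 1)) (by positivity)).exists
  obtain ⟨N, hN⟩ := (Metric.tendsto_atTop.1 (hz i)) (η / 2) (by positivity)
  refine ⟨N, fun k hk => ?_⟩
  have h2 := hN k hk
  rw [dist_zero_right] at h2 ⊢
  have h3 : ∫ E, f E * h k E = (∫ E, (A i).indicator f E * h k E) +
      ∫ E, (A i)ᶜ.indicator f E * h k E := by
    rw [← integral_add (hint _ (hf.indicator (hA i)) k) (hint _ (hf.indicator (hA i).compl) k)]
    refine integral_congr_ae (Eventually.of_forall fun E => ?_)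
    simp only
    rw [← add_mul]
    congr 1
    exact (congrFun (Set.indicator_self_add_compl (A i) f) E).symm
  have h4 : ‖∫ E, (A i)ᶜ.indicator f E * h k E‖ ≤ M * ∫ E, (A i)ᶜ.indicator (fun E => ‖f E‖) E := by
    rw [← integral_const_mul]
    refine norm_integral_le_of_norm_le ((hf.norm.indicator (hA i).compl).const_mul M)
      (Eventually.of_forall fun E => ?_)
    rw [norm_mul, mul_comm]
    refine mul_le_mul (hM k E) (le_of_eq ?_) (norm_nonneg _) hM0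
    exact norm_indicator_eq_indicator_norm _ _
  have h5 : M * ∫ E, (A i)ᶜ.indicator (fun E => ‖f E‖) E ≤ η / 2 := by
    have h6 : (0 : ℝ) ≤ ∫ E, (A i)ᶜ.indicator (fun E => ‖f E‖) E :=
      integral_nonneg fun E => Set.indicator_nonneg (fun _ _ => norm_nonneg _) _
    calc _ ≤ (M + 1) * ∫ E, (A i)ᶜ.indicator (fun E => ‖f E‖) E := by nlinarith
      _ ≤ (M + 1) * (η / 2 / (M + 1)) := mul_le_mul_of_nonneg_left hi.le (by linarith)
      _ = η / 2 := by field_simp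
  rw [h3]
  calc _ ≤ ‖∫ E, (A i).indicator f E * h k E‖ + ‖∫ E, (A i)ᶜ.indicator f E * h k E‖ :=
        norm_add_le _ _
    _ < η / 2 + η / 2 := by linarith
    _ = η := by ring

/-- dominated convergence -/
lemma dct0 {h : ℕ → ℝ → ℂ} {M : ℝ} (hm : ∀ k, Measurable (h k)) (hM : ∀ k E, ‖h k E‖ ≤ M)
    {f : ℝ → ℂ} (hf : Integrable f)
    (hz : ∀ᵐ E : ℝ, f E = 0 ∨ Tendsto (fun k => h k E) atTop (𝓝 0)) :
    Tendsto (fun k => ∫ E, f E * h k E) atTop (𝓝 0) := by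
  have h2 := tendsto_integral_of_dominated_convergence (μ := (volume : Measure ℝ))
    (F := fun k E => f E * h k E) (f := fun _ => (0 : ℂ))
    (fun E => ‖f E‖ * M) (fun k => hf.aestronglyMeasurable.mul (hm k).aestronglyMeasurable)
    (hf.norm.mul_const M) (fun k => Eventually.of_forall fun E => ?_) ?_
  · simpa using h2
  · rw [norm_mul]
    exact mul_le_mul_of_nonneg_left (hM k E) (norm_nonneg _)
  · filter_upwards [hz] with E hE
    rcases hE with hE | hE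
    · simp only [hE, zero_mul]
      exact tendsto_const_nhds
    · have := hE.const_mul (f E)
      rwa [mul_zero] at this

/-! ### the kernels -/

section ker

variable (ρ : Measure ℝ)

/-- `∫ b(κ) / ((w₁ - κ) (w₂ - κ)) dρ(κ)` -/
noncomputable def Kf (b : ℝ → ℂ) (w₁ w₂ : ℂ) : ℂ :=
  ∫ κ : ℝ, b κ * ((w₁ - κ) * (w₂ - κ))⁻¹ ∂ρ

variable {ρ} [IsFiniteMeasure ρ] {C : ℝ≥0} {b : ℝ → ℂ} {B : ℝ}

lemma Ak_conj (w : ℂ) (κ : ℝ) : Ak (conj w) κ = Ak w κ := by
  unfold Ak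
  have h1 : conj w - (κ : ℂ) = conj (w - κ) := by
    rw [map_sub, Complex.conj_ofReal]
  rw [h1, RCLike.norm_conj, Complex.conj_im, abs_neg]

lemma ker_meas (hb : Measurable b) {w₁ w₂ : ℝ → ℂ} (h1 : Measurable w₁) (h2 : Measurable w₂) :
    StronglyMeasurable (Function.uncurry fun (E κ : ℝ) =>
      b κ * ((w₁ E - κ) * (w₂ E - κ))⁻¹) := by
  apply Measurable.stronglyMeasurable
  unfold Function.uncurry
  have a1 : Measurable fun p : ℝ × ℝ => b p.2 := hb.comp measurable_snd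
  have a2 : Measurable fun p : ℝ × ℝ => w₁ p.1 - (p.2 : ℂ) :=
    (h1.comp measurable_fst).sub (Complex.measurable_ofReal.comp measurable_snd)
  have a3 : Measurable fun p : ℝ × ℝ => w₂ p.1 - (p.2 : ℂ) :=
    (h2.comp measurable_fst).sub (Complex.measurable_ofReal.comp measurable_snd)
  exact a1.mul (a2.mul a3).inv

lemma Kf_meas (hb : Measurable b) {w₁ w₂ : ℝ → ℂ} (h1 : Measurable w₁) (h2 : Measurable w₂) :
    Measurable fun E => Kf ρ b (w₁ E) (w₂ E) :=
  ((ker_meas hb h1 h2).integral_prod_right).measurable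

lemma ker_norm {w₁ w₂ : ℂ} (h1 : w₁.im ≠ 0) (h2 : w₂.im ≠ 0) (κ : ℝ) :
    Real.sqrt |w₁.im| * Real.sqrt |w₂.im| * ‖((w₁ - κ) * (w₂ - κ))⁻¹‖ = Ak w₁ κ * Ak w₂ κ := by
  unfold Ak
  rw [norm_inv, norm_mul]
  have := norm_pos' h1 κ
  have := norm_pos' h2 κ
  field_simp

lemma Kf_le (hB : ∀ κ, ‖b κ‖ ≤ B) {w₁ w₂ : ℂ}
    (h1 : w₁.im ≠ 0) (h2 : w₂.im ≠ 0) :
    Real.sqrt |w₁.im| * Real.sqrt |w₂.im| * ‖Kf ρ b w₁ w₂‖ ≤ B * ∫ κ, Ak w₁ κ * Ak w₂ κ ∂ρ := by
  have hs : 0 ≤ Real.sqrt |w₁.im| * Real.sqrt |w₂.im| := by positivity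
  have e1 : Real.sqrt |w₁.im| * Real.sqrt |w₂.im| * ‖Kf ρ b w₁ w₂‖ =
      ‖∫ κ : ℝ, ((Real.sqrt |w₁.im| * Real.sqrt |w₂.im| : ℝ) : ℂ) *
        (b κ * ((w₁ - κ) * (w₂ - κ))⁻¹) ∂ρ‖ := by
    rw [integral_const_mul, norm_mul, Complex.norm_real, Real.norm_of_nonneg hs]
    rfl
  rw [e1, ← integral_const_mul]
  refine norm_integral_le_of_norm_le ((AA_int h1 h2).const_mul B)
    (Eventually.of_forall fun κ => ?_)
  rw [norm_mul, norm_mul, Complex.norm_real, Real.norm_of_nonneg hs, ← ker_norm h1 h2]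
  have h3 := hB κ
  have h4 : 0 ≤ ‖((w₁ - κ) * (w₂ - κ))⁻¹‖ := norm_nonneg _
  calc Real.sqrt |w₁.im| * Real.sqrt |w₂.im| * (‖b κ‖ * ‖((w₁ - κ) * (w₂ - κ))⁻¹‖)
      = ‖b κ‖ * (Real.sqrt |w₁.im| * Real.sqrt |w₂.im| * ‖((w₁ - κ) * (w₂ - κ))⁻¹‖) := by ring
    _ ≤ _ := mul_le_mul_of_nonneg_right h3 (by positivity)

lemma ker_bd {w₁ w₂ : ℂ} (h1 : w₁.im ≠ 0) (h2 : w₂.im ≠ 0) (κ : ℝ) :
    ‖((w₁ - κ) * (w₂ - κ))⁻¹‖ ≤ |w₁.im|⁻¹ * |w₂.im|⁻¹ := by
  rw [norm_inv, norm_mul, mul_inv]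
  have a1 := abs_pos.2 h1
  have a2 := abs_pos.2 h2
  exact mul_le_mul (inv_anti₀ a1 (im_le' _ _)) (inv_anti₀ a2 (im_le' _ _)) (by positivity)
    (by positivity)

lemma ker_int (hb : Measurable b) (hB : ∀ κ, ‖b κ‖ ≤ B) {w₁ w₂ : ℂ} (h1 : w₁.im ≠ 0)
    (h2 : w₂.im ≠ 0) : Integrable (fun κ : ℝ => b κ * ((w₁ - κ) * (w₂ - κ))⁻¹) ρ := by
  have hB0 : 0 ≤ B := (norm_nonneg _).trans (hB 0)
  refine Integrable.of_bound (C := B * (|w₁.im|⁻¹ * |w₂.im|⁻¹)) ?_
    (Eventually.of_forall fun κ => ?_)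
  · have := (ker_meas hb (w₁ := fun _ => w₁) (w₂ := fun _ => w₂) measurable_const
      measurable_const).comp_measurable (g := fun κ : ℝ => ((0 : ℝ), κ)) (by fun_prop)
    exact this.aestronglyMeasurable
  · rw [norm_mul]
    exact mul_le_mul (hB κ) (ker_bd h1 h2 κ) (norm_nonneg _) hB0

lemma Kf_norm (hB : ∀ κ, ‖b κ‖ ≤ B) {w₁ w₂ : ℂ} (h1 : w₁.im ≠ 0)
    (h2 : w₂.im ≠ 0) : ‖Kf ρ b w₁ w₂‖ ≤ B * (|w₁.im|⁻¹ * |w₂.im|⁻¹) * ρ.real Set.univ := by
  have hB0 : 0 ≤ B := (norm_nonneg _).trans (hB 0)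
  refine norm_integral_le_of_norm_le_const (Eventually.of_forall fun κ => ?_)
  rw [norm_mul]
  exact mul_le_mul (hB κ) (ker_bd h1 h2 κ) (norm_nonneg _) hB0

lemma Kf_cont (hb : Measurable b) (hB : ∀ κ, ‖b κ‖ ≤ B) {w₁ w₂ : ℂ} (h1 : w₁.im ≠ 0)
    (h2 : w₂.im ≠ 0) {u v : ℕ → ℂ} (hu : Tendsto u atTop (𝓝 w₁)) (hv : Tendsto v atTop (𝓝 w₂)) :
    Tendsto (fun k => Kf ρ b (u k) (v k)) atTop (𝓝 (Kf ρ b w₁ w₂)) := by
  have hB0 : 0 ≤ B := (norm_nonneg _).trans (hB 0)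
  have a1 := abs_pos.2 h1
  have a2 := abs_pos.2 h2
  have e1 : ∀ᶠ k in atTop, |w₁.im| / 2 < |(u k).im| :=
    (((Complex.continuous_im.tendsto _).comp hu).abs).eventually_const_lt (by linarith)
  have e2 : ∀ᶠ k in atTop, |w₂.im| / 2 < |(v k).im| :=
    (((Complex.continuous_im.tendsto _).comp hv).abs).eventually_const_lt (by linarith)
  refine tendsto_integral_filter_of_dominated_convergence
    (fun _ => B * ((|w₁.im| / 2)⁻¹ * (|w₂.im| / 2)⁻¹)) ?_ ?_ (integrable_const _) ?_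
  · refine Eventually.of_forall fun k => ?_
    have := (ker_meas hb (w₁ := fun _ => u k) (w₂ := fun _ => v k) measurable_const
      measurable_const).comp_measurable (g := fun κ : ℝ => ((0 : ℝ), κ)) (by fun_prop)
    exact this.aestronglyMeasurable
  · filter_upwards [e1, e2] with k h3 h4
    refine Eventually.of_forall fun κ => ?_
    rw [norm_mul]
    have p1 : (u k).im ≠ 0 := by
      intro h
      rw [h, abs_zero] at h3
      linarith
    have p2 : (v k).im ≠ 0 := by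
      intro h
      rw [h, abs_zero] at h4
      linarith
    refine mul_le_mul (hB κ) ((ker_bd p1 p2 κ).trans ?_) (norm_nonneg _) hB0
    exact mul_le_mul (inv_anti₀ (by positivity) h3.le) (inv_anti₀ (by positivity) h4.le)
      (by positivity) (by positivity)
  · refine Eventually.of_forall fun κ => ?_
    refine Tendsto.const_mul _ (Tendsto.inv₀ ((hu.sub_const _).mul (hv.sub_const _)) ?_)
    exact mul_ne_zero (norm_pos_iff.1 (norm_pos' h1 κ)) (norm_pos_iff.1 (norm_pos' h2 κ))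

end ker

end Pool.Agent.Helper26.Rg
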