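import Pool.Agent.Helper26.Rg.Zed

/-! # Vanishing of the limits: the two steps -/

set_option autoImplicit false

open MeasureTheory Filter Topology
open scoped ENNReal NNReal ComplexConjugate

namespace Pool.Agent.Helper26.Rg

/-- The data of the energy side. -/
structure Dat (ρ : Measure ℝ) (C : ℝ≥0) (R M : ℝ) (w w2 n m : ℕ → ℝ → ℂ) : Prop where
  hρ : ρ ≤ C • (volume : Measure ℝ)
  hR : ∀ᵐ κ ∂ρ, |κ| ≤ R
  wm : ∀ k, Measurable (w k)
  w2m : ∀ k, Measurable (w2 k)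
  nm : ∀ k, Measurable (n k)
  mm : ∀ k, Measurable (m k)
  wne : ∀ k E, (w k E).im ≠ 0
  w2ne : ∀ k E, (w2 k E).im ≠ 0
  hn : ∀ k E, ‖n k E‖ ≤ M * (Real.sqrt |(w k E).im| * Real.sqrt |(w2 k E).im|)
  hm : ∀ k E, ‖m k E‖ ≤ M * (Real.sqrt |(w k E).im| * Real.sqrt |(w2 k E).im|)
  lw : ∀ᵐ E : ℝ, ∃ l : ℝ, Tendsto (fun k => (w k E).im) atTop (𝓝 l) ∧
    (l ≠ 0 → ∃ W : ℂ, Tendsto (fun k => w k E) atTop (𝓝 W))
  lw2 : ∀ᵐ E : ℝ, ∃ l : ℝ, Tendsto (fun k => (w2 k E).im) atTop (𝓝 l) ∧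
    (l ≠ 0 → ∃ W : ℂ, Tendsto (fun k => w2 k E) atTop (𝓝 W))
  sep : ∀ L η : ℝ, 0 < η → ∃ δ : ℝ, 0 < δ ∧ ∀ᶠ k in atTop,
    volume {E : ℝ | E ∈ Set.Icc (-L) L ∧ ‖w2 k E - w k E‖ < δ} ≤ ENNReal.ofReal η
  A3 : ∀ f : ℝ → ℂ, Integrable f → ∀ (b : ℝ → ℂ) (B : ℝ), Measurable b → (∀ κ, ‖b κ‖ ≤ B) →
    Tendsto (fun k => ∫ E, f E * (n k E * Kf ρ b (conj (w2 k E)) (w k E) -
      m k E * Kf ρ b (w2 k E) (conj (w k E)))) atTop (𝓝 0)

lemma abs_cont {f : ℝ → ℂ} (hf : Integrable f) {η : ℝ} (hη : 0 < η) :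
    ∃ δ : ℝ, 0 < δ ∧ ∀ s : Set ℝ, MeasurableSet s → volume s ≤ ENNReal.ofReal δ →
      ∫ E in s, ‖f E‖ ≤ η := by
  obtain ⟨δ, hδ, h⟩ := exists_pos_setLIntegral_lt_of_measure_lt (μ := (volume : Measure ℝ))
    (f := fun E => ‖f E‖ₑ) hf.hasFiniteIntegral.ne (ε := ENNReal.ofReal η)
    (ENNReal.ofReal_pos.2 hη).ne'
  obtain ⟨d, hd0, hd⟩ : ∃ d : ℝ, 0 < d ∧ ENNReal.ofReal d < δ := by
    rcases eq_or_ne δ ∞ with h1 | h1
    · exact ⟨1, one_pos, by rw [h1]; exact ENNReal.ofReal_lt_top⟩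
    · refine ⟨δ.toReal / 2, by have := ENNReal.toReal_pos hδ.ne' h1; positivity, ?_⟩
      have h2 := ENNReal.toReal_pos hδ.ne' h1
      rw [ENNReal.ofReal_lt_iff_lt_toReal (by positivity) h1]
      linarith
  refine ⟨d, hd0, fun s _ hs' => ?_⟩
  have h3 := h s (hs'.trans_lt hd)
  have h4 : ∫ E in s, ‖f E‖ = (∫⁻ E in s, ‖f E‖ₑ).toReal := by
    rw [integral_norm_eq_lintegral_enorm hf.aestronglyMeasurable.restrict]
  rw [h4]
  exact ENNReal.toReal_le_of_le_ofReal hη.le h3.le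

section

variable {ρ : Measure ℝ} [IsFiniteMeasure ρ] {C : ℝ≥0} {R M : ℝ} {w w2 n m : ℕ → ℝ → ℂ}
  {b : ℝ → ℂ} {B : ℝ}

namespace Dat

lemma Hm (D : Dat ρ C R M w w2 n m) (hb : Measurable b) (k : ℕ) :
    Measurable fun E => n k E * Kf ρ b (conj (w2 k E)) (w k E) :=
  (D.nm k).mul (Kf_meas hb (Complex.continuous_conj.measurable.comp (D.w2m k)) (D.wm k))

lemma Hm' (D : Dat ρ C R M w w2 n m) (hb : Measurable b) (k : ℕ) :
    Measurable fun E => m k E * Kf ρ b (w2 k E) (conj (w k E)) :=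
  (D.mm k).mul (Kf_meas hb (D.w2m k) (Complex.continuous_conj.measurable.comp (D.wm k)))

lemma H_le (D : Dat ρ C R M w w2 n m) (hM : 0 ≤ M) (hB : ∀ κ, ‖b κ‖ ≤ B) (k : ℕ) (E : ℝ) :
    ‖n k E * Kf ρ b (conj (w2 k E)) (w k E)‖ ≤
      M * (B * ∫ κ, Ak (w k E) κ * Ak (w2 k E) κ ∂ρ) := by
  have h1 := Kf_le (ρ := ρ) hB (w₁ := conj (w2 k E)) (w₂ := w k E)
    (by rw [Complex.conj_im]; exact neg_ne_zero.2 (D.w2ne k E)) (D.wne k E)
  simp only [Complex.conj_im, abs_neg, Ak_conj] at h1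
  have e1 : ∫ κ, Ak (w2 k E) κ * Ak (w k E) κ ∂ρ = ∫ κ, Ak (w k E) κ * Ak (w2 k E) κ ∂ρ := by
    refine integral_congr_ae (Eventually.of_forall fun κ => mul_comm _ _)
  rw [e1] at h1
  rw [norm_mul]
  calc ‖n k E‖ * ‖Kf ρ b (conj (w2 k E)) (w k E)‖
      ≤ M * (Real.sqrt |(w k E).im| * Real.sqrt |(w2 k E).im|) *
        ‖Kf ρ b (conj (w2 k E)) (w k E)‖ := mul_le_mul_of_nonneg_right (D.hn k E) (norm_nonneg _)
    _ = M * (Real.sqrt |(w2 k E).im| * Real.sqrt |(w k E).im| *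
        ‖Kf ρ b (conj (w2 k E)) (w k E)‖) := by ring
    _ ≤ _ := mul_le_mul_of_nonneg_left h1 hM

lemma H_le' (D : Dat ρ C R M w w2 n m) (hM : 0 ≤ M) (hB : ∀ κ, ‖b κ‖ ≤ B) (k : ℕ) (E : ℝ) :
    ‖n k E * Kf ρ b (conj (w2 k E)) (w k E)‖ ≤ M * (B * (C * Real.pi)) := by
  have hB0 : 0 ≤ B := (norm_nonneg _).trans (hB 0)
  exact (D.H_le hM hB k E).trans (mul_le_mul_of_nonneg_left (mul_le_mul_of_nonneg_left
    (AA_le D.hρ (D.wne k E) (D.w2ne k E)) hB0) hM)

lemma H_bd' (D : Dat ρ C R M w w2 n m) (hM : 0 ≤ M) (hB : ∀ κ, ‖b κ‖ ≤ B) (k : ℕ) (E : ℝ) :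
    ‖m k E * Kf ρ b (w2 k E) (conj (w k E))‖ ≤ M * (B * (C * Real.pi)) := by
  have hB0 : 0 ≤ B := (norm_nonneg _).trans (hB 0)
  have h1 := Kf_le (ρ := ρ) hB (w₁ := w2 k E) (w₂ := conj (w k E)) (D.w2ne k E)
    (by rw [Complex.conj_im]; exact neg_ne_zero.2 (D.wne k E))
  simp only [Complex.conj_im, abs_neg, Ak_conj] at h1
  have h2 := AA_le D.hρ (D.w2ne k E) (D.wne k E)
  rw [norm_mul]
  calc ‖m k E‖ * ‖Kf ρ b (w2 k E) (conj (w k E))‖
      ≤ M * (Real.sqrt |(w k E).im| * Real.sqrt |(w2 k E).im|) *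
        ‖Kf ρ b (w2 k E) (conj (w k E))‖ := mul_le_mul_of_nonneg_right (D.hm k E) (norm_nonneg _)
    _ = M * (Real.sqrt |(w2 k E).im| * Real.sqrt |(w k E).im| *
        ‖Kf ρ b (w2 k E) (conj (w k E))‖) := by ring
    _ ≤ _ := mul_le_mul_of_nonneg_left (h1.trans (mul_le_mul_of_nonneg_left h2 hB0)) hM

/-- Step A: where one of the imaginary parts tends to zero. -/
theorem stepA (D : Dat ρ C R M w w2 n m) (hM : 0 ≤ M) (hb : Measurable b)
    (hB : ∀ κ, ‖b κ‖ ≤ B) {f : ℝ → ℂ} (hf : Integrable f)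
    (hz : ∀ᵐ E : ℝ, f E = 0 ∨ Tendsto (fun k => (w k E).im) atTop (𝓝 0) ∨
      Tendsto (fun k => (w2 k E).im) atTop (𝓝 0)) :
    Tendsto (fun k => ∫ E, f E * (n k E * Kf ρ b (conj (w2 k E)) (w k E))) atTop (𝓝 0) := by
  have hB0 : 0 ≤ B := (norm_nonneg _).trans (hB 0)
  set K : ℝ := M * (B * (C * Real.pi)) with hK
  have hK0 : 0 ≤ K := by rw [hK]; positivity
  have hHK := D.H_le' hM hB
  refine exh (M := K) (D.Hm hb) hHK hf (fun i : ℕ => Set.Icc (-(i : ℝ)) i)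
    (fun i => measurableSet_Icc) ?_ fun L => ?_
  · refine Eventually.of_forall fun E => Or.inr ?_
    obtain ⟨N, hN⟩ := exists_nat_ge |E|
    filter_upwards [eventually_ge_atTop N] with i hi
    have : (N : ℝ) ≤ i := by exact_mod_cast hi
    exact abs_le.1 (hN.trans this)
  set g : ℝ → ℂ := (Set.Icc (-(L : ℝ)) L).indicator f with hg
  have hgi : Integrable g := hf.indicator measurableSet_Icc
  have hgz : ∀ᵐ E : ℝ, g E = 0 ∨ (E ∈ Set.Icc (-(L : ℝ)) L ∧
      (Tendsto (fun k => (w k E).im) atTop (𝓝 0) ∨ Tendsto (fun k => (w2 k E).im) atTop (𝓝 0))) := by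
    filter_upwards [hz] with E hE
    by_cases h : E ∈ Set.Icc (-(L : ℝ)) L
    · rcases hE with hE | hE
      · left
        rw [hg, Set.indicator_of_mem h, hE]
      · exact Or.inr ⟨h, hE⟩
    · left
      rw [hg, Set.indicator_of_notMem h]
  rw [Metric.tendsto_atTop]
  intro η hη
  obtain ⟨s, hs, hs'⟩ := abs_cont hgi (η := η / 2 / (K + 1)) (by positivity)
  obtain ⟨δ, hδ, hδ'⟩ := D.sep L s hs
  set S : ℕ → Set ℝ := fun k => {E : ℝ | E ∈ Set.Icc (-(L : ℝ)) L ∧ ‖w2 k E - w k E‖ < δ} with hS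
  have hSm : ∀ k, MeasurableSet (S k) := fun k => by
    refine MeasurableSet.inter measurableSet_Icc ?_
    exact measurableSet_lt ((D.w2m k).sub (D.wm k)).norm measurable_const
  have hint : ∀ k, Integrable fun E => g E * (n k E * Kf ρ b (conj (w2 k E)) (w k E)) := fun k =>
    hgi.mul_bdd (c := K) (D.Hm hb k).aestronglyMeasurable (Eventually.of_forall (hHK k))
  have h1 : Tendsto (fun k => ∫ E, (S k)ᶜ.indicator (fun E =>
      ‖g E * (n k E * Kf ρ b (conj (w2 k E)) (w k E))‖) E) atTop (𝓝 0) := by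
    have h2 := tendsto_integral_of_dominated_convergence (μ := (volume : Measure ℝ))
      (F := fun k E => (S k)ᶜ.indicator (fun E =>
        ‖g E * (n k E * Kf ρ b (conj (w2 k E)) (w k E))‖) E) (f := fun _ => (0 : ℝ))
      (fun E => ‖g E‖ * K) (fun k => ((hint k).norm.indicator (hSm k).compl).aestronglyMeasurable)
      (hgi.norm.mul_const K) (fun k => Eventually.of_forall fun E => ?_) ?_
    · simpa using h2
    · rw [Real.norm_of_nonneg (Set.indicator_nonneg (fun _ _ => norm_nonneg _) _)]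
      refine (Set.indicator_le_self' (fun _ _ => norm_nonneg _) _).trans ?_
      rw [norm_mul]
      exact mul_le_mul_of_nonneg_left (hHK k E) (norm_nonneg _)
    · filter_upwards [hgz] with E hE
      rcases hE with hE | ⟨hEL, hE⟩
      · have e1 : ∀ k, (S k)ᶜ.indicator (fun E =>
            ‖g E * (n k E * Kf ρ b (conj (w2 k E)) (w k E))‖) E = 0 := by
          intro k
          by_cases hi : E ∈ (S k)ᶜ
          · rw [Set.indicator_of_mem hi, hE, zero_mul, norm_zero]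
          · rw [Set.indicator_of_notMem hi]
        simp only [e1]
        exact tendsto_const_nhds
      · rw [Metric.tendsto_atTop]
        intro τ hτ
        obtain ⟨q, hq⟩ : ∃ q : ℝ, q = τ / 2 / (‖g E‖ * (M * B) + 1) := ⟨_, rfl⟩
        have hgM : 0 ≤ ‖g E‖ * (M * B) := by positivity
        have hq0 : 0 < q := by rw [hq]; positivity
        obtain ⟨t, ht, ht'⟩ := AA_small (ρ := ρ) D.hρ hδ hq0
        have hev : ∀ᶠ k in atTop, |(w k E).im| ≤ t ∨ |(w2 k E).im| ≤ t := by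
          rcases hE with hE | hE
          · filter_upwards [(hE.abs).eventually_lt_const (u := t) (by simpa using ht)] with k hk
            exact Or.inl hk.le
          · filter_upwards [(hE.abs).eventually_lt_const (u := t) (by simpa using ht)] with k hk
            exact Or.inr hk.le
        obtain ⟨N, hN⟩ := eventually_atTop.1 hev
        refine ⟨N, fun k hk => ?_⟩
        rw [dist_zero_right, Real.norm_of_nonneg (Set.indicator_nonneg (fun _ _ => norm_nonneg _) _)]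
        by_cases hi : E ∈ (S k)ᶜ
        · rw [Set.indicator_of_mem hi, norm_mul]
          have hd : δ ≤ ‖w2 k E - w k E‖ := by
            by_contra hlt
            exact hi ⟨hEL, not_le.1 hlt⟩
          have h3 : ∫ κ, Ak (w k E) κ * Ak (w2 k E) κ ∂ρ ≤ q := by
            rcases hN k hk with h4 | h4
            · exact ht' _ _ (D.wne k E) (D.w2ne k E) h4 (by rwa [norm_sub_rev])
            · have h5 := ht' _ _ (D.w2ne k E) (D.wne k E) h4 hd
              have e1 : ∫ κ, Ak (w2 k E) κ * Ak (w k E) κ ∂ρ =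
                  ∫ κ, Ak (w k E) κ * Ak (w2 k E) κ ∂ρ :=
                integral_congr_ae (Eventually.of_forall fun κ => mul_comm _ _)
              rwa [e1] at h5
          calc _ ≤ ‖g E‖ * (M * (B * q)) := by
                refine mul_le_mul_of_nonneg_left ((D.H_le hM hB k E).trans ?_) (norm_nonneg _)
                exact mul_le_mul_of_nonneg_left (mul_le_mul_of_nonneg_left h3 hB0) hM
            _ = ‖g E‖ * (M * B) * q := by ring
            _ ≤ (‖g E‖ * (M * B) + 1) * q := by nlinarith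
            _ = τ / 2 := by rw [hq]; field_simp
            _ < τ := by linarith
        · rw [Set.indicator_of_notMem hi]
          exact hτ
  obtain ⟨N, hN⟩ := eventually_atTop.1 (hδ'.and (h1.eventually_lt_const (u := η / 2)
    (by positivity)))
  refine ⟨N, fun k hk => ?_⟩
  obtain ⟨h2, h3⟩ := hN k hk
  rw [dist_zero_right]
  have h4 : ∫ E, ‖g E * (n k E * Kf ρ b (conj (w2 k E)) (w k E))‖ =
      (∫ E in S k, ‖g E * (n k E * Kf ρ b (conj (w2 k E)) (w k E))‖) +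
      ∫ E, (S k)ᶜ.indicator (fun E => ‖g E * (n k E * Kf ρ b (conj (w2 k E)) (w k E))‖) E := by
    rw [integral_indicator (hSm k).compl]
    exact (integral_add_compl (hSm k) (hint k).norm).symm
  have h5 : ∫ E in S k, ‖g E * (n k E * Kf ρ b (conj (w2 k E)) (w k E))‖ ≤ η / 2 := by
    calc _ ≤ ∫ E in S k, K * ‖g E‖ := by
          refine integral_mono_of_nonneg (Eventually.of_forall fun _ => norm_nonneg _)
            ((hgi.norm.const_mul K).integrableOn) (Eventually.of_forall fun E => ?_)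
          simp only
          rw [norm_mul, mul_comm]
          exact mul_le_mul_of_nonneg_right (hHK k E) (norm_nonneg _)
      _ = K * ∫ E in S k, ‖g E‖ := integral_const_mul _ _
      _ ≤ K * (η / 2 / (K + 1)) := mul_le_mul_of_nonneg_left (hs' _ (hSm k) h2) hK0
      _ ≤ (K + 1) * (η / 2 / (K + 1)) := by
          have : 0 < η / 2 / (K + 1) := by positivity
          nlinarith
      _ = η / 2 := by field_simp
  calc _ ≤ ∫ E, ‖g E * (n k E * Kf ρ b (conj (w2 k E)) (w k E))‖ := norm_integral_le_integral_norm _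
    _ < η / 2 + η / 2 := by rw [h4]; linarith
    _ = η := by ring

omit [IsFiniteMeasure ρ] in
/-- the limits are different almost everywhere -/
theorem lim_ne (D : Dat ρ C R M w w2 n m) {W W2 : ℝ → ℂ} {S : Set ℝ}
    (h1 : ∀ᵐ E : ℝ, E ∈ S → Tendsto (fun k => w k E) atTop (𝓝 (W E)))
    (h2 : ∀ᵐ E : ℝ, E ∈ S → Tendsto (fun k => w2 k E) atTop (𝓝 (W2 E))) :
    ∀ᵐ E : ℝ, E ∈ S → W E ≠ W2 E := by
  have key : ∀ L : ℕ, volume {E : ℝ | E ∈ Set.Icc (-(L : ℝ)) L ∧ E ∈ S ∧ W E = W2 E} = 0 := by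
    intro L
    set Q : Set ℝ := {E : ℝ | E ∈ Set.Icc (-(L : ℝ)) L ∧ E ∈ S ∧ W E = W2 E} with hQ
    have hle : ∀ η : ℝ, 0 < η → volume Q ≤ ENNReal.ofReal η := by
      intro η hη
      obtain ⟨δ, hδ, hδ'⟩ := D.sep L η hη
      set T : ℕ → Set ℝ := fun k => {E : ℝ | E ∈ Set.Icc (-(L : ℝ)) L ∧ ‖w2 k E - w k E‖ < δ}
        with hT
      obtain ⟨N, hN⟩ := eventually_atTop.1 hδ'
      set U : ℕ → Set ℝ := fun j => ⋂ k ≥ j, T k with hU
      have hUm : Monotone U := by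
        intro i j hij
        exact Set.biInter_mono (fun k hk => le_trans hij hk) fun k _ => le_rfl
      have hQU : volume Q ≤ volume (⋃ j, U j) := by
        refine measure_mono_ae ?_
        filter_upwards [h1, h2] with E e1 e2 hE
        have hE' : E ∈ Q := hE
        obtain ⟨hEL, hES, hEW⟩ := hE'
        have e3 : Tendsto (fun k => ‖w2 k E - w k E‖) atTop (𝓝 0) := by
          have := ((e2 hES).sub (e1 hES)).norm
          rwa [hEW, sub_self, norm_zero] at this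
        obtain ⟨j, hj⟩ := eventually_atTop.1 (e3.eventually_lt_const hδ)
        refine Set.mem_iUnion.2 ⟨j, Set.mem_iInter₂.2 fun k hk => ⟨hEL, hj k hk⟩⟩
      refine hQU.trans ?_
      rw [hUm.measure_iUnion]
      refine iSup_le fun j => ?_
      refine (measure_mono (Set.iInter₂_subset (max j N) (le_max_left _ _))).trans ?_
      exact hN _ (le_max_right _ _)
    by_contra hne
    obtain ⟨r, hr0, hr⟩ : ∃ r : ℝ, 0 < r ∧ ENNReal.ofReal r < volume Q := by
      have h3 : volume Q ≠ ∞ := ((hle 1 one_pos).trans_lt ENNReal.ofReal_lt_top).ne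
      refine ⟨(volume Q).toReal / 2, by have := ENNReal.toReal_pos hne h3; positivity, ?_⟩
      have h4 := ENNReal.toReal_pos hne h3
      rw [ENNReal.ofReal_lt_iff_lt_toReal (by positivity) h3]
      linarith
    exact absurd (hle r hr0) (not_le.2 hr)
  have h3 : ∀ᵐ E : ℝ, ∀ L : ℕ, ¬ (E ∈ Set.Icc (-(L : ℝ)) L ∧ E ∈ S ∧ W E = W2 E) := by
    rw [ae_all_iff]
    intro L
    have := key L
    rwa [← compl_compl {E : ℝ | E ∈ Set.Icc (-(L : ℝ)) L ∧ E ∈ S ∧ W E = W2 E}] at this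
  filter_upwards [h3] with E hE hES hEW
  obtain ⟨L, hL⟩ := exists_nat_ge |E|
  exact hE L ⟨abs_le.1 hL, hES, hEW⟩

end Dat

end

end Pool.Agent.Helper26.Rg
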